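import Pool.Agent.W739.SOS.Main

set_option autoImplicit false

namespace Pool.Agent.W739.SOS

open Finset

/-- the prolonged coefficient -/
noncomputable def bb {n : ℕ} (c : (Fin n → ℕ) → ℝ) (β : Fin n → ℕ) : ℝ :=
  ∑ j ∈ Finset.univ.filter (fun j : Fin n => 1 ≤ β j), c (β - Pi.single j 1)

/-- cast -/
def cst {n : ℕ} (α : Fin n → ℕ) : Fin n → ℤ := fun i => (α i : ℤ)

lemma cst_inj {n : ℕ} {α β : Fin n → ℕ} (h : cst α = cst β) : α = β := by
  funext i
  have := congrFun h i
  simpa [cst] using this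

lemma cst_add {n : ℕ} (α : Fin n → ℕ) (k : Fin n) : cst (α + Pi.single k 1) = st (cst α) k := by
  funext i
  rw [st_apply]
  simp only [cst, Pi.add_apply, Pi.single_apply]
  split_ifs <;> simp

lemma sub_add_single {n : ℕ} {β : Fin n → ℕ} {j : Fin n} (h : 1 ≤ β j) :
    (β - Pi.single j 1) + Pi.single j 1 = β := by
  funext i
  simp only [Pi.add_apply, Pi.sub_apply, Pi.single_apply]
  split_ifs with h1
  · subst h1; omega
  · simp

lemma add_sub_single {n : ℕ} (β : Fin n → ℕ) (j : Fin n) :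
    (β + Pi.single j 1) - Pi.single j 1 = β := by
  funext i
  simp only [Pi.add_apply, Pi.sub_apply]
  omega

lemma add_mem {n d : ℕ} {α : Fin n → ℕ} (h : α ∈ Finset.Nat.antidiagonalTuple n d) (k : Fin n) :
    α + Pi.single k 1 ∈ Finset.Nat.antidiagonalTuple n (d + 1) := by
  rw [Finset.Nat.mem_antidiagonalTuple] at h ⊢
  simp only [Pi.add_apply, Finset.sum_add_distrib, h]
  simp

lemma sub_mem {n d : ℕ} {β : Fin n → ℕ} (h : β ∈ Finset.Nat.antidiagonalTuple n (d + 1))
    {k : Fin n} (hk : 1 ≤ β k) : β - Pi.single k 1 ∈ Finset.Nat.antidiagonalTuple n d := by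
  rw [Finset.Nat.mem_antidiagonalTuple] at h ⊢
  have h1 := congrArg (fun f : Fin n → ℕ => ∑ i, f i) (sub_add_single hk)
  simp only [Pi.add_apply, Finset.sum_add_distrib, h] at h1
  have h2 : ∑ i, (Pi.single k 1 : Fin n → ℕ) i = 1 := by simp
  omega

lemma lower_link {n d : ℕ} (c : (Fin n → ℕ) → ℝ)
    (hneg : ∃ α ∈ Finset.Nat.antidiagonalTuple n d, c α < 0)
    (hnn : ∀ β ∈ Finset.Nat.antidiagonalTuple n (d + 1), 0 ≤ bb c β) :
    ∃ P N : Finset (Fin n → ℤ), Cfg (Finset.univ : Finset (Fin n)) P N d ∧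
      (Th Finset.univ P N).card ≤
        ((Finset.Nat.antidiagonalTuple n (d + 1)).filter (fun β => bb c β ≠ 0)).card := by
  classical
  set A := Finset.Nat.antidiagonalTuple n d with hA
  set P : Finset (Fin n → ℤ) := (A.filter (fun α => 0 < c α)).image cst with hP
  set N : Finset (Fin n → ℤ) := (A.filter (fun α => c α < 0)).image cst with hN
  have memP : ∀ x, x ∈ P ↔ ∃ α ∈ A, 0 < c α ∧ cst α = x := by
    intro x; rw [hP, Finset.mem_image]
    constructor
    · rintro ⟨α, hα, rfl⟩; rw [Finset.mem_filter] at hα; exact ⟨α, hα.1, hα.2, rfl⟩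
    · rintro ⟨α, h1, h2, rfl⟩; exact ⟨α, Finset.mem_filter.2 ⟨h1, h2⟩, rfl⟩
  have memN : ∀ x, x ∈ N ↔ ∃ α ∈ A, c α < 0 ∧ cst α = x := by
    intro x; rw [hN, Finset.mem_image]
    constructor
    · rintro ⟨α, hα, rfl⟩; rw [Finset.mem_filter] at hα; exact ⟨α, hα.1, hα.2, rfl⟩
    · rintro ⟨α, h1, h2, rfl⟩; exact ⟨α, Finset.mem_filter.2 ⟨h1, h2⟩, rfl⟩
  have sumA : ∀ α ∈ A, ∑ i, cst α i = (d : ℤ) := by
    intro α hα
    rw [hA, Finset.Nat.mem_antidiagonalTuple] at hα
    simp only [cst]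
    exact_mod_cast hα
  have hC : Cfg (Finset.univ : Finset (Fin n)) P N d :=
    { disj := by
        intro x hx hx'
        obtain ⟨α, -, h1, rfl⟩ := (memP x).1 hx
        obtain ⟨α', -, h2, h3⟩ := (memN _).1 hx'
        rw [cst_inj h3] at h2
        linarith
      ne := by
        obtain ⟨α, h1, h2⟩ := hneg
        exact ⟨cst α, (memN _).2 ⟨α, h1, h2, rfl⟩⟩
      outP := fun x _ i hi => absurd (Finset.mem_univ i) hi
      outN := fun x _ i hi => absurd (Finset.mem_univ i) hi
      sumP := by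
        intro x hx
        obtain ⟨α, h0, h1, rfl⟩ := (memP x).1 hx
        exact sumA α h0
      sumN := by
        intro x hx
        obtain ⟨α, h0, h1, rfl⟩ := (memN x).1 hx
        exact sumA α h0 }
  -- membership in the shadows
  have upP : ∀ β ∈ Finset.Nat.antidiagonalTuple n (d + 1), ∀ j, 1 ≤ β j →
      0 < c (β - Pi.single j 1) → cst β ∈ up Finset.univ P := by
    intro β hβ j hj hc
    have := cst_add (β - Pi.single j 1) j
    rw [sub_add_single hj] at this
    rw [this]
    exact st_mem_up ((memP _).2 ⟨_, sub_mem hβ hj, hc, rfl⟩) (Finset.mem_univ _)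
  have upN : ∀ β ∈ Finset.Nat.antidiagonalTuple n (d + 1), ∀ j, 1 ≤ β j →
      c (β - Pi.single j 1) < 0 → cst β ∈ up Finset.univ N := by
    intro β hβ j hj hc
    have := cst_add (β - Pi.single j 1) j
    rw [sub_add_single hj] at this
    rw [this]
    exact st_mem_up ((memN _).2 ⟨_, sub_mem hβ hj, hc, rfl⟩) (Finset.mem_univ _)
  have hD : Dd Finset.univ P N = ∅ := by
    rw [Finset.eq_empty_iff_forall_notMem]
    intro x hx
    obtain ⟨hx1, hx2⟩ := mem_Dd.1 hx
    obtain ⟨y, hy, k, -, rfl⟩ := mem_up.1 hx1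
    obtain ⟨α, hα, hc, rfl⟩ := (memN y).1 hy
    rw [← cst_add] at hx2
    set β := α + Pi.single k 1 with hβ
    have hβm : β ∈ Finset.Nat.antidiagonalTuple n (d + 1) := add_mem hα k
    have hβk : 1 ≤ β k := by simp [hβ]
    have hb := hnn β hβm
    unfold bb at hb
    have hk : k ∈ Finset.univ.filter (fun j : Fin n => 1 ≤ β j) := by simp [hβk]
    rw [← Finset.add_sum_erase _ _ hk] at hb
    have hαβ : β - Pi.single k 1 = α := add_sub_single α k
    rw [hαβ] at hb
    have hpos : 0 < ∑ j ∈ (Finset.univ.filter (fun j : Fin n => 1 ≤ β j)).erase k,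
        c (β - Pi.single j 1) := by linarith
    obtain ⟨j, hj, hj'⟩ := Finset.exists_lt_of_sum_lt (s := (Finset.univ.filter
      (fun j : Fin n => 1 ≤ β j)).erase k) (f := fun _ => (0 : ℝ))
      (g := fun j => c (β - Pi.single j 1)) (by simpa using hpos)
    have hj2 : 1 ≤ β j := (Finset.mem_filter.1 (Finset.mem_erase.1 hj).2).2
    exact hx2 (upP β hβm j hj2 hj')
  refine ⟨P, N, hC, ?_⟩
  have hsub : Th Finset.univ P N ⊆
      ((Finset.Nat.antidiagonalTuple n (d + 1)).filter (fun β => bb c β ≠ 0)).image cst := by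
    intro x hx
    obtain ⟨hx1, hx2⟩ := mem_Tt.1 (Th_of_D hD hx)
    obtain ⟨y, hy, k, -, rfl⟩ := mem_up.1 hx1
    obtain ⟨α, hα, hc, rfl⟩ := (memP y).1 hy
    rw [← cst_add] at hx2 ⊢
    set β := α + Pi.single k 1 with hβ
    have hβm : β ∈ Finset.Nat.antidiagonalTuple n (d + 1) := add_mem hα k
    have hβk : 1 ≤ β k := by simp [hβ]
    refine Finset.mem_image.2 ⟨β, Finset.mem_filter.2 ⟨hβm, ?_⟩, rfl⟩
    apply ne_of_gt
    unfold bb
    apply Finset.sum_pos'
    · intro j hj
      by_contra hlt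
      push Not at hlt
      exact hx2 (upN β hβm j (Finset.mem_filter.1 hj).2 hlt)
    · refine ⟨k, by simp [hβk], ?_⟩
      have hαβ : β - Pi.single k 1 = α := add_sub_single α k
      rw [hαβ]; exact hc
  exact (Finset.card_le_card hsub).trans Finset.card_image_le

/-- indicator -/
noncomputable def dl {n : ℕ} (ρ α : Fin n → ℕ) : ℝ := if α = ρ then 1 else 0

lemma bb_dl {n : ℕ} (ρ β : Fin n → ℕ) :
    bb (dl ρ) β = ∑ j, dl (ρ + Pi.single j 1) β := by
  unfold bb
  rw [Finset.sum_filter]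
  apply Finset.sum_congr rfl
  intro j _
  unfold dl
  by_cases h1 : 1 ≤ β j
  · rw [if_pos h1]
    by_cases h2 : β - Pi.single j 1 = ρ
    · rw [if_pos h2, if_pos (by rw [← h2, sub_add_single h1])]
    · rw [if_neg h2, if_neg]
      rintro rfl
      exact h2 (add_sub_single ρ j)
  · rw [if_neg h1, if_neg]
    rintro rfl
    simp at h1

lemma bb_add {n : ℕ} (c c' : (Fin n → ℕ) → ℝ) (β : Fin n → ℕ) :
    bb (fun α => c α + c' α) β = bb c β + bb c' β := by
  unfold bb; rw [← Finset.sum_add_distrib]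

lemma bb_sub {n : ℕ} (c c' : (Fin n → ℕ) → ℝ) (β : Fin n → ℕ) :
    bb (fun α => c α - c' α) β = bb c β - bb c' β := by
  unfold bb; rw [← Finset.sum_sub_distrib]

lemma bb_sum {n : ℕ} {κ : Type*} (s : Finset κ) (c : κ → (Fin n → ℕ) → ℝ) (β : Fin n → ℕ) :
    bb (fun α => ∑ k ∈ s, c k α) β = ∑ k ∈ s, bb (c k) β := by
  unfold bb; rw [Finset.sum_comm]

lemma dl_nonneg {n : ℕ} (ρ α : Fin n → ℕ) : 0 ≤ dl ρ α := by
  unfold dl; split_ifs <;> norm_num

lemma dl_ne {n : ℕ} {ρ α : Fin n → ℕ} (h : dl ρ α ≠ 0) : α = ρ := by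
  by_contra hne
  exact h (by unfold dl; rw [if_neg hne])

/-- the general example -/
lemma example_upper (n d : ℕ) (hn : 2 ≤ n) (hd : 2 ≤ d) : ∃ c : (Fin n → ℕ) → ℝ,
    (∃ α ∈ Finset.Nat.antidiagonalTuple n d, c α < 0) ∧
    (∀ β, 0 ≤ bb c β) ∧
    ((Finset.Nat.antidiagonalTuple n (d + 1)).filter (fun β => bb c β ≠ 0)).card ≤
      (n + 1).choose 2 - 1 := by
  classical
  let o : Fin n := ⟨0, by omega⟩
  let p : Fin n := ⟨1, by omega⟩
  have hop : o ≠ p := by simp [o, p]
  let E : Fin n → (Fin n → ℕ) := fun i => Pi.single i 1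
  let μ : Fin n → ℕ := Pi.single o (d - 2)
  let c : (Fin n → ℕ) → ℝ := fun α =>
    (∑ j ∈ Finset.univ.erase p, dl (μ + E o + E j) α + dl (μ + E p + E p) α) -
      dl (μ + E o + E p) α
  have hbb : ∀ β, bb c β = ∑ j ∈ Finset.univ.erase p, ∑ k ∈ Finset.univ.erase p,
      dl (μ + E o + E j + E k) β + ∑ k ∈ Finset.univ.erase o, dl (μ + E p + E p + E k) β := by
    intro β
    have e1 : bb c β = (∑ j ∈ Finset.univ.erase p, ∑ k, dl (μ + E o + E j + E k) β +
        ∑ k, dl (μ + E p + E p + E k) β) - ∑ k, dl (μ + E o + E p + E k) β := by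
      simp only [c]
      rw [bb_sub, bb_add, bb_sum, bb_dl, bb_dl]
      simp only [bb_dl, E]
    rw [e1]
    have e2 : ∀ j, ∑ k, dl (μ + E o + E j + E k) β = dl (μ + E o + E j + E p) β +
        ∑ k ∈ Finset.univ.erase p, dl (μ + E o + E j + E k) β := by
      intro j
      rw [Finset.add_sum_erase _ (fun k => dl (μ + E o + E j + E k) β) (Finset.mem_univ p)]
    have e3 : ∑ k, dl (μ + E p + E p + E k) β = dl (μ + E p + E p + E o) β +
        ∑ k ∈ Finset.univ.erase o, dl (μ + E p + E p + E k) β := by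
      rw [Finset.add_sum_erase _ (fun k => dl (μ + E p + E p + E k) β) (Finset.mem_univ o)]
    have e4 : ∑ k, dl (μ + E o + E p + E k) β = dl (μ + E o + E p + E p) β +
        ∑ k ∈ Finset.univ.erase p, dl (μ + E o + E p + E k) β := by
      rw [Finset.add_sum_erase _ (fun k => dl (μ + E o + E p + E k) β) (Finset.mem_univ p)]
    have e5 : μ + E p + E p + E o = μ + E o + E p + E p := by abel
    have e6 : ∀ j, μ + E o + E j + E p = μ + E o + E p + E j := by intro j; abel
    rw [e3, e4, e5]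
    simp only [e2, e6, Finset.sum_add_distrib]
    ring
  refine ⟨c, ?_, ?_, ?_⟩
  · refine ⟨μ + E o + E p, ?_, ?_⟩
    · rw [Finset.Nat.mem_antidiagonalTuple]
      simp only [μ, E, Pi.add_apply, Finset.sum_add_distrib]
      simp
      omega
    · simp only [c]
      have z1 : ∀ j ∈ Finset.univ.erase p, dl (μ + E o + E j) (μ + E o + E p) = 0 := by
        intro j hj
        unfold dl
        rw [if_neg]
        intro h
        have h1 := congrFun (add_left_cancel h) p
        have hjp : p ≠ j := fun h => (Finset.mem_erase.1 hj).1 h.symm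
        simp [E, Pi.single_apply, hjp] at h1
      have z2 : dl (μ + E p + E p) (μ + E o + E p) = 0 := by
        unfold dl
        rw [if_neg]
        intro h
        have h1 := congrFun (add_left_cancel (add_right_cancel h)) p
        simp [E, Pi.single_apply, hop.symm] at h1
      rw [Finset.sum_eq_zero z1, z2]
      unfold dl
      rw [if_pos rfl]; norm_num
  · intro β
    rw [hbb]
    refine add_nonneg (Finset.sum_nonneg fun j _ => Finset.sum_nonneg fun k _ => dl_nonneg _ _)
      (Finset.sum_nonneg fun k _ => dl_nonneg _ _)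
  · have hsub : (Finset.Nat.antidiagonalTuple n (d + 1)).filter (fun β => bb c β ≠ 0) ⊆
        ((Finset.univ.erase p).sym2.image (Sym2.lift ⟨fun j k => μ + E o + E j + E k, by
          intro j k; show μ + E o + E j + E k = μ + E o + E k + E j; abel⟩)) ∪
        ((Finset.univ.erase o).image (fun k => μ + E p + E p + E k)) := by
      intro β hβ
      obtain ⟨-, h2⟩ := Finset.mem_filter.1 hβ
      rw [hbb] at h2
      by_cases h3 : ∑ k ∈ Finset.univ.erase o, dl (μ + E p + E p + E k) β = 0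
      · rw [h3, add_zero] at h2
        obtain ⟨j, hj, h4⟩ := Finset.exists_ne_zero_of_sum_ne_zero h2
        obtain ⟨k, hk, h5⟩ := Finset.exists_ne_zero_of_sum_ne_zero h4
        refine Finset.mem_union_left _ (Finset.mem_image.2 ⟨s(j, k), ?_, ?_⟩)
        · rw [Finset.mk_mem_sym2_iff]; exact ⟨hj, hk⟩
        · rw [dl_ne h5]; rfl
      · obtain ⟨k, hk, h5⟩ := Finset.exists_ne_zero_of_sum_ne_zero h3
        exact Finset.mem_union_right _ (Finset.mem_image.2 ⟨k, hk, (dl_ne h5).symm⟩)
    refine (Finset.card_le_card hsub).trans ((Finset.card_union_le _ _).trans ?_)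
    have h1 : ((Finset.univ.erase p).sym2.image (Sym2.lift ⟨fun j k => μ + E o + E j + E k, by
          intro j k; show μ + E o + E j + E k = μ + E o + E k + E j; abel⟩)).card ≤
        n.choose 2 := by
      refine Finset.card_image_le.trans ?_
      rw [Finset.card_sym2, Finset.card_erase_of_mem (Finset.mem_univ _), Finset.card_univ,
        Fintype.card_fin, Nat.sub_add_cancel (by omega)]
    have h2 : ((Finset.univ.erase o).image (fun k => μ + E p + E p + E k)).card ≤ n - 1 := by
      refine Finset.card_image_le.trans ?_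
      rw [Finset.card_erase_of_mem (Finset.mem_univ _), Finset.card_univ, Fintype.card_fin]
    have h3 : (n + 1).choose 2 = n.choose 2 + n := by
      rw [Nat.choose_succ_succ' n 1, Nat.choose_one_right]; ring
    omega

end Pool.Agent.W739.SOS
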