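import Pool.Agent.W739.SOS.Parity

set_option autoImplicit false

namespace Pool.Agent.W739.SOS

variable {ι : Type*} [Fintype ι] [DecidableEq ι]
variable {S : Finset ι} {P N : Finset (ι → ℤ)} {κ : ℤ}

/-- translation -/
def sh (t : ι → ℤ) (X : Finset (ι → ℤ)) : Finset (ι → ℤ) := X.image (fun x => x + t)

omit [DecidableEq ι] in
lemma mem_sh {t : ι → ℤ} {X : Finset (ι → ℤ)} {x : ι → ℤ} : x ∈ sh t X ↔ x - t ∈ X := by
  simp only [sh, Finset.mem_image]
  constructor
  · rintro ⟨y, hy, rfl⟩; simpa using hy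
  · intro h; exact ⟨x - t, h, by simp⟩

omit [DecidableEq ι] in
lemma card_sh (t : ι → ℤ) (X : Finset (ι → ℤ)) : (sh t X).card = X.card :=
  Finset.card_image_of_injective _ (add_left_injective t)

lemma up_sh (t : ι → ℤ) (X : Finset (ι → ℤ)) : up S (sh t X) = sh t (up S X) := by
  ext x
  rw [mem_sh, mem_up, mem_up]
  constructor
  · rintro ⟨y, hy, i, hi, rfl⟩
    refine ⟨y - t, mem_sh.1 hy, i, hi, ?_⟩
    simp only [st]; abel
  · rintro ⟨y, hy, i, hi, he⟩
    refine ⟨y + t, mem_sh.2 (by simpa using hy), i, hi, ?_⟩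
    have : x = st y i + t := by rw [he]; simp
    rw [this]; simp only [st]; abel

lemma Dd_sh (t : ι → ℤ) : Dd S (sh t P) (sh t N) = sh t (Dd S P N) := by
  ext x; rw [mem_sh, mem_Dd, mem_Dd, up_sh, up_sh, mem_sh, mem_sh]

lemma Tt_sh (t : ι → ℤ) : Tt S (sh t P) (sh t N) = sh t (Tt S P N) := by
  ext x; rw [mem_sh, mem_Tt, mem_Tt, up_sh, up_sh, mem_sh, mem_sh]

lemma Th_sh (t : ι → ℤ) : Th S (sh t P) (sh t N) = sh t (Th S P N) := by
  ext x; rw [mem_sh, mem_Th, mem_Th, Tt_sh, Dd_sh, up_sh, mem_sh, mem_sh]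

lemma exists_priv (h : Cfg S P N κ) : ∃ P' ⊆ P, Dd S P' N = Dd S P N ∧ Th S P' N ⊆ Th S P N ∧
    Cfg S P' N κ ∧
    ∀ ν ∈ P', ∃ i ∈ S, st ν i ∈ up S N ∧ ∀ ν' ∈ P', ∀ j ∈ S, st ν' j = st ν i → ν' = ν := by
  classical
  have hne : (P.powerset.filter (fun Q => Dd S Q N = Dd S P N)).Nonempty :=
    ⟨P, Finset.mem_filter.2 ⟨Finset.mem_powerset_self P, rfl⟩⟩
  obtain ⟨P', hP', hmin⟩ := Finset.exists_min_image _ (fun Q => Q.card) hne
  obtain ⟨hsub, hDeq⟩ := Finset.mem_filter.1 hP'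
  rw [Finset.mem_powerset] at hsub
  refine ⟨P', hsub, hDeq, ?_, ?_, ?_⟩
  · intro x hx
    rcases mem_Th.1 hx with hx | hx
    · rw [hDeq] at hx; exact mem_Th.2 (Or.inl hx)
    · rw [mem_Tt] at hx
      exact mem_Th.2 (Or.inr (mem_Tt.2 ⟨up_mono hsub hx.1, hx.2⟩))
  · exact ⟨fun x hx => h.disj x (hsub hx), h.ne, fun x hx => h.outP x (hsub hx), h.outN,
      fun x hx => h.sumP x (hsub hx), h.sumN⟩
  · intro ν hν
    by_contra hcon
    push Not at hcon
    have hcard : (P'.erase ν).card < P'.card := Finset.card_erase_lt_of_mem hν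
    have hD' : Dd S (P'.erase ν) N = Dd S P N := by
      rw [← hDeq]
      ext x
      rw [mem_Dd, mem_Dd]
      constructor
      · rintro ⟨h1, h2⟩
        refine ⟨h1, fun hu => ?_⟩
        obtain ⟨y, hy, i, hi, rfl⟩ := mem_up.1 hu
        by_cases hyν : y = ν
        · subst hyν
          obtain ⟨ν', hν', j, hj, he, hne'⟩ := hcon i hi h1
          exact h2 (he ▸ st_mem_up (Finset.mem_erase.2 ⟨hne', hν'⟩) hj)
        · exact h2 (st_mem_up (Finset.mem_erase.2 ⟨hyν, hy⟩) hi)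
      · rintro ⟨h1, h2⟩
        exact ⟨h1, fun hu => h2 (up_mono (Finset.erase_subset _ _) hu)⟩
    have := hmin (P'.erase ν) (Finset.mem_filter.2
      ⟨Finset.mem_powerset.2 ((Finset.erase_subset _ _).trans hsub), hD'⟩)
    omega

lemma exists_nrm (h : Cfg S P N κ) : ∃ P' ⊆ P, ∃ (t : ι → ℤ) (κ' : ℤ), (∀ i ∉ S, t i = 0) ∧
    Dd S P' N = Dd S P N ∧ Th S P' N ⊆ Th S P N ∧ Nrm S (sh t P') (sh t N) κ' := by
  obtain ⟨P', hsub, hD, hTh, hC, hpriv⟩ := exists_priv h
  have hmin : ∀ i : ι, ∃ m : ℤ, (∀ x ∈ N, m ≤ x i) ∧ ∃ x ∈ N, x i = m := by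
    intro i
    obtain ⟨α, hα, hm⟩ := Finset.exists_min_image N (fun x => x i) h.ne
    exact ⟨α i, hm, α, hα, rfl⟩
  choose m hm1 hm2 using hmin
  classical
  let t : ι → ℤ := fun i => if i ∈ S then - m i else 0
  have ht : ∀ i ∉ S, t i = 0 := fun i hi => by simp [t, hi]
  have ht' : ∀ i ∈ S, t i = - m i := fun i hi => by simp [t, hi]
  refine ⟨P', hsub, t, κ + ∑ i ∈ S, t i, ht, hD, hTh, ?_⟩
  refine { disj := ?_, ne := ?_, outP := ?_, outN := ?_, sumP := ?_, sumN := ?_, nonneg := ?_,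
           touch := ?_, priv := ?_ }
  · intro x hx hx'
    exact hC.disj _ (mem_sh.1 hx) (mem_sh.1 hx')
  · obtain ⟨x, hx⟩ := hC.ne
    exact ⟨x + t, mem_sh.2 (by simpa using hx)⟩
  · intro x hx i hi
    have := hC.outP _ (mem_sh.1 hx) i hi
    simpa [ht i hi] using this
  · intro x hx i hi
    have := hC.outN _ (mem_sh.1 hx) i hi
    simpa [ht i hi] using this
  · intro x hx
    have := hC.sumP _ (mem_sh.1 hx)
    simp only [Pi.sub_apply, Finset.sum_sub_distrib] at this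
    omega
  · intro x hx
    have := hC.sumN _ (mem_sh.1 hx)
    simp only [Pi.sub_apply, Finset.sum_sub_distrib] at this
    omega
  · intro x hx i hi
    have h1 := hm1 i _ (mem_sh.1 hx)
    have h2 := ht' i hi
    simp only [Pi.sub_apply] at h1
    omega
  · intro i hi
    obtain ⟨x, hx, hxi⟩ := hm2 i
    refine ⟨x + t, mem_sh.2 (by simpa using hx), ?_⟩
    have h2 := ht' i hi
    simp only [Pi.add_apply]
    omega
  · intro ν hν
    obtain ⟨i, hi, h1, h2⟩ := hpriv _ (mem_sh.1 hν)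
    refine ⟨i, hi, ?_, ?_⟩
    · rw [up_sh, mem_sh]
      have : st ν i - t = st (ν - t) i := by simp only [st]; abel
      rw [this]; exact h1
    · intro ν' hν' j hj he
      have := h2 (ν' - t) (mem_sh.1 hν') j hj (by
        have e1 : st (ν' - t) j = st ν' j - t := by simp only [st]; abel
        have e2 : st (ν - t) i = st ν i - t := by simp only [st]; abel
        rw [e1, e2, he])
      simpa using this

/-- number of nonpositive coordinates -/
def rr (S : Finset ι) (τ : ι → ℤ) : ℕ := (S.filter (fun w => τ w ≤ 0)).card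

omit [Fintype ι] [DecidableEq ι] in
lemma sum_swap (X : Finset (ι → ℤ)) :
    ∑ w ∈ S, (X.filter (fun τ => τ w ≤ 0)).card = ∑ τ ∈ X, rr S τ := by
  simp only [rr, Finset.card_filter]
  exact Finset.sum_comm

namespace Nrm

lemma exists_pos (h : Nrm S P N κ) {τ : ι → ℤ} (hτ : τ ∈ Th S P N) : ∃ w ∈ S, 1 ≤ τ w := by
  by_contra hcon
  push Not at hcon
  have h1 := (h.sumTh τ hτ).1
  have h2 : ∑ i ∈ S, τ i ≤ 0 := Finset.sum_nonpos (fun i hi => by have := hcon i hi; omega)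
  have := h.kappa_nonneg
  omega

lemma rr_add_one (h : Nrm S P N κ) {τ : ι → ℤ} (hτ : τ ∈ Th S P N) : rr S τ + 1 ≤ S.card := by
  obtain ⟨w, hw, h1⟩ := h.exists_pos hτ
  have : S.filter (fun w => τ w ≤ 0) ⊆ S.erase w := by
    intro k hk
    rw [Finset.mem_filter] at hk
    refine Finset.mem_erase.2 ⟨?_, hk.1⟩
    rintro rfl; omega
  have h2 := Finset.card_le_card this
  rw [Finset.card_erase_of_mem hw] at h2
  have : 0 < S.card := Finset.card_pos.2 ⟨w, hw⟩
  unfold rr; omega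

lemma rr_add_two (h : Nrm S P N κ) {τ : ι → ℤ} (hτ : τ ∈ Th S P N)
    (hnp : ¬ ∃ w ∈ S, Pure S w τ) : rr S τ + 2 ≤ S.card := by
  obtain ⟨w, hw, h1⟩ := h.exists_pos hτ
  have : ∃ k ∈ S, k ≠ w ∧ 1 ≤ τ k := by
    by_contra hcon
    push Not at hcon
    exact hnp ⟨w, hw, fun k hk hkw => by have := hcon k hk hkw; omega⟩
  obtain ⟨k, hk, hkw, h2⟩ := this
  have : S.filter (fun w => τ w ≤ 0) ⊆ (S.erase w).erase k := by
    intro l hl
    rw [Finset.mem_filter] at hl
    refine Finset.mem_erase.2 ⟨?_, Finset.mem_erase.2 ⟨?_, hl.1⟩⟩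
    · rintro rfl; omega
    · rintro rfl; omega
  have h3 := Finset.card_le_card this
  have hk' : k ∈ S.erase w := Finset.mem_erase.2 ⟨hkw, hk⟩
  rw [Finset.card_erase_of_mem hk', Finset.card_erase_of_mem hw] at h3
  have : 0 < (S.erase w).card := Finset.card_pos.2 ⟨k, hk'⟩
  rw [Finset.card_erase_of_mem hw] at this
  unfold rr; omega

/-- at most one pure element in each direction -/
lemma pure_card (h : Nrm S P N κ) :
    ((Th S P N).filter (fun τ => ∃ w ∈ S, Pure S w τ)).card ≤ S.card := by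
  classical
  have hsub : (Th S P N).filter (fun τ => ∃ w ∈ S, Pure S w τ) ⊆
      S.biUnion (fun w => (Th S P N).filter (Pure S w)) := by
    intro τ hτ
    obtain ⟨h1, w, hw, h2⟩ := Finset.mem_filter.1 hτ
    exact Finset.mem_biUnion.2 ⟨w, hw, Finset.mem_filter.2 ⟨h1, h2⟩⟩
  refine (Finset.card_le_card hsub).trans (Finset.card_biUnion_le.trans ?_)
  calc ∑ w ∈ S, ((Th S P N).filter (Pure S w)).card ≤ ∑ w ∈ S, 1 := by
        apply Finset.sum_le_sum
        intro w hw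
        rw [Finset.card_le_one]
        intro a ha b hb
        rw [Finset.mem_filter] at ha hb
        exact h.pure_unique hw ha.1 hb.1 ha.2 hb.2
    _ = S.card := by simp

lemma rr_le (h : Nrm S P N κ) {τ : ι → ℤ} (hτ : τ ∈ Th S P N) :
    rr S τ + 2 ≤ S.card + if (∃ w ∈ S, Pure S w τ) then 1 else 0 := by
  split_ifs with hp
  · have := h.rr_add_one hτ; omega
  · have := h.rr_add_two hτ hp; omega

lemma avg (h : Nrm S P N κ) :
    ∑ w ∈ S, ((Th S P N).filter (fun τ => τ w ≤ 0)).card + 2 * (Th S P N).card ≤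
      S.card * (Th S P N).card + S.card := by
  rw [sum_swap]
  have h1 : ∑ τ ∈ Th S P N, (rr S τ + 2) ≤
      ∑ τ ∈ Th S P N, (S.card + if (∃ w ∈ S, Pure S w τ) then 1 else 0) :=
    Finset.sum_le_sum (fun τ hτ => h.rr_le hτ)
  rw [Finset.sum_add_distrib, Finset.sum_add_distrib, Finset.sum_const, Finset.sum_const,
    ← Finset.card_filter] at h1
  have h2 := h.pure_card
  simp only [smul_eq_mul] at h1
  nlinarith

end Nrm

/-- the inductive averaging step -/
lemma avg_step (h : Cfg S P N κ) (hc : 2 ≤ S.card) (g : ℕ)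
    (hg : ∀ (S' : Finset ι) (P' N' : Finset (ι → ℤ)) (κ' : ℤ), S'.card + 1 = S.card →
      Cfg S' P' N' κ' → g ≤ (Th S' P' N').card) :
    S.card * g + 2 * (Th S P N).card ≤ S.card * (Th S P N).card + S.card := by
  obtain ⟨P', hsub, t, κ', ht, hD, hTh, hN⟩ := exists_nrm h
  have h1 := hN.avg
  rw [Th_sh, card_sh] at h1
  have h2 : S.card * g ≤ ∑ w ∈ S, ((sh t (Th S P' N)).filter (fun τ => τ w ≤ 0)).card := by
    rw [← smul_eq_mul, ← Finset.sum_const]
    apply Finset.sum_le_sum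
    intro w hw
    rw [← Th_sh]
    refine le_trans ?_ (hN.slice_card hw)
    refine hg _ _ _ _ ?_ (hN.slice hw)
    rw [Finset.card_erase_of_mem hw]
    have : 0 < S.card := Finset.card_pos.2 ⟨w, hw⟩
    omega
  have h3 := Finset.card_le_card hTh
  set F' := (Th S P' N).card
  set F := (Th S P N).card
  nlinarith [Nat.mul_le_mul_right (S.card - 2) h3, Nat.sub_add_cancel hc]

end Pool.Agent.W739.SOS
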