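import Mathlib

/-!
Combinatorial relaxation of the diagonal Hermitian SOS rank problem.

`P`, `N` : finite disjoint sets of integer vectors (positions of positive / negative coefficients);
`up S X` : the upper shadow of `X` in the directions `S`.
-/

set_option autoImplicit false

namespace Pool.Agent.W739.SOS

variable {ι : Type*} [Fintype ι] [DecidableEq ι]

/-- one step in direction `i` -/
def st (x : ι → ℤ) (i : ι) : ι → ℤ := x + Pi.single i 1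

omit [Fintype ι] in
@[simp] lemma st_same (x : ι → ℤ) (i : ι) : st x i i = x i + 1 := by simp [st]

omit [Fintype ι] in
lemma st_ne (x : ι → ℤ) {i k : ι} (h : k ≠ i) : st x i k = x k := by simp [st, h]

omit [Fintype ι] in
lemma st_apply (x : ι → ℤ) (i k : ι) : st x i k = x k + if k = i then 1 else 0 := by
  by_cases h : k = i
  · subst h; simp
  · simp [st_ne x h, h]

omit [Fintype ι] in
lemma le_st (x : ι → ℤ) (i k : ι) : x k ≤ st x i k := by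
  rw [st_apply]; split_ifs <;> omega

omit [Fintype ι] in
lemma st_le (x : ι → ℤ) (i k : ι) : st x i k ≤ x k + 1 := by
  rw [st_apply]; split_ifs <;> omega

omit [Fintype ι] in
lemma st_inj {x y : ι → ℤ} {i : ι} (h : st x i = st y i) : x = y := by
  simpa [st] using h

omit [Fintype ι] in
lemma st_inj' {x : ι → ℤ} {i j : ι} (h : st x i = st x j) : i = j := by
  by_contra hne
  have := congrFun h i
  rw [st_same, st_ne x hne] at this
  omega

omit [Fintype ι] in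
lemma st_comm (x : ι → ℤ) (i j : ι) : st (st x i) j = st (st x j) i := by
  simp only [st]; abel

/-- upper shadow -/
def up (S : Finset ι) (X : Finset (ι → ℤ)) : Finset (ι → ℤ) :=
  (X ×ˢ S).image (fun p => st p.1 p.2)

lemma mem_up {S : Finset ι} {X : Finset (ι → ℤ)} {x : ι → ℤ} :
    x ∈ up S X ↔ ∃ y ∈ X, ∃ i ∈ S, st y i = x := by
  simp only [up, Finset.mem_image, Finset.mem_product, Prod.exists]
  constructor
  · rintro ⟨a, b, ⟨h1, h2⟩, h3⟩; exact ⟨a, h1, b, h2, h3⟩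
  · rintro ⟨a, h1, b, h2, h3⟩; exact ⟨a, b, ⟨h1, h2⟩, h3⟩

lemma st_mem_up {S : Finset ι} {X : Finset (ι → ℤ)} {x : ι → ℤ} {i : ι} (hx : x ∈ X) (hi : i ∈ S) :
    st x i ∈ up S X := mem_up.2 ⟨x, hx, i, hi, rfl⟩

lemma up_mono {S : Finset ι} {X Y : Finset (ι → ℤ)} (h : X ⊆ Y) : up S X ⊆ up S Y := by
  intro x hx
  obtain ⟨y, hy, i, hi, rfl⟩ := mem_up.1 hx
  exact st_mem_up (h hy) hi

/-- the uncovered part -/
def Dd (S : Finset ι) (P N : Finset (ι → ℤ)) : Finset (ι → ℤ) := up S N \ up S P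
/-- the surviving part -/
def Tt (S : Finset ι) (P N : Finset (ι → ℤ)) : Finset (ι → ℤ) := up S P \ up S N
/-- all terms -/
def Th (S : Finset ι) (P N : Finset (ι → ℤ)) : Finset (ι → ℤ) := up S (Dd S P N) ∪ Tt S P N

lemma mem_Dd {S : Finset ι} {P N : Finset (ι → ℤ)} {x : ι → ℤ} :
    x ∈ Dd S P N ↔ x ∈ up S N ∧ x ∉ up S P := Finset.mem_sdiff
lemma mem_Tt {S : Finset ι} {P N : Finset (ι → ℤ)} {x : ι → ℤ} :
    x ∈ Tt S P N ↔ x ∈ up S P ∧ x ∉ up S N := Finset.mem_sdiff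
lemma mem_Th {S : Finset ι} {P N : Finset (ι → ℤ)} {x : ι → ℤ} :
    x ∈ Th S P N ↔ x ∈ up S (Dd S P N) ∨ x ∈ Tt S P N := Finset.mem_union

/-- A configuration: supported on `S`, constant sum `κ`. -/
structure Cfg (S : Finset ι) (P N : Finset (ι → ℤ)) (κ : ℤ) : Prop where
  disj : ∀ x ∈ P, x ∉ N
  ne : N.Nonempty
  outP : ∀ x ∈ P, ∀ i ∉ S, x i = 0
  outN : ∀ x ∈ N, ∀ i ∉ S, x i = 0
  sumP : ∀ x ∈ P, ∑ i ∈ S, x i = κ
  sumN : ∀ x ∈ N, ∑ i ∈ S, x i = κ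

omit [Fintype ι] in
lemma sum_st {S : Finset ι} {i : ι} (hi : i ∈ S) (x : ι → ℤ) :
    ∑ k ∈ S, st x i k = ∑ k ∈ S, x k + 1 := by
  simp only [st_apply, Finset.sum_add_distrib]
  simp [hi]

lemma sum_up {S : Finset ι} {X : Finset (ι → ℤ)} {κ : ℤ} (h : ∀ x ∈ X, ∑ i ∈ S, x i = κ) :
    ∀ x ∈ up S X, ∑ i ∈ S, x i = κ + 1 := by
  intro x hx
  obtain ⟨y, hy, i, hi, rfl⟩ := mem_up.1 hx
  rw [sum_st hi, h y hy]

lemma out_up {S : Finset ι} {X : Finset (ι → ℤ)} (h : ∀ x ∈ X, ∀ i ∉ S, x i = 0) :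
    ∀ x ∈ up S X, ∀ i ∉ S, x i = 0 := by
  intro x hx k hk
  obtain ⟨y, hy, i, hi, rfl⟩ := mem_up.1 hx
  rw [st_ne, h y hy k hk]
  rintro rfl; exact hk hi

omit [Fintype ι] [DecidableEq ι] in
lemma ext_on {S : Finset ι} {x y : ι → ℤ} (hx : ∀ i ∉ S, x i = 0) (hy : ∀ i ∉ S, y i = 0)
    (h : ∀ i ∈ S, x i = y i) : x = y := by
  funext i
  by_cases hi : i ∈ S
  · exact h i hi
  · rw [hx i hi, hy i hi]

namespace Cfg

variable {S : Finset ι} {P N : Finset (ι → ℤ)} {κ : ℤ}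

lemma sumT (h : Cfg S P N κ) : ∀ x ∈ Tt S P N, ∑ i ∈ S, x i = κ + 1 :=
  fun x hx => sum_up h.sumP x (mem_Tt.1 hx).1

lemma sumD (h : Cfg S P N κ) : ∀ x ∈ Dd S P N, ∑ i ∈ S, x i = κ + 1 :=
  fun x hx => sum_up h.sumN x (mem_Dd.1 hx).1

lemma sumUD (h : Cfg S P N κ) : ∀ x ∈ up S (Dd S P N), ∑ i ∈ S, x i = κ + 2 := by
  intro x hx
  rw [sum_up h.sumD x hx]; ring

lemma outT (h : Cfg S P N κ) : ∀ x ∈ Tt S P N, ∀ i ∉ S, x i = 0 :=
  fun x hx => out_up h.outP x (mem_Tt.1 hx).1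

lemma outD (h : Cfg S P N κ) : ∀ x ∈ Dd S P N, ∀ i ∉ S, x i = 0 :=
  fun x hx => out_up h.outN x (mem_Dd.1 hx).1

lemma outTh (h : Cfg S P N κ) : ∀ x ∈ Th S P N, ∀ i ∉ S, x i = 0 := by
  intro x hx
  rcases mem_Th.1 hx with h1 | h1
  · exact out_up h.outD x h1
  · exact h.outT x h1

lemma sumTh (h : Cfg S P N κ) : ∀ x ∈ Th S P N, κ + 1 ≤ ∑ i ∈ S, x i ∧ ∑ i ∈ S, x i ≤ κ + 2 := by
  intro x hx
  rcases mem_Th.1 hx with h1 | h1
  · rw [h.sumUD x h1]; omega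
  · rw [h.sumT x h1]; omega

/-- top lemma -/
lemma top (h : Cfg S P N κ) {w : ι} (hw : w ∈ S) :
    ∃ α ∈ N, (∀ α' ∈ N, α' w ≤ α w) ∧ ∃ τ ∈ Th S P N, α w + 2 ≤ τ w := by
  obtain ⟨α, hα, hmax⟩ := Finset.exists_max_image N (fun x => x w) h.ne
  refine ⟨α, hα, hmax, ?_⟩
  have hup : ∀ x ∈ up S N, x w ≤ α w + 1 := by
    intro x hx
    obtain ⟨y, hy, i, hi, rfl⟩ := mem_up.1 hx
    have := st_le y i w
    have := hmax y hy
    omega
  by_cases hc : st α w ∈ up S P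
  · obtain ⟨ν, hν, i, hi, he⟩ := mem_up.1 hc
    have hiw : w ≠ i := by
      rintro rfl
      exact h.disj ν hν ((st_inj he) ▸ hα)
    have h1 : ν w = α w + 1 := by
      have := congrFun he w
      rwa [st_same, st_ne ν hiw] at this
    obtain ⟨μ, hμ, hmaxμ⟩ := Finset.exists_max_image P (fun x => x w) ⟨ν, hν⟩
    refine ⟨st μ w, mem_Th.2 (Or.inr (mem_Tt.2 ⟨st_mem_up hμ hw, ?_⟩)), ?_⟩
    · intro hx
      have := hup _ hx
      have h2 := hmaxμ ν hν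
      rw [st_same] at this
      omega
    · have h2 := hmaxμ ν hν
      rw [st_same]; omega
  · refine ⟨st (st α w) w, mem_Th.2 (Or.inl (st_mem_up (mem_Dd.2 ⟨st_mem_up hα hw, hc⟩) hw)), ?_⟩
    rw [st_same, st_same]; omega

end Cfg

end Pool.Agent.W739.SOS
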