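import Pool.Agent.W739.SOS.FourB

set_option autoImplicit false

namespace Pool.Agent.W739.SOS

variable {ι : Type*} [Fintype ι] [DecidableEq ι]
variable {S : Finset ι} {P N : Finset (ι → ℤ)} {κ : ℤ}

/-- quadratic monomials -/
def q (i j : ι) : ι → ℤ := Pi.single i 1 + Pi.single j 1

omit [Fintype ι] in
lemma q_comm (i j : ι) : q i j = q j i := by simp only [q]; abel

omit [Fintype ι] in
lemma q_apply (i j m : ι) : q i j m = (if m = i then 1 else 0) + (if m = j then 1 else 0) := by
  simp [q, Pi.single_apply]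

omit [Fintype ι] in
lemma stq_apply (i j k m : ι) : st (q i j) k m =
    (if m = i then 1 else 0) + (if m = j then 1 else 0) + (if m = k then 1 else 0) := by
  rw [st_apply, q_apply]

omit [Fintype ι] in
lemma stq1 (i j k : ι) : st (q i j) k = st (q j k) i := by simp only [st, q]; abel
omit [Fintype ι] in
lemma stq2 (i j k : ι) : st (q i j) k = st (q i k) j := by simp only [st, q]; abel

lemma up3 {X : Finset (ι → ℤ)} {i j k : ι} (h : st (q i j) k ∈ up S X) :
    q j k ∈ X ∨ q i k ∈ X ∨ q i j ∈ X ∨ ∃ ρ ∈ X, ∃ m ∈ S, st ρ m = st (q i j) k ∧ ρ m < 0 := by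
  obtain ⟨ρ, hρ, m, hm, he⟩ := mem_up.1 h
  by_cases hmk : m = k
  · subst hmk; right; right; left
    rw [← st_inj he]; exact hρ
  by_cases hmj : m = j
  · subst hmj; right; left
    rw [stq2] at he
    rw [← st_inj he]; exact hρ
  by_cases hmi : m = i
  · subst hmi; left
    rw [stq1] at he
    rw [← st_inj he]; exact hρ
  · right; right; right
    refine ⟨ρ, hρ, m, hm, he, ?_⟩
    have := congrFun he m
    rw [st_same, stq_apply, if_neg hmi, if_neg hmj, if_neg hmk] at this
    omega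

omit [Fintype ι] in
/-- two distinct stars meet in at most one point -/
lemma inter_le_one {A : Finset ι} {ν ν' : ι → ℤ} (hne : ν ≠ ν') {B : Finset ι} [Fintype ι] :
    ((A.image (fun m => st ν m)) ∩ (B.image (fun m => st ν' m))).card ≤ 1 := by
  rw [Finset.card_le_one]
  intro x hx y hy
  by_contra hxy
  rw [Finset.mem_inter, Finset.mem_image, Finset.mem_image] at hx hy
  obtain ⟨⟨m, -, hm⟩, ⟨m', -, hm'⟩⟩ := hx
  obtain ⟨⟨l, -, hl⟩, ⟨l', -, hl'⟩⟩ := hy
  have e1 : st ν m = st ν' m' := hm.trans hm'.symm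
  have e2 : st ν l = st ν' l' := hl.trans hl'.symm
  have hml : m ≠ l := by
    rintro rfl; exact hxy (hm.symm.trans hl)
  have hmm' : m ≠ m' := by
    rintro rfl; exact hne (st_inj e1)
  have f1 := congrFun e1 m
  have f2 := congrFun e2 m
  rw [st_same, st_ne ν' hmm'] at f1
  rw [st_ne ν hml] at f2
  have := le_st ν' l' m
  omega

/-- data in five variables -/
structure F5 (S : Finset ι) (P N : Finset (ι → ℤ)) (κ : ℤ) (w a b c d : ι) : Prop
    extends Nrm S P N κ where
  w_mem : w ∈ S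
  a_mem : a ∈ S
  b_mem : b ∈ S
  c_mem : c ∈ S
  d_mem : d ∈ S
  ab : a ≠ b
  ac : a ≠ c
  ad : a ≠ d
  bc : b ≠ c
  bd : b ≠ d
  cd : c ≠ d
  wa : w ≠ a
  wb : w ≠ b
  wc : w ≠ c
  wd : w ≠ d
  c5 : S.card = 5
  U5 : (UU S P N w).card ≤ 5
  qN : ∀ i j, (i = a ∨ i = b) → (j = c ∨ j = d) → q i j ∈ N
  qP1 : ∀ i j, (i = a ∨ i = b) → (j = a ∨ j = b) → q i j ∈ P
  qP2 : ∀ i j, (i = c ∨ i = d) → (j = c ∨ j = d) → q i j ∈ P
  D1 : ∀ δ ∈ Dd S P N, 1 ≤ δ w
  X1 : ∀ ν ∈ P, ∀ i ∈ S, ν i < 0 → 1 ≤ ν w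

namespace F5

variable {w a b c d : ι}

lemma symm (h : F5 S P N κ w a b c d) : F5 S P N κ w c d a b where
  toNrm := h.toNrm
  w_mem := h.w_mem
  a_mem := h.c_mem
  b_mem := h.d_mem
  c_mem := h.a_mem
  d_mem := h.b_mem
  ab := h.cd
  ac := h.ac.symm
  ad := h.bc.symm
  bc := h.ad.symm
  bd := h.bd.symm
  cd := h.ab
  wa := h.wc
  wb := h.wd
  wc := h.wa
  wd := h.wb
  c5 := h.c5
  U5 := h.U5
  qN := fun i j hi hj => by rw [q_comm]; exact h.qN j i hj hi
  qP1 := h.qP2
  qP2 := h.qP1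
  D1 := h.D1
  X1 := h.X1

/-- nonnegative sets -/
lemma up3N (h : F5 S P N κ w a b c d) {i j k : ι} (hu : st (q i j) k ∈ up S N) :
    q j k ∈ N ∨ q i k ∈ N ∨ q i j ∈ N := by
  rcases up3 hu with h1 | h1 | h1 | ⟨ρ, hρ, m, hm, -, hneg⟩
  · exact Or.inl h1
  · exact Or.inr (Or.inl h1)
  · exact Or.inr (Or.inr h1)
  · have := h.nonneg ρ hρ m hm
    omega

lemma sq_P (h : F5 S P N κ w a b c d) {i : ι} (hi : i = a ∨ i = b ∨ i = c ∨ i = d) :
    q i i ∈ P ∧ i ∈ S ∧ i ≠ w := by
  rcases hi with rfl | rfl | rfl | rfl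
  · exact ⟨h.qP1 _ _ (Or.inl rfl) (Or.inl rfl), h.a_mem, h.wa.symm⟩
  · exact ⟨h.qP1 _ _ (Or.inr rfl) (Or.inr rfl), h.b_mem, h.wb.symm⟩
  · exact ⟨h.qP2 _ _ (Or.inl rfl) (Or.inl rfl), h.c_mem, h.wc.symm⟩
  · exact ⟨h.qP2 _ _ (Or.inr rfl) (Or.inr rfl), h.d_mem, h.wd.symm⟩

/-- if `q i w ∉ N` then `x_i² x_w` is a term -/
lemma sq_T (h : F5 S P N κ w a b c d) {i : ι} (hi : i = a ∨ i = b ∨ i = c ∨ i = d)
    (hN : q i w ∉ N) : st (q i i) w ∈ Tt S P N := by
  obtain ⟨h1, h2, h3⟩ := h.sq_P hi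
  refine mem_Tt.2 ⟨st_mem_up h1 h.w_mem, fun hu => ?_⟩
  rcases h.up3N hu with h4 | h4 | h4
  · exact hN h4
  · exact hN h4
  · exact h.disj _ h1 h4

/-- a covered mixed product with both `q i w`, `q j w ∈ N` is covered by an export -/
lemma cov_export (h : F5 S P N κ w a b c d) {i j : ι} (hi : i = a ∨ i = b) (hj : j = c ∨ j = d)
    (h1 : q i w ∈ N) (h2 : q j w ∈ N) (hc : st (q i j) w ∈ up S P) :
    ∃ ρ ∈ P, ∃ m ∈ S, st ρ m = st (q i j) w ∧ ρ m < 0 := by
  rcases up3 hc with h4 | h4 | h4 | h4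
  · exact absurd h2 (h.disj _ h4)
  · exact absurd h1 (h.disj _ h4)
  · exact absurd (h.qN i j hi hj) (h.disj _ h4)
  · exact h4

/-- nothing is uncovered -/
lemma D0 (h : F5 S P N κ w a b c d) : Dd S P N = ∅ := by
  rw [Finset.eq_empty_iff_forall_notMem]
  intro δ hδ
  have hδw := h.D1 δ hδ
  have hsub : S.image (fun i => st δ i) ⊆ UU S P N w := by
    intro x hx
    obtain ⟨i, hi, rfl⟩ := Finset.mem_image.1 hx
    rw [mem_UU]
    refine ⟨mem_Th.2 (Or.inl (st_mem_up hδ hi)), ?_⟩
    have := le_st δ i w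
    omega
  have hcard : (S.image (fun i => st δ i)).card = 5 := by
    rw [Finset.card_image_of_injective _ (fun i j h => st_inj' h), h.c5]
  have heq := Finset.eq_of_subset_of_card_le hsub (by rw [hcard]; exact h.U5)
  have hnoT : ∀ τ ∈ Tt S P N, ¬ 1 ≤ τ w := by
    intro τ hτ h1
    have h2 : τ ∈ UU S P N w := mem_UU.2 ⟨T_sub_Th hτ, h1⟩
    rw [← heq] at h2
    obtain ⟨i, hi, rfl⟩ := Finset.mem_image.1 h2
    have e1 := h.sumT _ hτ
    have e2 := h.sumUD _ (st_mem_up hδ hi)
    rw [e1] at e2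
    omega
  have huniq : ∀ δ' ∈ Dd S P N, δ' = δ := by
    intro δ' hδ'
    by_contra hne
    have hsub' : S.image (fun i => st δ' i) ⊆ UU S P N w := by
      intro x hx
      obtain ⟨i, hi, rfl⟩ := Finset.mem_image.1 hx
      rw [mem_UU]
      refine ⟨mem_Th.2 (Or.inl (st_mem_up hδ' hi)), ?_⟩
      have := le_st δ' i w
      have := h.D1 δ' hδ'
      omega
    have h1 := inter_le_one (A := S) (B := S) hne
    rw [heq, Finset.inter_eq_left.2 hsub',
      Finset.card_image_of_injective _ (fun i j h => st_inj' h), h.c5] at h1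
    omega
  have hN : ∀ i, (i = a ∨ i = b ∨ i = c ∨ i = d) → q i w ∈ N := by
    intro i hi
    by_contra hcon
    refine hnoT _ (h.sq_T hi hcon) ?_
    rw [stq_apply, if_neg (h.sq_P hi).2.2.symm, if_pos rfl]
    norm_num
  have hDc : ∀ i j, (i = a ∨ i = b) → (j = c ∨ j = d) → st (q i j) w ∈ Dd S P N := by
    intro i j hi hj
    refine mem_Dd.2 ⟨st_mem_up (h.qN i j hi hj) h.w_mem, fun hu => ?_⟩
    obtain ⟨ρ, hρ, m, hm, he, hneg⟩ := h.cov_export hi hj (hN i (by tauto)) (hN j (by tauto)) hu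
    have hmw : w ≠ m := by
      rintro rfl
      have := h.X1 ρ hρ w hm hneg
      omega
    have ht := export_T (fun x hx => h.nonneg x hx m hm) hρ hneg h.w_mem hmw
    refine hnoT _ ht ?_
    have := h.X1 ρ hρ m hm hneg
    rw [st_same]; omega
  have e := (huniq _ (hDc a c (Or.inl rfl) (Or.inl rfl))).trans
    (huniq _ (hDc a d (Or.inl rfl) (Or.inr rfl))).symm
  have := congrFun e c
  rw [stq_apply, stq_apply, if_neg h.ac.symm, if_pos rfl, if_neg h.wc.symm,
    if_neg h.cd] at this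
  omega

lemma cov (h : F5 S P N κ w a b c d) : up S N ⊆ up S P := Nrm.cover_of_D h.D0

/-- no exports -/
lemma noX (h : F5 S P N κ w a b c d) : ∀ ν ∈ P, ∀ i ∈ S, 0 ≤ ν i := by
  intro ν hν i0 hi0
  by_contra hneg
  push Not at hneg
  have hνw := h.X1 ν hν i0 hi0 hneg
  -- the star of an export
  have star : ∀ ν ∈ P, ∀ i ∈ S, ν i < 0 → (S.erase i).image (fun m => st ν m) ⊆ UU S P N w ∧
      ((S.erase i).image (fun m => st ν m)).card = 4 := by
    intro ν hν i hi hneg
    constructor
    · intro x hx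
      obtain ⟨m, hm, rfl⟩ := Finset.mem_image.1 hx
      rw [Finset.mem_erase] at hm
      refine mem_UU.2 ⟨T_sub_Th (export_T (fun x hx => h.nonneg x hx i hi) hν hneg hm.2 hm.1), ?_⟩
      have := h.X1 ν hν i hi hneg
      have := le_st ν m w
      omega
    · rw [Finset.card_image_of_injective _ (fun i j h => st_inj' h), Finset.card_erase_of_mem hi,
        h.c5]
  obtain ⟨hA, hA4⟩ := star ν hν i0 hi0 hneg
  have huniq : ∀ ν' ∈ P, ∀ i ∈ S, ν' i < 0 → ν' = ν := by
    intro ν' hν' i hi hneg'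
    by_contra hne
    obtain ⟨hB, hB4⟩ := star ν' hν' i hi hneg'
    have h1 := inter_le_one (A := S.erase i) (B := S.erase i0) hne
    have h2 := Finset.card_union_add_card_inter ((S.erase i).image (fun m => st ν' m))
      ((S.erase i0).image (fun m => st ν m))
    have h3 := Finset.card_le_card (Finset.union_subset hB hA)
    have := h.U5
    omega
  have hpriv := h.export_priv hν hi0 hneg
  -- at most one index outside
  have hout : ∀ i j, (i = a ∨ i = b ∨ i = c ∨ i = d) → (j = a ∨ j = b ∨ j = c ∨ j = d) → i ≠ j →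
      q i w ∉ N → q j w ∈ N := by
    intro i j hi hj hij hiN
    by_contra hjN
    have hi' := h.sq_P hi
    have hj' := h.sq_P hj
    have t1 := h.sq_T hi hiN
    have t2 := h.sq_T hj hjN
    have hsub : insert (st (q i i) w) (insert (st (q j j) w)
        ((S.erase i0).image (fun m => st ν m))) ⊆ UU S P N w := by
      intro x hx
      rw [Finset.mem_insert, Finset.mem_insert] at hx
      rcases hx with rfl | rfl | hx
      · refine mem_UU.2 ⟨T_sub_Th t1, ?_⟩
        rw [stq_apply, if_neg hi'.2.2.symm, if_pos rfl]; norm_num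
      · refine mem_UU.2 ⟨T_sub_Th t2, ?_⟩
        rw [stq_apply, if_neg hj'.2.2.symm, if_pos rfl]; norm_num
      · exact hA hx
    have hnn : ∀ l : ι, st (q l l) w ∉ (S.erase i0).image (fun m => st ν m) := by
      intro l hx
      obtain ⟨m, hm, hme⟩ := Finset.mem_image.1 hx
      have h1 := congrFun hme i0
      rw [st_ne ν (fun h => (Finset.mem_erase.1 hm).1 h.symm), stq_apply] at h1
      have h2 : ∀ p : Prop, [Decidable p] → (0 : ℤ) ≤ if p then 1 else 0 := by
        intro p _; split_ifs <;> norm_num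
      have := h2 (i0 = l)
      have := h2 (i0 = w)
      omega
    have hne2 : st (q i i) w ≠ st (q j j) w := by
      intro he
      have := congrFun he i
      rw [stq_apply, stq_apply, if_pos rfl, if_neg hij, if_neg hi'.2.2] at this
      omega
    have hcard := Finset.card_le_card hsub
    rw [Finset.card_insert_of_notMem, Finset.card_insert_of_notMem (hnn j), hA4] at hcard
    · have := h.U5
      omega
    · rw [Finset.mem_insert]
      rintro (h1 | h1)
      · exact hne2 h1
      · exact hnn i h1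
  have hpair : ∀ i j, (i = a ∨ i = b) → (j = c ∨ j = d) → q i w ∈ N → q j w ∈ N →
      st (q i j) w = st ν i0 := by
    intro i j hi hj h1 h2
    have hc := h.cov (st_mem_up (h.qN i j hi hj) h.w_mem)
    obtain ⟨ρ, hρ, m, hm, he, hneg'⟩ := h.cov_export hi hj h1 h2 hc
    have := huniq ρ hρ m hm hneg'
    subst this
    by_cases hmi : m = i0
    · subst hmi; exact he.symm
    · have := hpriv.2.1 m hm hmi
      omega
  -- conclusion
  have diff1 : ∀ i, st (q i c) w ≠ st (q i d) w := by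
    intro i he
    have := congrFun he c
    rw [stq_apply, stq_apply, if_pos rfl, if_neg h.cd, if_neg h.wc.symm] at this
    omega
  have diff2 : ∀ j, st (q a j) w ≠ st (q b j) w := by
    intro j he
    have := congrFun he a
    rw [stq_apply, stq_apply, if_pos rfl, if_neg h.ab, if_neg h.wa.symm] at this
    omega
  by_cases ga : q a w ∈ N
  · by_cases gc : q c w ∈ N
    · by_cases gd : q d w ∈ N
      · exact diff1 a ((hpair a c (by tauto) (by tauto) ga gc).trans
          (hpair a d (by tauto) (by tauto) ga gd).symm)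
      · have gb := hout d b (by tauto) (by tauto) h.bd.symm gd
        exact diff2 c ((hpair a c (by tauto) (by tauto) ga gc).trans
          (hpair b c (by tauto) (by tauto) gb gc).symm)
    · have gb := hout c b (by tauto) (by tauto) h.bc.symm gc
      have gd := hout c d (by tauto) (by tauto) h.cd gc
      exact diff2 d ((hpair a d (by tauto) (by tauto) ga gd).trans
          (hpair b d (by tauto) (by tauto) gb gd).symm)
  · have gb := hout a b (by tauto) (by tauto) h.ab ga
    have gc := hout a c (by tauto) (by tauto) h.ac ga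
    have gd := hout a d (by tauto) (by tauto) h.ad ga
    exact diff1 b ((hpair b c (by tauto) (by tauto) gb gc).trans
          (hpair b d (by tauto) (by tauto) gb gd).symm)

lemma up3P (h : F5 S P N κ w a b c d) {i j k : ι} (hu : st (q i j) k ∈ up S P) :
    q j k ∈ P ∨ q i k ∈ P ∨ q i j ∈ P := by
  rcases up3 hu with h1 | h1 | h1 | ⟨ρ, hρ, m, hm, -, hneg⟩
  · exact Or.inl h1
  · exact Or.inr (Or.inl h1)
  · exact Or.inr (Or.inr h1)
  · have := h.noX ρ hρ m hm
    omega

/-- final count when `q a w`, `q b w ∈ P` -/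
lemma final (h : F5 S P N κ w a b c d) (ha : q a w ∈ P) (hb : q b w ∈ P) : False := by
  have hwwN : q w w ∉ N := by
    intro hN
    have h1 := h.cov (st_mem_up hN h.w_mem)
    rcases h.up3P h1 with h2 | h2 | h2 <;> exact h.disj _ h2 hN
  have haN : q a w ∉ N := h.disj _ ha
  have hbN : q b w ∉ N := h.disj _ hb
  have habP := h.qP1 a b (Or.inl rfl) (Or.inr rfl)
  have t1 := h.sq_T (Or.inl rfl) haN
  have t3 := h.sq_T (Or.inr (Or.inl rfl)) hbN
  have t2 : st (q a b) w ∈ Tt S P N := by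
    refine mem_Tt.2 ⟨st_mem_up habP h.w_mem, fun hu => ?_⟩
    rcases h.up3N hu with h4 | h4 | h4
    · exact hbN h4
    · exact haN h4
    · exact h.disj _ habP h4
  have tw : ∀ i, q i w ∈ P → st (q i w) w ∈ Tt S P N := by
    intro i hi
    refine mem_Tt.2 ⟨st_mem_up hi h.w_mem, fun hu => ?_⟩
    rcases h.up3N hu with h4 | h4 | h4
    · exact hwwN h4
    · exact h.disj _ hi h4
    · exact h.disj _ hi h4
  have t4 := tw a ha
  have t5 := tw b hb
  -- sixth term
  have t6 : ∃ τ ∈ Tt S P N, τ a = 0 ∧ τ b = 0 ∧ 1 ≤ τ w := by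
    by_cases hww : q w w ∈ P
    · refine ⟨_, tw w hww, ?_, ?_, ?_⟩
      · rw [stq_apply, if_neg h.wa.symm]; norm_num
      · rw [stq_apply, if_neg h.wb.symm]; norm_num
      · rw [stq_apply, if_pos rfl]; norm_num
    · by_cases hcw : q c w ∈ P
      · refine ⟨_, tw c hcw, ?_, ?_, ?_⟩
        · rw [stq_apply, if_neg h.wa.symm, if_neg h.ac]; norm_num
        · rw [stq_apply, if_neg h.wb.symm, if_neg h.bc]; norm_num
        · rw [stq_apply, if_pos rfl, if_neg h.wc]; norm_num
      · have hcN : q c w ∉ N := by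
          intro hN
          have h1 := h.cov (st_mem_up hN h.w_mem)
          rcases h.up3P h1 with h2 | h2 | h2
          · exact hww h2
          · exact hcw h2
          · exact hcw h2
        refine ⟨_, h.sq_T (i := c) (by tauto) hcN, ?_, ?_, ?_⟩
        · rw [stq_apply, if_neg h.wa.symm, if_neg h.ac]; norm_num
        · rw [stq_apply, if_neg h.wb.symm, if_neg h.bc]; norm_num
        · rw [stq_apply, if_pos rfl, if_neg h.wc]; norm_num
  obtain ⟨τ, hτ, τa, τb, τw⟩ := t6
  -- coordinates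
  have A1 : st (q a a) w a = 2 ∧ st (q a a) w w = 1 := by
    rw [stq_apply, stq_apply, if_pos rfl, if_neg h.wa.symm, if_neg h.wa, if_pos rfl]; norm_num
  have A2 : st (q a b) w a = 1 ∧ st (q a b) w b = 1 ∧ st (q a b) w w = 1 := by
    rw [stq_apply, stq_apply, stq_apply, if_pos rfl, if_neg h.ab, if_neg h.wa.symm,
      if_neg h.ab.symm, if_pos rfl, if_neg h.wb.symm, if_neg h.wa, if_neg h.wb, if_pos rfl]
    norm_num
  have A3 : st (q b b) w a = 0 ∧ st (q b b) w b = 2 ∧ st (q b b) w w = 1 := by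
    rw [stq_apply, stq_apply, stq_apply, if_neg h.ab, if_neg h.wa.symm, if_pos rfl,
      if_neg h.wb.symm, if_neg h.wb, if_pos rfl]
    norm_num
  have A4 : st (q a w) w a = 1 ∧ st (q a w) w w = 2 := by
    rw [stq_apply, stq_apply, if_pos rfl, if_neg h.wa.symm, if_neg h.wa, if_pos rfl]; norm_num
  have A5 : st (q b w) w a = 0 ∧ st (q b w) w b = 1 ∧ st (q b w) w w = 2 := by
    rw [stq_apply, stq_apply, stq_apply, if_neg h.ab, if_neg h.wa.symm, if_pos rfl,
      if_neg h.wb.symm, if_neg h.wb, if_pos rfl]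
    norm_num
  obtain ⟨a1, a1'⟩ := A1
  obtain ⟨a2, a2', a2''⟩ := A2
  obtain ⟨a3, a3', a3''⟩ := A3
  obtain ⟨a4, a4'⟩ := A4
  obtain ⟨a5, a5', a5''⟩ := A5
  have hsub : ({τ, st (q a a) w, st (q a b) w, st (q b b) w, st (q a w) w, st (q b w) w} :
      Finset (ι → ℤ)) ⊆ UU S P N w := by
    intro x hx
    simp only [Finset.mem_insert, Finset.mem_singleton] at hx
    rcases hx with rfl | rfl | rfl | rfl | rfl | rfl
    · exact mem_UU.2 ⟨T_sub_Th hτ, τw⟩
    · exact mem_UU.2 ⟨T_sub_Th t1, by omega⟩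
    · exact mem_UU.2 ⟨T_sub_Th t2, by omega⟩
    · exact mem_UU.2 ⟨T_sub_Th t3, by omega⟩
    · exact mem_UU.2 ⟨T_sub_Th t4, by omega⟩
    · exact mem_UU.2 ⟨T_sub_Th t5, by omega⟩
  have hne : ∀ {x y : ι → ℤ} (k : ι), x k ≠ y k → x ≠ y := by
    rintro x y k hk rfl; exact hk rfl
  have hcard : ({τ, st (q a a) w, st (q a b) w, st (q b b) w, st (q a w) w, st (q b w) w} :
      Finset (ι → ℤ)).card = 6 := by
    rw [Finset.card_insert_of_notMem, Finset.card_insert_of_notMem, Finset.card_insert_of_notMem,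
      Finset.card_insert_of_notMem, Finset.card_pair]
    · exact hne a (by omega)
    · simp only [Finset.mem_insert, Finset.mem_singleton, not_or]
      exact ⟨hne a (by omega), hne b (by omega)⟩
    · simp only [Finset.mem_insert, Finset.mem_singleton, not_or]
      exact ⟨hne a (by omega), hne w (by omega), hne a (by omega)⟩
    · simp only [Finset.mem_insert, Finset.mem_singleton, not_or]
      exact ⟨hne a (by omega), hne a (by omega), hne a (by omega), hne a (by omega)⟩
    · simp only [Finset.mem_insert, Finset.mem_singleton, not_or]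
      exact ⟨hne a (by omega), hne a (by omega), hne b (by omega), hne a (by omega),
        hne b (by omega)⟩
  have h1 := Finset.card_le_card hsub
  have h2 := h.U5
  omega

lemma false (h : F5 S P N κ w a b c d) : False := by
  have key : ∀ i j, (i = a ∨ i = b) → (j = c ∨ j = d) → q i w ∈ P ∨ q j w ∈ P := by
    intro i j hi hj
    have h1 := h.cov (st_mem_up (h.qN i j hi hj) h.w_mem)
    rcases h.up3P h1 with h2 | h2 | h2
    · exact Or.inr h2
    · exact Or.inl h2
    · exact absurd (h.qN i j hi hj) (h.disj _ h2)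
  by_cases ha : q a w ∈ P
  · by_cases hb : q b w ∈ P
    · exact h.final ha hb
    · have h1 := (key b c (by tauto) (by tauto)).resolve_left hb
      have h2 := (key b d (by tauto) (by tauto)).resolve_left hb
      exact h.symm.final h1 h2
  · have h1 := (key a c (by tauto) (by tauto)).resolve_left ha
    have h2 := (key a d (by tauto) (by tauto)).resolve_left ha
    exact h.symm.final h1 h2

end F5

end Pool.Agent.W739.SOS
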