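import Pool.Agent.W739.SOS.Three

set_option autoImplicit false

namespace Pool.Agent.W739.SOS

variable {ι : Type*} [Fintype ι] [DecidableEq ι]
variable {S : Finset ι} {P N : Finset (ι → ℤ)} {κ : ℤ}

omit [Fintype ι] [DecidableEq ι] in
lemma three_le_card {α : Type*} [DecidableEq α] {X : Finset α} {a b c : α} (ha : a ∈ X) (hb : b ∈ X)
    (hc : c ∈ X) (h1 : a ≠ b) (h2 : a ≠ c) (h3 : b ≠ c) : 3 ≤ X.card := by
  have hsub : ({a, b, c} : Finset α) ⊆ X := by
    intro x hx
    simp only [Finset.mem_insert, Finset.mem_singleton] at hx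
    rcases hx with rfl | rfl | rfl <;> assumption
  have := Finset.card_le_card hsub
  rwa [Finset.card_eq_three.2 ⟨a, b, c, h1, h2, h3, rfl⟩] at this

omit [Fintype ι] [DecidableEq ι] in
lemma four_le_card {α : Type*} [DecidableEq α] {X : Finset α} {a b c d : α} (ha : a ∈ X) (hb : b ∈ X)
    (hc : c ∈ X) (hd : d ∈ X) (h1 : a ≠ b) (h2 : a ≠ c) (h3 : b ≠ c) (h4 : d ≠ a) (h5 : d ≠ b)
    (h6 : d ≠ c) : 4 ≤ X.card := by
  have hsub : ({d, a, b, c} : Finset α) ⊆ X := by
    intro x hx
    simp only [Finset.mem_insert, Finset.mem_singleton] at hx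
    rcases hx with rfl | rfl | rfl | rfl <;> assumption
  have := Finset.card_le_card hsub
  rw [Finset.card_insert_of_notMem, Finset.card_eq_three.2 ⟨a, b, c, h1, h2, h3, rfl⟩] at this
  · exact this
  · simp only [Finset.mem_insert, Finset.mem_singleton, not_or]
    exact ⟨h4, h5, h6⟩

omit [Fintype ι] in
lemma others4 (hS : S.card = 4) {w i : ι} (hw : w ∈ S) (hi : i ∈ S) (hiw : i ≠ w) :
    ∃ j k, j ∈ S ∧ k ∈ S ∧ j ≠ w ∧ k ≠ w ∧ j ≠ i ∧ k ≠ i ∧ j ≠ k ∧
      ∀ m ∈ S, m = w ∨ m = i ∨ m = j ∨ m = k := by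
  have hi' : i ∈ S.erase w := Finset.mem_erase.2 ⟨hiw, hi⟩
  have h2 : ((S.erase w).erase i).card = 2 := by
    rw [Finset.card_erase_of_mem hi', Finset.card_erase_of_mem hw, hS]
  obtain ⟨j, k, hjk, he⟩ := Finset.card_eq_two.1 h2
  have hj : j ∈ (S.erase w).erase i := by rw [he]; simp
  have hk : k ∈ (S.erase w).erase i := by rw [he]; simp
  rw [Finset.mem_erase, Finset.mem_erase] at hj hk
  refine ⟨j, k, hj.2.2, hk.2.2, hj.2.1, hk.2.1, hj.1, hk.1, hjk, ?_⟩
  intro m hm
  by_cases hmw : m = w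
  · exact Or.inl hmw
  by_cases hmi : m = i
  · exact Or.inr (Or.inl hmi)
  · right; right
    have : m ∈ (S.erase w).erase i := Finset.mem_erase.2 ⟨hmi, Finset.mem_erase.2 ⟨hmw, hm⟩⟩
    rw [he] at this
    simpa using this

/-- first consequences of equality in four variables -/
structure E4 (S : Finset ι) (P N : Finset (ι → ℤ)) (κ : ℤ) : Prop extends Nrm S P N κ where
  c4 : S.card = 4
  D0 : Dd S P N = ∅
  U3 : ∀ w ∈ S, (UU S P N w).card = 3
  two : ∀ τ ∈ Th S P N, ∀ i ∈ S, ∀ j ∈ S, ∀ k ∈ S, i ≠ j → i ≠ k → j ≠ k →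
    1 ≤ τ i → 1 ≤ τ j → ¬ 1 ≤ τ k
  ex : ∀ w ∈ S, ∃ τ ∈ Th S P N, Pure S w τ

lemma E4_of (h : Nrm S P N κ) (hS : S.card = 4) (hF : (Th S P N).card ≤ 8) : E4 S P N κ := by
  classical
  have hF8 : (Th S P N).card = 8 := le_antisymm hF (lower4 h.toCfg hS)
  have hL : ∀ w ∈ S, 5 ≤ ((Th S P N).filter (fun τ => τ w ≤ 0)).card := by
    intro w hw
    refine le_trans ?_ (h.slice_card hw)
    exact lower3 (h.slice hw) (by rw [Finset.card_erase_of_mem hw, hS])
  have hsplit := fun w => card_split (S := S) (P := P) (N := N) w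
  have hlow : 20 ≤ ∑ w ∈ S, ((Th S P N).filter (fun τ => τ w ≤ 0)).card := by
    calc 20 = ∑ w ∈ S, 5 := by rw [Finset.sum_const, hS]; rfl
      _ ≤ _ := Finset.sum_le_sum hL
  have hsum20 : ∑ w ∈ S, ((Th S P N).filter (fun τ => τ w ≤ 0)).card = 20 := by
    have := h.avg
    rw [hF8, hS] at this
    omega
  have hL5 : ∀ w ∈ S, ((Th S P N).filter (fun τ => τ w ≤ 0)).card = 5 := by
    intro w hw
    rw [← Finset.add_sum_erase S _ hw] at hsum20
    have h1 : 15 ≤ ∑ w ∈ S.erase w, ((Th S P N).filter (fun τ => τ w ≤ 0)).card := by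
      calc 15 = ∑ w ∈ S.erase w, 5 := by
            rw [Finset.sum_const, Finset.card_erase_of_mem hw, hS]; rfl
        _ ≤ _ := Finset.sum_le_sum (fun k hk => hL k (Finset.mem_erase.1 hk).2)
    have := hL w hw
    omega
  have hU3 : ∀ w ∈ S, (UU S P N w).card = 3 := by
    intro w hw
    have := hsplit w
    have := hL5 w hw
    omega
  have hpc := h.pure_card
  have hrr : ∑ τ ∈ Th S P N, (rr S τ + 2) = 36 := by
    rw [Finset.sum_add_distrib, ← sum_swap, hsum20, Finset.sum_const, hF8]; rfl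
  have hrr2 : ∑ τ ∈ Th S P N, (S.card + if (∃ w ∈ S, Pure S w τ) then 1 else 0) =
      32 + ((Th S P N).filter (fun τ => ∃ w ∈ S, Pure S w τ)).card := by
    rw [Finset.sum_add_distrib, Finset.sum_const, ← Finset.card_filter, hF8, hS]; rfl
  have hle := Finset.sum_le_sum (fun τ hτ => h.rr_le hτ)
  rw [hrr, hrr2] at hle
  rw [hS] at hpc
  have hp4 : ((Th S P N).filter (fun τ => ∃ w ∈ S, Pure S w τ)).card = 4 := by omega
  have heq : ∀ τ ∈ Th S P N, rr S τ + 2 = S.card + if (∃ w ∈ S, Pure S w τ) then 1 else 0 := by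
    rw [← Finset.sum_eq_sum_iff_of_le (fun τ hτ => h.rr_le hτ), hrr, hrr2, hp4]
  refine { toNrm := h, c4 := hS, D0 := h.D_empty (fun w hw => by rw [hU3 w hw, hS]; omega),
           U3 := hU3, two := ?_, ex := ?_ }
  · intro τ hτ i hi j hj k hk hij hik hjk h1 h2 h3
    have hr := heq τ hτ
    rw [hS] at hr
    have hr2 : 2 ≤ rr S τ := by omega
    have hsub : S.filter (fun w => τ w ≤ 0) ⊆ ((S.erase i).erase j).erase k := by
      intro l hl
      rw [Finset.mem_filter] at hl
      refine Finset.mem_erase.2 ⟨?_, Finset.mem_erase.2 ⟨?_, Finset.mem_erase.2 ⟨?_, hl.1⟩⟩⟩ <;>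
      · rintro rfl; omega
    have hc := Finset.card_le_card hsub
    rw [Finset.card_erase_of_mem (Finset.mem_erase.2 ⟨fun h => hjk h.symm, Finset.mem_erase.2
        ⟨fun h => hik h.symm, hk⟩⟩),
      Finset.card_erase_of_mem (Finset.mem_erase.2 ⟨fun h => hij h.symm, hj⟩),
      Finset.card_erase_of_mem hi, hS] at hc
    unfold rr at hr2
    omega
  · intro w hw
    by_contra hcon
    push Not at hcon
    have hsub : (Th S P N).filter (fun τ => ∃ w ∈ S, Pure S w τ) ⊆
        (S.erase w).biUnion (fun w => (Th S P N).filter (Pure S w)) := by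
      intro τ hτ
      obtain ⟨h1, v, hv, h2⟩ := Finset.mem_filter.1 hτ
      refine Finset.mem_biUnion.2 ⟨v, Finset.mem_erase.2 ⟨?_, hv⟩, Finset.mem_filter.2 ⟨h1, h2⟩⟩
      rintro rfl
      exact hcon τ h1 h2
    have h3 := (Finset.card_le_card hsub).trans Finset.card_biUnion_le
    have h4 : ∑ v ∈ S.erase w, ((Th S P N).filter (Pure S v)).card ≤ ∑ v ∈ S.erase w, 1 := by
      apply Finset.sum_le_sum
      intro v hv
      rw [Finset.card_le_one]
      intro a ha b hb
      rw [Finset.mem_filter] at ha hb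
      exact h.pure_unique (Finset.mem_erase.1 hv).2 ha.1 hb.1 ha.2 hb.2
    rw [Finset.sum_const, Finset.card_erase_of_mem hw, hS, smul_eq_mul] at h4
    omega

namespace E4

lemma cov (h : E4 S P N κ) : up S N ⊆ up S P := Nrm.cover_of_D h.D0

/-- shape of exports -/
lemma export_shape (h : E4 S P N κ) {ν : ι → ℤ} (hν : ν ∈ P) {i : ι} (hi : i ∈ S) (hneg : ν i < 0) :
    ∃ w ∈ S, w ≠ i ∧ st ν i = Pi.single w (κ + 1) := by
  obtain ⟨h1, h2, h3, h4⟩ := h.export_priv hν hi hneg
  have hκ := h.kappa_nonneg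
  have hsum := h.sumP ν hν
  have hw : ∃ w ∈ S, w ≠ i ∧ 1 ≤ ν w := by
    by_contra hcon
    push Not at hcon
    have : ∑ k ∈ S.erase i, ν k ≤ 0 := by
      apply Finset.sum_nonpos
      intro k hk
      have := hcon k (Finset.mem_erase.1 hk).2 (Finset.mem_erase.1 hk).1
      omega
    rw [← Finset.add_sum_erase S _ hi] at hsum
    omega
  obtain ⟨w, hw, hwi, hw1⟩ := hw
  refine ⟨w, hw, hwi, ?_⟩
  obtain ⟨j, k, hj, hk, hjw, hkw, hji, hki, hjk, hall⟩ := others4 h.c4 hw hi (fun h => hwi h.symm)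
  have h0 : ∀ x ∈ N, 0 ≤ x i := fun x hx => h.nonneg x hx i hi
  have hj0 : ν j = 0 := by
    have hge := h2 j hj hji
    by_contra hne
    have ht := T_sub_Th (export_T h0 hν hneg hk hki)
    refine h.two _ ht w hw j hj k hk (fun h => hjw h.symm) (fun h => hkw h.symm) hjk ?_ ?_ ?_
    · have := le_st ν k w; omega
    · have := le_st ν k j; omega
    · rw [st_same]; have := h2 k hk hki; omega
  have hk0 : ν k = 0 := by
    have hge := h2 k hk hki
    by_contra hne
    have ht := T_sub_Th (export_T h0 hν hneg hj hji)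
    refine h.two _ ht w hw k hk j hj (fun h => hkw h.symm) (fun h => hjw h.symm)
      (fun h => hjk h.symm) ?_ ?_ ?_
    · have := le_st ν j w; omega
    · have := le_st ν j k; omega
    · rw [st_same]; have := h2 j hj hji; omega
  have hS' : S = {w, i, j, k} := by
    ext m
    simp only [Finset.mem_insert, Finset.mem_singleton]
    constructor
    · exact hall m
    · rintro (rfl | rfl | rfl | rfl) <;> assumption
  have hsum' : ν w + (ν i + (ν j + ν k)) = κ := by
    rw [← hsum, hS', Finset.sum_insert, Finset.sum_insert, Finset.sum_pair hjk]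
    · simp only [Finset.mem_insert, Finset.mem_singleton, not_or]
      exact ⟨fun h => hji h.symm, fun h => hki h.symm⟩
    · simp only [Finset.mem_insert, Finset.mem_singleton, not_or]
      exact ⟨hwi, fun h => hjw h.symm, fun h => hkw h.symm⟩
  apply ext_on (S := S)
  · intro m hm
    rw [st_ne ν (by rintro rfl; exact hm hi)]
    exact h.outP ν hν m hm
  · intro m hm
    rw [Pi.single_eq_of_ne (by rintro rfl; exact hm hw)]
  · intro m hm
    rcases hall m hm with rfl | rfl | rfl | rfl
    · rw [st_ne ν hwi, Pi.single_eq_same]; omega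
    · rw [st_same, Pi.single_eq_of_ne (fun h => hwi h.symm)]; omega
    · rw [st_ne ν hji, Pi.single_eq_of_ne hjw]; omega
    · rw [st_ne ν hki, Pi.single_eq_of_ne hkw]; omega

/-- terms above level zero in the direction of an export -/
lemma export_U (h : E4 S P N κ) {ν : ι → ℤ} (hν : ν ∈ P) {i w : ι} (hi : i ∈ S) (hw : w ∈ S)
    (hwi : w ≠ i) (he : st ν i = Pi.single w (κ + 1)) :
    ∀ x ∈ UU S P N w, ∃ m ∈ S, m ≠ i ∧ x = st ν m := by
  have hκ := h.kappa_nonneg
  have hνi : ν i = -1 := by
    have := congrFun he i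
    rw [st_same, Pi.single_eq_of_ne (fun h => hwi h.symm)] at this
    omega
  have hνw : ν w = κ + 1 := by
    have := congrFun he w
    rwa [st_ne ν hwi, Pi.single_eq_same] at this
  have h0 : ∀ x ∈ N, 0 ≤ x i := fun x hx => h.nonneg x hx i hi
  have hsub : (S.erase i).image (fun m => st ν m) ⊆ UU S P N w := by
    intro x hx
    obtain ⟨m, hm, rfl⟩ := Finset.mem_image.1 hx
    rw [Finset.mem_erase] at hm
    refine mem_UU.2 ⟨T_sub_Th (export_T h0 hν (by omega) hm.2 hm.1), ?_⟩
    have := le_st ν m w; omega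
  have hcard : ((S.erase i).image (fun m => st ν m)).card = 3 := by
    rw [Finset.card_image_of_injective _ (fun a b hab => st_inj' hab),
      Finset.card_erase_of_mem hi, h.c4]
  have heq := Finset.eq_of_subset_of_card_le hsub (by rw [hcard, h.U3 w hw])
  intro x hx
  rw [← heq] at hx
  obtain ⟨m, hm, rfl⟩ := Finset.mem_image.1 hx
  rw [Finset.mem_erase] at hm
  exact ⟨m, hm.2, hm.1, rfl⟩

/-- no exports -/
lemma no_export (h : E4 S P N κ) : ∀ ν ∈ P, ∀ i ∈ S, 0 ≤ ν i := by
  intro ν hν i hi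
  by_contra hneg
  push Not at hneg
  have hκ := h.kappa_nonneg
  obtain ⟨w, hw, hwi, he⟩ := h.export_shape hν hi hneg
  have hνi : ν i = -1 := by
    have := congrFun he i
    rw [st_same, Pi.single_eq_of_ne (fun h => hwi h.symm)] at this
    omega
  have hνw : ν w = κ + 1 := by
    have := congrFun he w
    rwa [st_ne ν hwi, Pi.single_eq_same] at this
  have hνo : ∀ k, k ≠ i → k ≠ w → ν k = 0 := by
    intro k hki hkw
    have := congrFun he k
    rwa [st_ne ν hki, Pi.single_eq_of_ne hkw] at this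
  have hU := h.export_U hν hi hw hwi he
  obtain ⟨j, k, hj, hk, hjw, hkw, hji, hki, hjk, hall⟩ := others4 h.c4 hw hi (fun h => hwi h.symm)
  rcases hκ.lt_or_eq with hκ1 | hκ0
  · -- κ ≥ 1
    -- Claim A
    have claimA : ∀ ρ ∈ P, ρ w ≠ κ := by
      intro ρ hρ hρw
      have hnu : st ρ w ∉ up S N := by
        intro hu
        obtain ⟨α, hα, m, hm, hm'⟩ := mem_up.1 hu
        by_cases hmw : m = w
        · subst hmw
          exact h.disj ρ hρ ((st_inj hm') ▸ hα)
        · have h1 := congrFun hm' w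
          rw [st_same, st_ne α (fun h => hmw h.symm)] at h1
          have h2 := h.sumN α hα
          rw [← Finset.add_sum_erase S _ hw] at h2
          have h3 : 0 ≤ ∑ l ∈ S.erase w, α l :=
            Finset.sum_nonneg (fun l hl => h.nonneg α hα l (Finset.mem_erase.1 hl).2)
          omega
      have hT : st ρ w ∈ Tt S P N := mem_Tt.2 ⟨st_mem_up hρ hw, hnu⟩
      obtain ⟨m, hm, hmi, hx⟩ := hU _ (mem_UU.2 ⟨T_sub_Th hT, by rw [st_same]; omega⟩)
      by_cases hmw : m = w
      · subst hmw
        have := st_inj hx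
        subst this
        omega
      · have hρm : ρ m = 1 := by
          have := congrFun hx m
          rw [st_ne ρ hmw, st_same, hνo m hmi hmw] at this
          omega
        have hρi : ρ i = -1 := by
          have := congrFun hx i
          rw [st_ne ρ (fun h => hwi h.symm), st_ne ν (fun h => hmi h.symm)] at this
          omega
        obtain ⟨v, hv, hvi, hve⟩ := h.export_shape hρ hi (by omega)
        have e1 := congrFun hve m
        have e2 := congrFun hve w
        rw [st_ne ρ hmi] at e1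
        rw [st_ne ρ hwi] at e2
        by_cases hvw : w = v
        · subst hvw
          rw [Pi.single_eq_same] at e2
          omega
        · rw [Pi.single_eq_of_ne hvw] at e2
          omega
    -- Claim B
    have claimB : (∀ x ∈ P, 0 ≤ x w → x w ≤ κ → ¬ Even (κ - x w)) ∧
        (∀ x ∈ N, 0 ≤ x w → x w ≤ κ → ¬ Odd (κ - x w)) := by
      classical
      by_contra hcon
      set Bad : Finset (ι → ℤ) :=
        (P.filter (fun x => 0 ≤ x w ∧ x w ≤ κ ∧ Even (κ - x w))) ∪
        (N.filter (fun x => 0 ≤ x w ∧ x w ≤ κ ∧ Odd (κ - x w))) with hBad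
      have hne : Bad.Nonempty := by
        by_contra hemp
        apply hcon
        rw [Finset.not_nonempty_iff_eq_empty] at hemp
        constructor
        · intro x hx h0 h1 hpar
          have : x ∈ Bad := Finset.mem_union_left _ (Finset.mem_filter.2 ⟨hx, h0, h1, hpar⟩)
          rw [hemp] at this; simp at this
        · intro x hx h0 h1 hpar
          have : x ∈ Bad := Finset.mem_union_right _ (Finset.mem_filter.2 ⟨hx, h0, h1, hpar⟩)
          rw [hemp] at this; simp at this
      obtain ⟨x, hx, hmax⟩ := Finset.exists_max_image Bad (fun x => x w) hne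
      have big : ∀ y ∈ Bad, ¬ (y w = x w + 1) := by
        intro y hy he
        have := hmax y hy
        omega
      rcases Finset.mem_union.1 hx with hx' | hx'
      · obtain ⟨hxP, h0, h1, hpar⟩ := Finset.mem_filter.1 hx'
        have hne' := claimA x hxP
        obtain ⟨r, hr⟩ := hpar
        have hnT : st x w ∉ Tt S P N := by
          intro hmem
          obtain ⟨m, hm, hmi, hxe⟩ := hU _ (mem_UU.2 ⟨T_sub_Th hmem, by rw [st_same]; omega⟩)
          have := congrFun hxe w
          rw [st_same] at this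
          have h2 := le_st ν m w
          omega
        have hu : st x w ∈ up S N := by
          by_contra hcon'
          exact hnT (mem_Tt.2 ⟨st_mem_up hxP hw, hcon'⟩)
        obtain ⟨α, hα, l, hl, hle⟩ := mem_up.1 hu
        have hlw : l ≠ w := by
          rintro rfl
          exact h.disj x hxP ((st_inj hle) ▸ hα)
        obtain ⟨h2, -⟩ := st_rel hle.symm hlw
        refine big α (Finset.mem_union_right _ (Finset.mem_filter.2 ⟨hα, by omega, by omega,
          ⟨r - 1, by omega⟩⟩)) h2
      · obtain ⟨hxN, h0, h1, hpar⟩ := Finset.mem_filter.1 hx'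
        obtain ⟨r, hr⟩ := hpar
        obtain ⟨ρ, hρ, l, hl, hle⟩ := mem_up.1 (h.cov (st_mem_up hxN hw))
        have hlw : l ≠ w := by
          rintro rfl
          exact h.disj ρ hρ ((st_inj hle) ▸ hxN)
        obtain ⟨h2, -⟩ := st_rel hle.symm hlw
        refine big ρ (Finset.mem_union_left _ (Finset.mem_filter.2 ⟨hρ, by omega, by omega,
          ⟨r, by omega⟩⟩)) h2
    -- no element of `P` at level zero
    have hnoP : ∀ x ∈ P, x w ≠ 0 := by
      intro x hx hx0
      obtain ⟨y, hy, hy0⟩ := h.touch w hw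
      have h1 := claimB.1 x hx (by omega) (by omega)
      have h2 := claimB.2 y hy (by omega) (by omega)
      rw [hx0] at h1
      rw [hy0] at h2
      rw [Int.not_odd_iff_even] at h2
      exact h1 h2
    -- pure element in direction `j`
    obtain ⟨τ, hτ, hpτ⟩ := h.ex j hj
    rcases h.pure_cases hj hτ hpτ with ⟨a1, a2⟩ | ⟨i', hi', hi'j, ρ, hρ, b1, b2, b3, b4, b5⟩ |
        ⟨-, a2⟩
    · rw [a1] at a2
      obtain ⟨hu, hnu⟩ := mem_Tt.1 a2
      obtain ⟨ρ, hρ, m, hm, hme⟩ := mem_up.1 hu
      by_cases hmj : m = j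
      · subst hmj
        apply hnoP ρ hρ
        have := congrFun hme w
        rwa [st_ne ρ (fun h => hjw h.symm), Pi.single_eq_of_ne (fun h => hjw h.symm)] at this
      · have hneg' : ρ m < 0 := by
          have := congrFun hme m
          rw [st_same, Pi.single_eq_of_ne hmj] at this
          omega
        obtain ⟨-, -, h3, -⟩ := h.export_priv hρ hm hneg'
        rw [hme] at h3
        exact hnu h3
    · by_cases hi'w : i' = w
      · subst hi'w
        have hUj := h.export_U hρ hi' hj (fun h => hi'j h.symm) b2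
        have ht := export_T (fun x hx => h.nonneg x hx i hi) hν (by omega) hj hji
        obtain ⟨m, hm, hmi', hme⟩ := hUj _ (mem_UU.2 ⟨T_sub_Th ht, by
          rw [st_same, hνo j hji hjw]; norm_num⟩)
        have := congrFun hme i'
        rw [st_ne ν (fun h => hjw h.symm), st_ne ρ (fun h => hmi' h.symm), hνw, b1] at this
        omega
      · apply hnoP ρ hρ
        have := congrFun b2 w
        rwa [st_ne ρ (fun h => hi'w h.symm), Pi.single_eq_of_ne (fun h => hjw h.symm)] at this
    · rw [h.D0] at a2; simp at a2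
  · -- κ = 0
    subst hκ0
    have hN0 : ∀ x ∈ N, x = 0 := by
      intro x hx
      have h1 := h.sumN x hx
      rw [Finset.sum_eq_zero_iff_of_nonneg (fun l hl => h.nonneg x hx l hl)] at h1
      exact ext_on (S := S) (h.outN x hx) (fun _ _ => rfl) (fun l hl => by rw [h1 l hl]; rfl)
    obtain ⟨z, hz⟩ := h.ne
    have hz0 := hN0 z hz
    subst hz0
    -- for every `m` an export
    have hexp : ∀ m ∈ S, ∃ k ∈ S, k ≠ m ∧ ∃ ρ ∈ P, st ρ k = Pi.single m (0 + 1) := by
      intro m hm
      have h1 : st (0 : ι → ℤ) m ∈ up S P := h.cov (st_mem_up hz hm)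
      obtain ⟨ρ, hρ, k, hk, hke⟩ := mem_up.1 h1
      refine ⟨k, hk, ?_, ρ, hρ, by rw [hke]; simp [st]⟩
      rintro rfl
      exact h.disj ρ hρ ((st_inj hke) ▸ hz)
    choose! K hK1 hK2 R hR1 hR2 using hexp
    have hRK : ∀ m ∈ S, R m (K m) = -1 := by
      intro m hm
      have := congrFun (hR2 m hm) (K m)
      rw [st_same, Pi.single_eq_of_ne (hK2 m hm)] at this
      omega
    have hRm : ∀ m ∈ S, R m m = 1 := by
      intro m hm
      have := congrFun (hR2 m hm) m
      rw [st_ne _ (fun h => hK2 m hm h.symm), Pi.single_eq_same] at this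
      omega
    have hRo : ∀ m ∈ S, ∀ l, l ≠ m → l ≠ K m → R m l = 0 := by
      intro m hm l hlm hlK
      have := congrFun (hR2 m hm) l
      rwa [st_ne _ hlK, Pi.single_eq_of_ne hlm] at this
    -- comparison
    have hcomp : ∀ m ∈ S, ∀ m' ∈ S, m ≠ m' → m' ≠ K m → K m' = K m := by
      intro m hm m' hm' hmm' hK'
      have ht := export_T (fun x hx => h.nonneg x hx (K m) (hK1 m hm)) (hR1 m hm)
        (by rw [hRK m hm]; norm_num) hm' hK'
      have hU' := h.export_U (hR1 m' hm') (hK1 m' hm') hm' (fun h => hK2 m' hm' h.symm)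
        (hR2 m' hm')
      obtain ⟨l, hl, hlK, hle⟩ := hU' _ (mem_UU.2 ⟨T_sub_Th ht, by
        rw [st_same, hRo m hm m' (fun h => hmm' h.symm) hK']; norm_num⟩)
      have h1 := congrFun hle (K m')
      rw [st_ne _ (fun h => hlK h.symm), hRK m' hm'] at h1
      by_contra hne
      have h2 := le_st (R m) m' (K m')
      rw [h1] at h2
      by_cases hKm : K m' = m
      · rw [hKm, hRm m hm] at h2
        norm_num at h2
      · rw [hRo m hm (K m') hKm hne] at h2
        norm_num at h2
    have hn : K w ∈ S := hK1 w hw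
    have hnw : K w ≠ w := hK2 w hw
    have hKn : K (K w) = w := by
      by_contra hne
      have := hcomp (K w) hn w hw hnw (fun h => hne h.symm)
      exact hK2 (K w) hn this.symm
    obtain ⟨x, y, hx, hy, hxw, hyw, hxn, hyn, hxy, -⟩ := others4 h.c4 hw hn hnw
    have e1 := hcomp w hw x hx (fun h => hxw h.symm) hxn
    have e2 := hcomp (K w) hn x hx (fun h => hxn h.symm) (by rw [hKn]; exact hxw)
    rw [hKn, e1] at e2
    exact hnw e2

end E4

end Pool.Agent.W739.SOS
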