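import Pool.Agent.W739.SOS.Four

set_option autoImplicit false

namespace Pool.Agent.W739.SOS

variable {ι : Type*} [Fintype ι] [DecidableEq ι]
variable {S : Finset ι} {P N : Finset (ι → ℤ)} {κ : ℤ}

/-- points of an edge -/
def edge (κ : ℤ) (i j : ι) (s : ℤ) : ι → ℤ := Pi.single i (κ - s) + Pi.single j s

omit [Fintype ι] in
lemma edge_i {i j : ι} (hij : i ≠ j) (s : ℤ) : edge κ i j s i = κ - s := by
  simp [edge, hij]
omit [Fintype ι] in
lemma edge_j {i j : ι} (hij : i ≠ j) (s : ℤ) : edge κ i j s j = s := by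
  simp [edge, hij.symm]
omit [Fintype ι] in
lemma edge_k {i j k : ι} (hki : k ≠ i) (hkj : k ≠ j) (s : ℤ) : edge κ i j s k = 0 := by
  simp [edge, hki, hkj]
omit [Fintype ι] in
lemma edge_st (i j : ι) (s : ℤ) : st (edge κ i j s) j = st (edge κ i j (s + 1)) i := by
  simp only [st, edge]
  have e1 : (Pi.single i (κ - s) : ι → ℤ) = Pi.single i (κ - (s + 1)) + Pi.single i 1 := by
    rw [← Pi.single_add]; congr 1; ring
  have e2 : (Pi.single j (s + 1) : ι → ℤ) = Pi.single j s + Pi.single j 1 := by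
    rw [← Pi.single_add]
  rw [e1, e2]; abel
omit [Fintype ι] in
lemma edge_symm (i j : ι) (s : ℤ) : edge κ i j s = edge κ j i (κ - s) := by
  simp only [edge]; rw [add_comm]; congr 2; ring
omit [Fintype ι] in
lemma edge_zero (i j : ι) : edge κ i j 0 = Pi.single i κ := by simp [edge]

namespace E4

lemma T_nonneg (h : E4 S P N κ) {x : ι → ℤ} (hx : x ∈ Tt S P N) : ∀ i ∈ S, 0 ≤ x i := by
  intro i hi
  obtain ⟨y, hy, j, hj, rfl⟩ := mem_up.1 (mem_Tt.1 hx).1
  exact (h.no_export y hy i hi).trans (le_st y j i)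

lemma cornerT (h : E4 S P N κ) {w : ι} (hw : w ∈ S) : Pi.single w (κ + 1) ∈ Tt S P N := by
  obtain ⟨τ, hτ, hp⟩ := h.ex w hw
  rw [← h.pure_eq h.D0 h.no_export hw hτ hp]
  exact Th_of_D h.D0 hτ

lemma cornerP (h : E4 S P N κ) {w : ι} (hw : w ∈ S) : Pi.single w κ ∈ P := by
  obtain ⟨ρ, hρ, m, hm, hme⟩ := mem_up.1 (mem_Tt.1 (h.cornerT hw)).1
  by_cases hmw : m = w
  · subst hmw
    have : ρ = Pi.single m κ := by
      have e1 : st (Pi.single m κ : ι → ℤ) m = Pi.single m (κ + 1) := by
        simp only [st]; rw [← Pi.single_add]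
      exact st_inj (hme.trans e1.symm)
    rw [← this]; exact hρ
  · exfalso
    have h1 := congrFun hme m
    rw [st_same, Pi.single_eq_of_ne hmw] at h1
    have := h.no_export ρ hρ m hm
    omega

lemma kpos (h : E4 S P N κ) : 1 ≤ κ := by
  have hκ := h.kappa_nonneg
  by_contra hlt
  have h0 : κ = 0 := by omega
  subst h0
  obtain ⟨x, hx⟩ := h.ne
  obtain ⟨w, hw⟩ : S.Nonempty := Finset.card_pos.1 (by rw [h.c4]; norm_num)
  have hP := h.cornerP hw
  have h1 := h.sumN x hx
  rw [Finset.sum_eq_zero_iff_of_nonneg (fun l hl => h.nonneg x hx l hl)] at h1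
  have : x = Pi.single w 0 := ext_on (S := S) (h.outN x hx) (fun _ _ => by simp)
    (fun l hl => by rw [h1 l hl]; simp)
  exact h.disj _ hP (this ▸ hx)

lemma edge_chain (h : E4 S P N κ) {i j : ι} (hi : i ∈ S) (hj : j ∈ S) (m : ℕ)
    (hno : ∀ s : ℕ, s < m → st (edge κ i j s) j ∉ Tt S P N) :
    ∀ s : ℕ, s ≤ m → (Even s → edge κ i j s ∈ P) ∧ (Odd s → edge κ i j s ∈ N) := by
  intro s
  induction s with
  | zero =>
    intro _
    refine ⟨fun _ => ?_, fun h => by simp at h⟩
    rw [Nat.cast_zero, edge_zero]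
    exact h.cornerP hi
  | succ s ih =>
    intro hs
    obtain ⟨ihP, ihN⟩ := ih (by omega)
    have hnT := hno s (by omega)
    have hst := edge_st (κ := κ) i j s
    have hst' : ∀ {k : ι}, k ≠ i → k ≠ j → st (edge κ i j s) j k = 0 := by
      intro k hki hkj
      rw [st_ne _ hkj, edge_k hki hkj]
    push_cast
    constructor
    · intro hpar
      have hso : Odd s := by
        rcases Nat.even_or_odd s with h | h
        · exfalso; exact (Nat.not_even_iff_odd.2 h.add_one) hpar
        · exact h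
      have hN := ihN hso
      obtain ⟨ρ, hρ, l, hl, hle⟩ := mem_up.1 (h.cov (st_mem_up hN hj))
      by_cases hlj : l = j
      · subst hlj
        exact absurd ((st_inj hle) ▸ hN) (h.disj ρ hρ)
      · by_cases hli : l = i
        · subst hli
          rw [hst] at hle
          rw [← st_inj hle]; exact hρ
        · exfalso
          have h1 := congrFun hle l
          rw [st_same, hst' hli hlj] at h1
          have := h.no_export ρ hρ l hl
          omega
    · intro hpar
      have hse : Even s := by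
        rcases Nat.even_or_odd s with h | h
        · exact h
        · exfalso; exact (Nat.not_even_iff_odd.2 hpar) h.add_one
      have hP := ihP hse
      have hu : st (edge κ i j s) j ∈ up S N := by
        by_contra hcon
        exact hnT (mem_Tt.2 ⟨st_mem_up hP hj, hcon⟩)
      obtain ⟨α, hα, l, hl, hle⟩ := mem_up.1 hu
      by_cases hlj : l = j
      · subst hlj
        exact absurd ((st_inj hle) ▸ hα) (h.disj _ hP)
      · by_cases hli : l = i
        · subst hli
          rw [hst] at hle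
          rw [← st_inj hle]; exact hα
        · exfalso
          have h1 := congrFun hle l
          rw [st_same, hst' hli hlj] at h1
          have := h.nonneg α hα l hl
          omega

lemma even_kappa (h : E4 S P N κ) : Even κ := by
  rw [← Int.not_odd_iff_even]
  intro hodd
  have hκ := h.kpos
  have key : ∀ i ∈ S, ∀ j ∈ S, i ≠ j → ∃ τ ∈ Tt S P N, 1 ≤ τ i ∧ 1 ≤ τ j := by
    intro i hi j hj hij
    by_contra hcon
    push Not at hcon
    have hk : ((κ.toNat : ℕ) : ℤ) = κ := Int.toNat_of_nonneg (by omega)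
    have := (h.edge_chain hi hj κ.toNat (by
      intro s hs hmem
      have h1 := hcon _ hmem (by
        rw [st_ne _ hij, edge_i hij]; omega)
      rw [st_same, edge_j hij] at h1
      omega) κ.toNat le_rfl).2 (by
        obtain ⟨r, hr⟩ := hodd
        exact ⟨r.toNat, by omega⟩)
    rw [hk, edge_symm, sub_self, edge_zero] at this
    exact h.disj _ (h.cornerP hj) this
  obtain ⟨a, b, c, d, hab, hac, had, hbc, hbd, hcd, hS⟩ : ∃ a b c d : ι, a ≠ b ∧ a ≠ c ∧ a ≠ d ∧
      b ≠ c ∧ b ≠ d ∧ c ≠ d ∧ S = {a, b, c, d} := Finset.card_eq_four.1 h.c4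
  have ha : a ∈ S := by rw [hS]; simp
  have hb : b ∈ S := by rw [hS]; simp
  have hc : c ∈ S := by rw [hS]; simp
  have hd : d ∈ S := by rw [hS]; simp
  obtain ⟨τ1, h1, h1a, h1b⟩ := key a ha b hb hab
  obtain ⟨τ2, h2, h2a, h2c⟩ := key a ha c hc hac
  obtain ⟨τ3, h3, h3a, h3d⟩ := key a ha d hd had
  have hcor := h.cornerT ha
  have e12 : τ1 ≠ τ2 := by
    rintro rfl
    exact h.two _ (T_sub_Th h1) a ha b hb c hc hab hac hbc h1a h1b h2c
  have e13 : τ1 ≠ τ3 := by
    rintro rfl
    exact h.two _ (T_sub_Th h1) a ha b hb d hd hab had hbd h1a h1b h3d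
  have e23 : τ2 ≠ τ3 := by
    rintro rfl
    exact h.two _ (T_sub_Th h2) a ha c hc d hd hac had hcd h2a h2c h3d
  have f1 : (Pi.single a (κ + 1) : ι → ℤ) ≠ τ1 := by
    rintro rfl; rw [Pi.single_eq_of_ne hab.symm] at h1b; omega
  have f2 : (Pi.single a (κ + 1) : ι → ℤ) ≠ τ2 := by
    rintro rfl; rw [Pi.single_eq_of_ne hac.symm] at h2c; omega
  have f3 : (Pi.single a (κ + 1) : ι → ℤ) ≠ τ3 := by
    rintro rfl; rw [Pi.single_eq_of_ne had.symm] at h3d; omega
  have := four_le_card (X := UU S P N a) (mem_UU.2 ⟨T_sub_Th h1, h1a⟩)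
    (mem_UU.2 ⟨T_sub_Th h2, h2a⟩) (mem_UU.2 ⟨T_sub_Th h3, h3a⟩)
    (mem_UU.2 ⟨T_sub_Th hcor, by rw [Pi.single_eq_same]; omega⟩) e12 e13 e23 f1 f2 f3
  rw [h.U3 a ha] at this
  omega

/-- no edge carries exactly one mixed term -/
lemma edge_one (h : E4 S P N κ) {i j : ι} (hi : i ∈ S) (hj : j ∈ S) (hij : i ≠ j) {τ : ι → ℤ}
    (hτ : τ ∈ Tt S P N) (h1 : 1 ≤ τ i) (h2 : 1 ≤ τ j) :
    ∃ σ ∈ Tt S P N, 1 ≤ σ i ∧ 1 ≤ σ j ∧ σ ≠ τ := by
  by_contra hcon
  push Not at hcon
  have hκ := h.kpos
  -- `τ` lies on the edge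
  have hτ0 : ∀ k, k ≠ i → k ≠ j → τ k = 0 := by
    intro k hki hkj
    by_cases hk : k ∈ S
    · have := h.T_nonneg hτ k hk
      by_contra hne
      exact h.two τ (T_sub_Th hτ) i hi j hj k hk hij (fun h => hki h.symm) (fun h => hkj h.symm)
        h1 h2 (by omega)
    · exact h.outT τ hτ k hk
  have hsum : τ i + τ j = κ + 1 := by
    rw [← h.sumT τ hτ, ← Finset.add_sum_erase S _ hi,
      ← Finset.add_sum_erase (S.erase i) _ (Finset.mem_erase.2 ⟨hij.symm, hj⟩),
      Finset.sum_eq_zero]
    · ring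
    · intro k hk
      rw [Finset.mem_erase, Finset.mem_erase] at hk
      exact hτ0 k hk.2.1 hk.1
  -- chain from the `i`-corner
  have hτeq : τ = st (edge κ i j (κ - τ i)) j := by
    funext k
    by_cases hki : k = i
    · subst hki; rw [st_ne _ hij, edge_i hij]; ring
    · by_cases hkj : k = j
      · subst hkj; rw [st_same, edge_j hij]; omega
      · rw [st_ne _ hkj, edge_k hki hkj, hτ0 k hki hkj]
  have hτeq' : τ = st (edge κ j i (κ - τ j)) i := by
    funext k
    by_cases hki : k = i
    · subst hki; rw [st_same, edge_j hij.symm]; omega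
    · by_cases hkj : k = j
      · subst hkj; rw [st_ne _ hij.symm, edge_i hij.symm]; ring
      · rw [st_ne _ hki, edge_k hkj hki, hτ0 k hki hkj]
  have hm1 : (((κ - τ i).toNat : ℕ) : ℤ) = κ - τ i := Int.toNat_of_nonneg (by omega)
  have hm2 : (((κ - τ j).toNat : ℕ) : ℤ) = κ - τ j := Int.toNat_of_nonneg (by omega)
  have c1 := h.edge_chain hi hj (κ - τ i).toNat (by
    intro s hs hmem
    have h3 := hcon _ hmem (by rw [st_ne _ hij, edge_i hij]; omega)
      (by rw [st_same, edge_j hij]; omega)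
    have := congrFun h3 i
    rw [st_ne _ hij, edge_i hij] at this
    omega) (κ - τ i).toNat le_rfl
  have c2 := h.edge_chain hj hi (κ - τ j).toNat (by
    intro s hs hmem
    have h3 := hcon _ hmem (by rw [st_same, edge_j hij.symm]; omega)
      (by rw [st_ne _ hij.symm, edge_i hij.symm]; omega)
    have := congrFun h3 j
    rw [st_ne _ hij.symm, edge_i hij.symm] at this
    omega) (κ - τ j).toNat le_rfl
  rw [hm1] at c1
  rw [hm2] at c2
  have hnu := (mem_Tt.1 hτ).2
  have hev := h.even_kappa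
  have g1 : Even (κ - τ i).toNat := by
    rw [← Nat.not_odd_iff_even]
    intro ho
    exact hnu (hτeq ▸ st_mem_up (c1.2 ho) hj)
  have g2 : Even (κ - τ j).toNat := by
    rw [← Nat.not_odd_iff_even]
    intro ho
    exact hnu (hτeq' ▸ st_mem_up (c2.2 ho) hi)
  obtain ⟨r, hr⟩ := hev
  obtain ⟨r1, hr1⟩ := g1
  obtain ⟨r2, hr2⟩ := g2
  omega

/-- every direction has a partner -/
lemma partner (h : E4 S P N κ) {i : ι} (hi : i ∈ S) : ∃ j ∈ S, j ≠ i ∧
    ∀ x ∈ UU S P N i, x ≠ Pi.single i (κ + 1) → 1 ≤ x j := by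
  have hκ := h.kpos
  have hc : (Pi.single i (κ + 1) : ι → ℤ) ∈ UU S P N i :=
    mem_UU.2 ⟨T_sub_Th (h.cornerT hi), by rw [Pi.single_eq_same]; omega⟩
  have h2 : ((UU S P N i).erase (Pi.single i (κ + 1))).card = 2 := by
    rw [Finset.card_erase_of_mem hc, h.U3 i hi]
  obtain ⟨x, y, hxy, he⟩ := Finset.card_eq_two.1 h2
  have hx : x ∈ (UU S P N i).erase (Pi.single i (κ + 1)) := by rw [he]; simp
  rw [Finset.mem_erase, mem_UU] at hx
  have hxn : ¬ Pure S i x := by
    intro hp
    exact hx.1 (h.pure_eq h.D0 h.no_export hi hx.2.1 hp)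
  unfold Pure at hxn
  push Not at hxn
  obtain ⟨j, hj, hji, hxj⟩ := hxn
  refine ⟨j, hj, hji, ?_⟩
  intro z hz hzne
  have hz' : z ∈ (UU S P N i).erase (Pi.single i (κ + 1)) := Finset.mem_erase.2 ⟨hzne, hz⟩
  rw [he, Finset.mem_insert, Finset.mem_singleton] at hz'
  rcases hz' with rfl | rfl
  · omega
  · obtain ⟨σ, hσ, hσi, hσj, hσx⟩ := h.edge_one hi hj hji.symm (Th_of_D h.D0 hx.2.1) hx.2.2
      (by omega)
    have hσ' : σ ∈ (UU S P N i).erase (Pi.single i (κ + 1)) := by
      refine Finset.mem_erase.2 ⟨?_, mem_UU.2 ⟨T_sub_Th hσ, hσi⟩⟩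
      rintro rfl
      rw [Pi.single_eq_of_ne hji] at hσj
      omega
    rw [he, Finset.mem_insert, Finset.mem_singleton] at hσ'
    rcases hσ' with rfl | rfl
    · exact absurd rfl hσx
    · exact hσj

/-- the cone below a corner -/
lemma cone (h : E4 S P N κ) {i p : ι} (hi : i ∈ S) (hpi : p ≠ i)
    (hpart : ∀ x ∈ UU S P N i, x ≠ Pi.single i (κ + 1) → 1 ≤ x p) (n : ℕ) :
    ∀ x : ι → ℤ, (∀ k ∈ S, 0 ≤ x k) → (∀ k ∉ S, x k = 0) → ∑ k ∈ S, x k = κ → x p = 0 →
      κ - x i = n → (Even n → x ∈ P) ∧ (Odd n → x ∈ N) := by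
  have hκ := h.kpos
  induction n with
  | zero =>
    intro x hx0 hxo hxs hxp hxi
    refine ⟨fun _ => ?_, fun h => by simp at h⟩
    have : x = Pi.single i κ := by
      apply ext_on hxo
      · intro k hk
        rw [Pi.single_eq_of_ne (by rintro rfl; exact hk hi)]
      · intro k hk
        by_cases hki : k = i
        · subst hki; rw [Pi.single_eq_same]; push_cast at hxi; omega
        · rw [Pi.single_eq_of_ne hki]
          rw [← Finset.add_sum_erase S _ hi] at hxs
          have h1 := Finset.single_le_sum (f := fun l => x l) (s := S.erase i)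
            (fun l hl => hx0 l (Finset.mem_erase.1 hl).2) (Finset.mem_erase.2 ⟨hki, hk⟩)
          have h2 := hx0 k hk
          push_cast at hxi
          omega
    rw [this]; exact h.cornerP hi
  | succ n ih =>
    intro x hx0 hxo hxs hxp hxi
    push_cast at hxi
    have hm : ∃ m ∈ S, m ≠ i ∧ 1 ≤ x m := by
      by_contra hcon
      push Not at hcon
      rw [← Finset.add_sum_erase S _ hi] at hxs
      have : ∑ k ∈ S.erase i, x k ≤ 0 := Finset.sum_nonpos (fun k hk => by
        have := hcon k (Finset.mem_erase.1 hk).2 (Finset.mem_erase.1 hk).1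
        omega)
      omega
    obtain ⟨m, hm, hmi, hxm⟩ := hm
    have hmp : m ≠ p := by rintro rfl; omega
    have hip : i ≠ p := fun h => hpi h.symm
    let y : ι → ℤ := fun k => x k + (if k = i then 1 else 0) - (if k = m then 1 else 0)
    have hyi : y i = x i + 1 := by simp [y, hmi.symm]
    have hym : y m = x m - 1 := by simp [y, hmi]
    have hyk : ∀ k, k ≠ i → k ≠ m → y k = x k := by intro k h1 h2; simp [y, h1, h2]
    have hst : st y m = st x i := by
      funext k
      rw [st_apply, st_apply]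
      simp only [y]; ring
    have hy0 : ∀ k ∈ S, 0 ≤ y k := by
      intro k hk
      by_cases h1 : k = i
      · subst h1; rw [hyi]; have := hx0 k hk; omega
      · by_cases h2 : k = m
        · subst h2; rw [hym]; omega
        · rw [hyk k h1 h2]; exact hx0 k hk
    have hyo : ∀ k ∉ S, y k = 0 := by
      intro k hk
      rw [hyk k (by rintro rfl; exact hk hi) (by rintro rfl; exact hk hm)]
      exact hxo k hk
    have hys : ∑ k ∈ S, y k = κ := by
      have e1 := sum_st hm y
      rw [hst, sum_st hi, hxs] at e1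
      omega
    have hyp : y p = 0 := by rw [hyk p hip.symm hmp.symm]; exact hxp
    have hIy := ih y hy0 hyo hys hyp (by rw [hyi]; omega)
    -- the common upper neighbour is not a term
    have hβi : st x i i = x i + 1 := st_same _ _
    have hβp : st x i p = 0 := by rw [st_ne _ hip.symm, hxp]
    have hβm : st x i m = x m := st_ne _ hmi
    have hβT : st x i ∉ Tt S P N := by
      intro hmem
      have hU : st x i ∈ UU S P N i := mem_UU.2 ⟨T_sub_Th hmem, by
        rw [hβi]; have := hx0 i hi; omega⟩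
      have := hpart _ hU (by
        intro he
        have h1 := congrFun he m
        rw [hβm, Pi.single_eq_of_ne hmi] at h1
        omega)
      omega
    constructor
    · intro hpar
      have hno : Odd n := by
        rcases Nat.even_or_odd n with h | h
        · exfalso; exact (Nat.not_even_iff_odd.2 h.add_one) hpar
        · exact h
      have hyN := hIy.2 hno
      have hu : st x i ∈ up S P := h.cov (hst ▸ st_mem_up hyN hm)
      obtain ⟨ρ, hρ, l, hl, hle⟩ := mem_up.1 hu
      by_cases hli : l = i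
      · subst hli; rw [← st_inj hle]; exact hρ
      · exfalso
        have hρ0 := h.no_export ρ hρ
        have hlp : l ≠ p := by
          rintro rfl
          have := congrFun hle l
          rw [st_same, hβp] at this
          have := hρ0 l hl
          omega
        have hρp : ρ p = 0 := by
          have := congrFun hle p
          rwa [st_ne ρ hlp.symm, hβp] at this
        have hρi : ρ i = x i + 1 := by
          have := congrFun hle i
          rwa [st_ne ρ (fun h => hli h.symm), hβi] at this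
        exact h.disj ρ hρ ((ih ρ hρ0 (h.outP ρ hρ) (h.sumP ρ hρ) hρp (by rw [hρi]; omega)).2 hno)
    · intro hpar
      have hne : Even n := by
        rcases Nat.even_or_odd n with h | h
        · exact h
        · exfalso; exact (Nat.not_even_iff_odd.2 hpar) h.add_one
      have hyP := hIy.1 hne
      have hu : st x i ∈ up S N := by
        by_contra hcon
        exact hβT (mem_Tt.2 ⟨hst ▸ st_mem_up hyP hm, hcon⟩)
      obtain ⟨α, hα, l, hl, hle⟩ := mem_up.1 hu
      by_cases hli : l = i
      · subst hli; rw [← st_inj hle]; exact hα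
      · exfalso
        have hα0 := h.nonneg α hα
        have hlp : l ≠ p := by
          rintro rfl
          have := congrFun hle l
          rw [st_same, hβp] at this
          have := hα0 l hl
          omega
        have hαp : α p = 0 := by
          have := congrFun hle p
          rwa [st_ne α hlp.symm, hβp] at this
        have hαi : α i = x i + 1 := by
          have := congrFun hle i
          rwa [st_ne α (fun h => hli h.symm), hβi] at this
        exact h.disj α ((ih α hα0 (h.outN α hα) (h.sumN α hα) hαp (by rw [hαi]; omega)).1 hne) hα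

/-- the extremal configuration in four variables -/
lemma classify (h : E4 S P N κ) : κ = 2 ∧ ∃ a b c d : ι, a ≠ b ∧ a ≠ c ∧ a ≠ d ∧ b ≠ c ∧ b ≠ d ∧
    c ≠ d ∧ S = {a, b, c, d} ∧ ∀ x : ι → ℤ, (∀ k ∈ S, 0 ≤ x k) → (∀ k ∉ S, x k = 0) →
      ∑ k ∈ S, x k = 2 → (x a + x b = 1 → x ∈ N) ∧ (x a + x b ≠ 1 → x ∈ P) := by
  have hκ := h.kpos
  have hev := h.even_kappa
  -- partners
  choose! pt hpt1 hpt2 hpt3 using fun i (hi : i ∈ S) => h.partner hi
  have hc : ∀ i ∈ S, (Pi.single i (κ + 1) : ι → ℤ) ∈ UU S P N i := fun i hi =>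
    mem_UU.2 ⟨T_sub_Th (h.cornerT hi), by rw [Pi.single_eq_same]; omega⟩
  have herase : ∀ i ∈ S, ((UU S P N i).erase (Pi.single i (κ + 1))).card = 2 := fun i hi => by
    rw [Finset.card_erase_of_mem (hc i hi), h.U3 i hi]
  -- the partner relation is symmetric
  have hsub : ∀ i ∈ S, (UU S P N i).erase (Pi.single i (κ + 1)) ⊆
      (UU S P N (pt i)).erase (Pi.single (pt i) (κ + 1)) := by
    intro i hi x hx
    rw [Finset.mem_erase, mem_UU] at hx
    refine Finset.mem_erase.2 ⟨?_, mem_UU.2 ⟨hx.2.1, hpt3 i hi x (mem_UU.2 hx.2) hx.1⟩⟩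
    rintro rfl
    have := hx.2.2
    rw [Pi.single_eq_of_ne (hpt2 i hi).symm] at this
    omega
  have heq : ∀ i ∈ S, (UU S P N i).erase (Pi.single i (κ + 1)) =
      (UU S P N (pt i)).erase (Pi.single (pt i) (κ + 1)) := fun i hi =>
    Finset.eq_of_subset_of_card_le (hsub i hi) (by rw [herase i hi, herase _ (hpt1 i hi)])
  have hsym : ∀ i ∈ S, ∀ x ∈ UU S P N (pt i), x ≠ Pi.single (pt i) (κ + 1) → 1 ≤ x i := by
    intro i hi x hx hxne
    have : x ∈ (UU S P N i).erase (Pi.single i (κ + 1)) := by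
      rw [heq i hi]; exact Finset.mem_erase.2 ⟨hxne, hx⟩
    rw [Finset.mem_erase, mem_UU] at this
    exact this.2.2
  obtain ⟨a, ha⟩ : S.Nonempty := Finset.card_pos.1 (by rw [h.c4]; norm_num)
  have hb := hpt1 a ha
  have hba := hpt2 a ha
  have hpa := hpt3 a ha
  have hpb := hsym a ha
  set b := pt a with hbdef
  obtain ⟨c, d, hcS, hdS, hca, hda, hcb, hdb, hcd, hall⟩ := others4 h.c4 ha hb hba
  -- the partner of `c` is `d`
  have hptc : pt c = d := by
    obtain ⟨x, hx⟩ : ((UU S P N c).erase (Pi.single c (κ + 1))).Nonempty :=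
      Finset.card_pos.1 (by rw [herase c hcS]; norm_num)
    have hx' := hx
    rw [Finset.mem_erase, mem_UU] at hx'
    have hxp := hpt3 c hcS x (mem_UU.2 hx'.2) hx'.1
    have hne := hpt2 c hcS
    rcases hall _ (hpt1 c hcS) with e | e | e | e
    · exfalso
      rw [e] at hxp
      have h1 : 1 ≤ x b := hpa x (mem_UU.2 ⟨hx'.2.1, hxp⟩) (by
        rintro rfl
        have := hx'.2.2
        rw [Pi.single_eq_of_ne hca] at this
        omega)
      exact h.two x hx'.2.1 a ha b hb c hcS hba.symm hca.symm hcb.symm hxp h1 hx'.2.2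
    · exfalso
      rw [e] at hxp
      have h1 : 1 ≤ x a := hpb x (mem_UU.2 ⟨hx'.2.1, hxp⟩) (by
        rintro rfl
        have := hx'.2.2
        rw [Pi.single_eq_of_ne hcb] at this
        omega)
      exact h.two x hx'.2.1 a ha b hb c hcS hba.symm hca.symm hcb.symm h1 hxp hx'.2.2
    · exact absurd e hne
    · exact e
  have hpc := hpt3 c hcS
  have hpd := hsym c hcS
  rw [hptc] at hpc hpd
  have hab := hba.symm
  have hS' : S = {a, b, c, d} := by
    ext m
    simp only [Finset.mem_insert, Finset.mem_singleton]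
    constructor
    · exact hall m
    · rintro (rfl | rfl | rfl | rfl) <;> assumption
  have hsum4 : ∀ x : ι → ℤ, ∑ k ∈ S, x k = x a + (x b + (x c + x d)) := by
    intro x
    rw [hS', Finset.sum_insert, Finset.sum_insert, Finset.sum_pair hcd]
    · simp only [Finset.mem_insert, Finset.mem_singleton, not_or]
      exact ⟨hcb.symm, hdb.symm⟩
    · simp only [Finset.mem_insert, Finset.mem_singleton, not_or]
      exact ⟨hab, hca.symm, hda.symm⟩
  have hcone : ∀ i ∈ S, ∀ p, p ≠ i → (∀ x ∈ UU S P N i, x ≠ Pi.single i (κ + 1) → 1 ≤ x p) →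
      ∀ x : ι → ℤ, (∀ k ∈ S, 0 ≤ x k) → (∀ k ∉ S, x k = 0) → ∑ k ∈ S, x k = κ → x p = 0 →
      (Even (κ - x i) → x ∈ P) ∧ (Odd (κ - x i) → x ∈ N) := by
    intro i hi p hpi hpart x hx0 hxo hxs hxp
    have hle : x i ≤ κ := by
      rw [← hxs]
      exact Finset.single_le_sum (f := fun l => x l) (fun l hl => hx0 l hl) hi
    have hn : (((κ - x i).toNat : ℕ) : ℤ) = κ - x i := Int.toNat_of_nonneg (by omega)
    obtain ⟨h1, h2⟩ := h.cone hi hpi hpart (κ - x i).toNat x hx0 hxo hxs hxp hn.symm
    constructor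
    · rintro ⟨r, hr⟩
      exact h1 ⟨r.toNat, by omega⟩
    · rintro ⟨r, hr⟩
      exact h2 ⟨r.toNat, by omega⟩
  have hκ2 : κ = 2 := by
    by_contra hne
    have hκ4 : 3 ≤ κ := by
      obtain ⟨r, hr⟩ := hev
      omega
    -- the edge `{c, d}` is full
    have hedge : ∀ s : ℤ, 0 ≤ s → s ≤ κ → edge κ c d s ∈ P := by
      intro s h0 h1
      refine (hcone a ha b hba hpa (edge κ c d s) ?_ ?_ ?_ ?_).1 ?_
      · intro k hk
        rcases hall k hk with rfl | rfl | rfl | rfl
        · rw [edge_k hca.symm hda.symm]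
        · rw [edge_k hcb.symm hdb.symm]
        · rw [edge_i hcd]; omega
        · rw [edge_j hcd]; exact h0
      · intro k hk
        rw [edge_k (by rintro rfl; exact hk hcS) (by rintro rfl; exact hk hdS)]
      · rw [hsum4, edge_k hca.symm hda.symm, edge_k hcb.symm hdb.symm, edge_i hcd, edge_j hcd]
        ring
      · rw [edge_k hcb.symm hdb.symm]
      · rw [edge_k hca.symm hda.symm, sub_zero]; exact hev
    have hT : ∀ s : ℤ, 0 ≤ s → s < κ → st (edge κ c d s) d ∈ Tt S P N := by
      intro s h0 h1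
      refine mem_Tt.2 ⟨st_mem_up (hedge s h0 h1.le) hdS, ?_⟩
      intro hu
      obtain ⟨α, hα, l, hl, hle⟩ := mem_up.1 hu
      have hz : ∀ k, k ≠ c → k ≠ d → st (edge κ c d s) d k = 0 := by
        intro k hkc hkd
        rw [st_ne _ hkd, edge_k hkc hkd]
      rcases hall l hl with rfl | rfl | rfl | rfl
      · have h2 := congrFun hle l
        rw [st_same, hz l hca.symm hda.symm] at h2
        have := h.nonneg α hα l hl; omega
      · have h2 := congrFun hle b
        rw [st_same, hz b hcb.symm hdb.symm] at h2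
        have := h.nonneg α hα b hl; omega
      · rw [edge_st] at hle
        exact h.disj _ (hedge (s + 1) (by omega) (by omega)) (st_inj hle ▸ hα)
      · exact h.disj _ (hedge s h0 h1.le) (st_inj hle ▸ hα)
    have e0 := hT 0 le_rfl (by omega)
    have e1 := hT 1 (by norm_num) (by omega)
    have e2 := hT 2 (by norm_num) (by omega)
    have v : ∀ s, st (edge κ c d s) d c = κ - s := fun s => by rw [st_ne _ hcd, edge_i hcd]
    have w : ∀ s, st (edge κ c d s) d d = s + 1 := fun s => by rw [st_same, edge_j hcd]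
    have hne' : ∀ s t : ℤ, s ≠ t → st (edge κ c d s) d ≠ st (edge κ c d t) d := by
      intro s t hst he
      have := congrFun he d
      rw [w, w] at this
      omega
    have hcf : ∀ s, 0 ≤ s → (Pi.single c (κ + 1) : ι → ℤ) ≠ st (edge κ c d s) d := by
      intro s hs he
      have := congrFun he d
      rw [w, Pi.single_eq_of_ne hcd.symm] at this
      omega
    have := four_le_card (X := UU S P N c)
      (mem_UU.2 ⟨T_sub_Th e0, by rw [v]; omega⟩) (mem_UU.2 ⟨T_sub_Th e1, by rw [v]; omega⟩)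
      (mem_UU.2 ⟨T_sub_Th e2, by rw [v]; omega⟩) (hc c hcS)
      (hne' 0 1 (by norm_num)) (hne' 0 2 (by norm_num)) (hne' 1 2 (by norm_num))
      (hcf 0 le_rfl) (hcf 1 (by norm_num)) (hcf 2 (by norm_num))
    rw [h.U3 c hcS] at this
    omega
  refine ⟨hκ2, a, b, c, d, hab, hca.symm, hda.symm, hcb.symm, hdb.symm, hcd, hS', ?_⟩
  intro x hx0 hxo hxs
  rw [hκ2] at hcone
  have hs := hsum4 x
  rw [hxs] at hs
  have xa := hx0 a ha
  have xb := hx0 b hb
  have xc := hx0 c hcS
  have xd := hx0 d hdS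
  by_cases h1 : x b = 0
  · obtain ⟨c1, c2⟩ := hcone a ha b hba (by rw [← hκ2]; exact hpa) x hx0 hxo hxs h1
    constructor
    · intro h2; exact c2 ⟨0, by omega⟩
    · intro h2
      apply c1
      rcases (by omega : x a = 0 ∨ x a = 2) with h3 | h3
      · exact ⟨1, by omega⟩
      · exact ⟨0, by omega⟩
  · by_cases h2 : x a = 0
    · obtain ⟨c1, c2⟩ := hcone b hb a hab (by rw [← hκ2]; exact hpb) x hx0 hxo hxs h2
      constructor
      · intro h3; exact c2 ⟨0, by omega⟩
      · intro h3
        apply c1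
        exact ⟨0, by omega⟩
    · obtain ⟨c1, c2⟩ := hcone c hcS d hcd.symm (by rw [← hκ2]; exact hpc) x hx0 hxo hxs (by omega)
      constructor
      · intro h3; omega
      · intro h3
        apply c1
        exact ⟨1, by omega⟩

end E4

end Pool.Agent.W739.SOS
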