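import Pool.Agent.W739.SOS.Link

set_option autoImplicit false

namespace Pool.Agent.W739.SOS

open Finset

lemma bb_sum2 {n : ℕ} (s t : Finset (Fin n)) (f : Fin n → Fin n → (Fin n → ℕ)) (β : Fin n → ℕ) :
    bb (fun α => ∑ i ∈ s, ∑ j ∈ t, dl (f i j) α) β =
      ∑ i ∈ s, ∑ j ∈ t, ∑ k, dl (f i j + Pi.single k 1) β := by
  rw [bb_sum]
  apply Finset.sum_congr rfl
  intro i _
  rw [bb_sum]
  apply Finset.sum_congr rfl
  intro j _
  rw [bb_dl]

/-- the example in four variables -/
lemma example4 (d : ℕ) (hd : 2 ≤ d) : ∃ c : (Fin 4 → ℕ) → ℝ,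
    (∃ α ∈ Finset.Nat.antidiagonalTuple 4 d, c α < 0) ∧
    (∀ β, 0 ≤ bb c β) ∧
    ((Finset.Nat.antidiagonalTuple 4 (d + 1)).filter (fun β => bb c β ≠ 0)).card ≤ 8 := by
  classical
  let E : Fin 4 → (Fin 4 → ℕ) := fun i => Pi.single i 1
  let μ : Fin 4 → ℕ := Pi.single 0 (d - 2)
  let U : Finset (Fin 4) := {0, 1}
  let V : Finset (Fin 4) := {2, 3}
  let c : (Fin 4 → ℕ) → ℝ := fun α =>
    (∑ i ∈ U, ∑ j ∈ U, dl (μ + E i + E j) α + ∑ i ∈ V, ∑ j ∈ V, dl (μ + E i + E j) α) -
      ∑ i ∈ U, ∑ j ∈ V, dl (μ + E i + E j) α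
  have huniv : (Finset.univ : Finset (Fin 4)) = U ∪ V := by decide
  have hdisj : Disjoint U V := by decide
  have hbb : ∀ β, bb c β = ∑ i ∈ U, ∑ j ∈ U, ∑ k ∈ U, dl (μ + E i + E j + E k) β +
      ∑ i ∈ V, ∑ j ∈ V, ∑ k ∈ V, dl (μ + E i + E j + E k) β := by
    intro β
    simp only [c]
    rw [bb_sub, bb_add, bb_sum2, bb_sum2, bb_sum2]
    rw [huniv]
    simp only [Finset.sum_union hdisj, Finset.sum_add_distrib]
    have e1 : ∑ i ∈ U, ∑ j ∈ U, ∑ k ∈ V, dl (μ + E i + E j + Pi.single k 1) β =
        ∑ i ∈ U, ∑ j ∈ V, ∑ k ∈ U, dl (μ + E i + E j + Pi.single k 1) β := by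
      apply Finset.sum_congr rfl
      intro i _
      rw [Finset.sum_comm]
      apply Finset.sum_congr rfl
      intro j _
      apply Finset.sum_congr rfl
      intro k _
      congr 1
      simp only [E]; abel
    have e2 : ∑ i ∈ V, ∑ j ∈ V, ∑ k ∈ U, dl (μ + E i + E j + Pi.single k 1) β =
        ∑ i ∈ U, ∑ j ∈ V, ∑ k ∈ V, dl (μ + E i + E j + Pi.single k 1) β := by
      calc ∑ i ∈ V, ∑ j ∈ V, ∑ k ∈ U, dl (μ + E i + E j + Pi.single k 1) β
          = ∑ i ∈ V, ∑ k ∈ U, ∑ j ∈ V, dl (μ + E i + E j + Pi.single k 1) β := by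
            apply Finset.sum_congr rfl
            intro i _
            rw [Finset.sum_comm]
        _ = ∑ k ∈ U, ∑ i ∈ V, ∑ j ∈ V, dl (μ + E i + E j + Pi.single k 1) β := by
            rw [Finset.sum_comm]
        _ = _ := by
            apply Finset.sum_congr rfl
            intro k _
            apply Finset.sum_congr rfl
            intro i _
            apply Finset.sum_congr rfl
            intro j _
            congr 1
            simp only [E]; abel
    rw [e1, e2]
    simp only [E]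
    ring
  refine ⟨c, ?_, ?_, ?_⟩
  · refine ⟨μ + E 0 + E 2, ?_, ?_⟩
    · rw [Finset.Nat.mem_antidiagonalTuple]
      simp only [μ, E, Pi.add_apply, Finset.sum_add_distrib]
      simp
      omega
    · simp only [c]
      have z1 : ∑ i ∈ U, ∑ j ∈ U, dl (μ + E i + E j) (μ + E 0 + E 2) = 0 := by
        apply Finset.sum_eq_zero
        intro i hi
        apply Finset.sum_eq_zero
        intro j hj
        unfold dl
        rw [if_neg]
        intro h
        have h1 := congrFun h 2
        simp only [U, Finset.mem_insert, Finset.mem_singleton] at hi hj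
        rcases hi with rfl | rfl <;> rcases hj with rfl | rfl <;> simp [E, μ] at h1
      have z2 : ∑ i ∈ V, ∑ j ∈ V, dl (μ + E i + E j) (μ + E 0 + E 2) = 0 := by
        apply Finset.sum_eq_zero
        intro i hi
        apply Finset.sum_eq_zero
        intro j hj
        unfold dl
        rw [if_neg]
        intro h
        have h1 := congrFun h 0
        simp only [V, Finset.mem_insert, Finset.mem_singleton] at hi hj
        rcases hi with rfl | rfl <;> rcases hj with rfl | rfl <;> simp [E, μ] at h1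
      have z3 : 1 ≤ ∑ i ∈ U, ∑ j ∈ V, dl (μ + E i + E j) (μ + E 0 + E 2) := by
        have h1 : (1 : ℝ) = dl (μ + E 0 + E 2) (μ + E 0 + E 2) := by
          unfold dl; rw [if_pos rfl]
        rw [h1]
        have h2 : dl (μ + E 0 + E 2) (μ + E 0 + E 2) ≤
            ∑ j ∈ V, dl (μ + E 0 + E j) (μ + E 0 + E 2) :=
          Finset.single_le_sum (f := fun j => dl (μ + E 0 + E j) (μ + E 0 + E 2))
            (fun j _ => dl_nonneg _ _) (by decide : (2 : Fin 4) ∈ V)
        refine h2.trans ?_
        exact Finset.single_le_sum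
          (f := fun i => ∑ j ∈ V, dl (μ + E i + E j) (μ + E 0 + E 2))
          (fun i _ => Finset.sum_nonneg fun j _ => dl_nonneg _ _) (by decide : (0 : Fin 4) ∈ U)
      rw [z1, z2]
      linarith
  · intro β
    rw [hbb]
    refine add_nonneg
      (Finset.sum_nonneg fun i _ => Finset.sum_nonneg fun j _ => Finset.sum_nonneg fun k _ =>
        dl_nonneg _ _)
      (Finset.sum_nonneg fun i _ => Finset.sum_nonneg fun j _ => Finset.sum_nonneg fun k _ =>
        dl_nonneg _ _)
  · let g : Fin 4 → Fin 4 → Finset (Fin 4 → ℕ) := fun a b =>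
      {μ + E a + E a + E a, μ + E a + E a + E b, μ + E a + E b + E b, μ + E b + E b + E b}
    have hg : ∀ a b, (g a b).card ≤ 4 := by
      intro a b
      exact Finset.card_le_four
    have hmem : ∀ a b : Fin 4, ∀ i ∈ ({a, b} : Finset (Fin 4)), ∀ j ∈ ({a, b} : Finset (Fin 4)),
        ∀ k ∈ ({a, b} : Finset (Fin 4)), μ + E i + E j + E k ∈ g a b := by
      intro a b i hi j hj k hk
      have e1 : μ + E b + E a + E a = μ + E a + E a + E b := by abel
      have e2 : μ + E a + E b + E a = μ + E a + E a + E b := by abel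
      have e3 : μ + E b + E b + E a = μ + E a + E b + E b := by abel
      have e4 : μ + E b + E a + E b = μ + E a + E b + E b := by abel
      simp only [Finset.mem_insert, Finset.mem_singleton] at hi hj hk
      rcases hi with rfl | rfl <;> rcases hj with rfl | rfl <;> rcases hk with rfl | rfl <;>
        simp only [g, Finset.mem_insert, Finset.mem_singleton, e1, e2, e3, e4, true_or, or_true]
    have hsub : (Finset.Nat.antidiagonalTuple 4 (d + 1)).filter (fun β => bb c β ≠ 0) ⊆
        g 0 1 ∪ g 2 3 := by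
      intro β hβ
      obtain ⟨-, h2⟩ := Finset.mem_filter.1 hβ
      rw [hbb] at h2
      by_cases h3 : ∑ i ∈ V, ∑ j ∈ V, ∑ k ∈ V, dl (μ + E i + E j + E k) β = 0
      · rw [h3, add_zero] at h2
        obtain ⟨i, hi, h4⟩ := Finset.exists_ne_zero_of_sum_ne_zero h2
        obtain ⟨j, hj, h5⟩ := Finset.exists_ne_zero_of_sum_ne_zero h4
        obtain ⟨k, hk, h6⟩ := Finset.exists_ne_zero_of_sum_ne_zero h5
        rw [dl_ne h6]
        exact Finset.mem_union_left _ (hmem 0 1 i hi j hj k hk)
      · obtain ⟨i, hi, h4⟩ := Finset.exists_ne_zero_of_sum_ne_zero h3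
        obtain ⟨j, hj, h5⟩ := Finset.exists_ne_zero_of_sum_ne_zero h4
        obtain ⟨k, hk, h6⟩ := Finset.exists_ne_zero_of_sum_ne_zero h5
        rw [dl_ne h6]
        exact Finset.mem_union_right _ (hmem 2 3 i hi j hj k hk)
    refine (Finset.card_le_card hsub).trans ((Finset.card_union_le _ _).trans ?_)
    have := hg 0 1
    have := hg 2 3
    omega

/-- lower bound in all numbers of variables -/
lemma lower_all {n d : ℕ} (hn : 2 ≤ n) (c : (Fin n → ℕ) → ℝ)
    (hneg : ∃ α ∈ Finset.Nat.antidiagonalTuple n d, c α < 0)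
    (hnn : ∀ β ∈ Finset.Nat.antidiagonalTuple n (d + 1), 0 ≤ bb c β) :
    (if n = 4 then 8 else (n + 1).choose 2 - 1) ≤
      ((Finset.Nat.antidiagonalTuple n (d + 1)).filter (fun β => bb c β ≠ 0)).card := by
  obtain ⟨P, N, hC, hcard⟩ := lower_link c hneg hnn
  refine le_trans ?_ hcard
  have hu : (Finset.univ : Finset (Fin n)).card = n := by simp
  rcases (by omega : n = 2 ∨ n = 3 ∨ n = 4 ∨ 5 ≤ n) with h | h | h | h
  · rw [if_neg (by omega)]
    subst h
    exact lower2 hC hu
  · rw [if_neg (by omega)]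
    subst h
    exact lower3 hC hu
  · rw [if_pos h]
    exact lower4 hC (by rw [hu, h])
  · rw [if_neg (by omega)]
    exact lower n h Finset.univ P N d hC hu

end Pool.Agent.W739.SOS
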