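import Pool.Agent.W739.SOS.Five

set_option autoImplicit false

namespace Pool.Agent.W739.SOS

variable {ι : Type*} [Fintype ι] [DecidableEq ι]
variable {S : Finset ι} {P N : Finset (ι → ℤ)} {κ : ℤ}

omit [DecidableEq ι] in
lemma sh_zero (X : Finset (ι → ℤ)) [DecidableEq ι] : sh 0 X = X := by
  ext x; rw [mem_sh, sub_zero]

lemma nrm5 (h : Nrm S P N κ) (hS : S.card = 5) : 14 ≤ (Th S P N).card := by
  by_contra hF
  push Not at hF
  have hL : ∀ w ∈ S, 8 ≤ ((Th S P N).filter (fun τ => τ w ≤ 0)).card := by
    intro w hw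
    refine le_trans ?_ (h.slice_card hw)
    exact lower4 (h.slice hw) (by rw [Finset.card_erase_of_mem hw, hS])
  have hsplit := fun w => card_split (S := S) (P := P) (N := N) w
  have hU5 : ∀ w ∈ S, (UU S P N w).card ≤ 5 := by
    intro w hw
    have := hL w hw
    have := hsplit w
    omega
  -- a direction with a minimal slice
  have hex : ∃ w ∈ S, ((Th S P N).filter (fun τ => τ w ≤ 0)).card ≤ 8 := by
    by_contra hcon
    push Not at hcon
    have h1 : 45 ≤ ∑ w ∈ S, ((Th S P N).filter (fun τ => τ w ≤ 0)).card := by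
      calc 45 = ∑ w ∈ S, 9 := by rw [Finset.sum_const, hS]; rfl
        _ ≤ _ := Finset.sum_le_sum (fun w hw => hcon w hw)
    have h2 := h.avg
    rw [hS] at h2
    omega
  obtain ⟨w, hw, hw8⟩ := hex
  set P0 := P.filter (fun x => x w = 0) with hP0
  set N0 := N.filter (fun x => x w = 0) with hN0
  have hsl : Cfg (S.erase w) P0 N0 κ := h.slice hw
  have hc4 : (S.erase w).card = 4 := by rw [Finset.card_erase_of_mem hw, hS]
  have hsl8 : (Th (S.erase w) P0 N0).card ≤ 8 := (h.slice_card hw).trans hw8
  obtain ⟨P', hP', t, κ', ht, hDeq, hThsub, hNr⟩ := exists_nrm hsl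
  have hTh8 : (Th (S.erase w) (sh t P') (sh t N0)).card ≤ 8 := by
    rw [Th_sh, card_sh]
    exact (Finset.card_le_card hThsub).trans hsl8
  have hE := E4_of hNr hc4 hTh8
  have hTh8' : 8 ≤ (Th (S.erase w) P' N0).card := by
    have := lower4 hNr.toCfg hc4
    rwa [Th_sh, card_sh] at this
  have hTheq : Th (S.erase w) P' N0 = Th (S.erase w) P0 N0 :=
    Finset.eq_of_subset_of_card_le hThsub (hsl8.trans hTh8')
  have hD0 : Dd (S.erase w) P0 N0 = ∅ := by
    rw [← hDeq]
    have h1 := hE.D0
    rw [Dd_sh] at h1
    rw [Finset.eq_empty_iff_forall_notMem]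
    intro x hx
    have h2 : x + t ∈ sh t (Dd (S.erase w) P' N0) := mem_sh.2 (by simpa using hx)
    rw [h1] at h2
    simp at h2
  -- the translation is trivial
  have ht0 : t = 0 := by
    funext i
    by_cases hi : i ∈ S.erase w
    · obtain ⟨x, hx, hxi⟩ := hNr.touch i hi
      have h1 := (Finset.mem_filter.1 (mem_sh.1 hx)).1
      have h2 := h.nonneg _ h1 i (Finset.mem_erase.1 hi).2
      rw [Pi.sub_apply, hxi] at h2
      by_contra hne
      have hneg : t i < 0 := by
        have : t i ≠ 0 := hne
        omega
      have hsub : Th (S.erase w) P' N0 ⊆ UU S P N i := by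
        intro z hz
        have hz' : z + t ∈ Th (S.erase w) (sh t P') (sh t N0) := by
          rw [Th_sh, mem_sh]; simpa using hz
        have h3 := hE.T_nonneg (Th_of_D hE.D0 hz') i hi
        rw [Pi.add_apply] at h3
        rw [hTheq] at hz
        have h4 := slice_T (fun x hx => h.nonneg x hx w hw) (Th_of_D hD0 hz)
        exact mem_UU.2 ⟨T_sub_Th h4, by omega⟩
      have h5 := Finset.card_le_card hsub
      have h6 := hU5 i (Finset.mem_erase.1 hi).2
      omega
    · rw [ht i hi]; rfl
  subst ht0
  rw [sh_zero, sh_zero] at hE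
  obtain ⟨hκ', a, b, c, d, hab, hac, had, hbc, hbd, hcd, hS4, hquad⟩ := hE.classify
  have ha : a ∈ S.erase w := by rw [hS4]; simp
  have hb : b ∈ S.erase w := by rw [hS4]; simp
  have hc : c ∈ S.erase w := by rw [hS4]; simp
  have hd : d ∈ S.erase w := by rw [hS4]; simp
  have hP'P : ∀ x ∈ P', x ∈ P := fun x hx => (Finset.mem_filter.1 (hP' hx)).1
  have hN0N : ∀ x ∈ N0, x ∈ N := fun x hx => (Finset.mem_filter.1 hx).1
  have hq : ∀ i ∈ S.erase w, ∀ j ∈ S.erase w,
      (q i j a + q i j b = 1 → q i j ∈ N0) ∧ (q i j a + q i j b ≠ 1 → q i j ∈ P') := by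
    intro i hi j hj
    apply hquad
    · intro k _
      rw [q_apply]
      split_ifs <;> norm_num
    · intro k hk
      rw [q_apply, if_neg (by rintro rfl; exact hk hi), if_neg (by rintro rfl; exact hk hj)]
      norm_num
    · simp only [q_apply, Finset.sum_add_distrib]
      rw [Finset.sum_ite_eq' (S.erase w) i, Finset.sum_ite_eq' (S.erase w) j, if_pos hi, if_pos hj]
      norm_num
  have hF5 : F5 S P N κ w a b c d :=
    { toNrm := h
      w_mem := hw
      a_mem := (Finset.mem_erase.1 ha).2
      b_mem := (Finset.mem_erase.1 hb).2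
      c_mem := (Finset.mem_erase.1 hc).2
      d_mem := (Finset.mem_erase.1 hd).2
      ab := hab
      ac := hac
      ad := had
      bc := hbc
      bd := hbd
      cd := hcd
      wa := (Finset.mem_erase.1 ha).1.symm
      wb := (Finset.mem_erase.1 hb).1.symm
      wc := (Finset.mem_erase.1 hc).1.symm
      wd := (Finset.mem_erase.1 hd).1.symm
      c5 := hS
      U5 := hU5 w hw
      qN := by
        intro i j hi hj
        have hi' : i ∈ S.erase w := by rcases hi with rfl | rfl <;> assumption
        have hj' : j ∈ S.erase w := by rcases hj with rfl | rfl <;> assumption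
        apply hN0N
        apply (hq i hi' j hj').1
        rw [q_apply, q_apply]
        rcases hi with rfl | rfl <;> rcases hj with rfl | rfl <;>
          simp [hab, hab.symm, hac, had, hbc, hbd]
      qP1 := by
        intro i j hi hj
        have hi' : i ∈ S.erase w := by rcases hi with rfl | rfl <;> assumption
        have hj' : j ∈ S.erase w := by rcases hj with rfl | rfl <;> assumption
        apply hP'P
        apply (hq i hi' j hj').2
        rw [q_apply, q_apply]
        rcases hi with rfl | rfl <;> rcases hj with rfl | rfl <;>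
          simp [hab, hab.symm]
      qP2 := by
        intro i j hi hj
        have hi' : i ∈ S.erase w := by rcases hi with rfl | rfl <;> assumption
        have hj' : j ∈ S.erase w := by rcases hj with rfl | rfl <;> assumption
        apply hP'P
        apply (hq i hi' j hj').2
        rw [q_apply, q_apply]
        rcases hi with rfl | rfl <;> rcases hj with rfl | rfl <;>
          simp [hac, had, hbc, hbd]
      D1 := by
        intro δ hδ
        have h1 := h.up_nonneg (mem_Dd.1 hδ).1 w hw
        by_contra hlt
        have h0 : δ w = 0 := by omega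
        have := h.D_slice_D hδ hw h0
        rw [← hP0, ← hN0, hD0] at this
        simp at this
      X1 := by
        intro ν hν i hi hneg
        have hwpos : 0 ≤ ν w := by
          by_contra hlt
          push Not at hlt
          have := h.export_slice_D hν hw hlt
          rw [← hP0, ← hN0, hD0] at this
          simp at this
        by_contra hlt
        have h0 : ν w = 0 := by omega
        have hiw : i ≠ w := by rintro rfl; omega
        have hi' : i ∈ S.erase w := Finset.mem_erase.2 ⟨hiw, hi⟩
        obtain ⟨m, hm, hmi⟩ : ∃ m ∈ S.erase w, m ≠ i := by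
          by_cases hai : a = i
          · exact ⟨b, hb, by rw [← hai]; exact hab.symm⟩
          · exact ⟨a, ha, hai⟩
        have hν0 : ν ∈ P0 := Finset.mem_filter.2 ⟨hν, h0⟩
        have h1 := export_T (S := S.erase w) (P := P0) (N := N0)
          (fun x hx => h.nonneg x (hN0N x hx) i hi) hν0 hneg hm hmi
        have h2 := T_sub_Th h1
        rw [← hTheq] at h2
        have h3 := hE.T_nonneg (Th_of_D hE.D0 h2) i hi'
        rw [st_ne ν hmi.symm] at h3
        omega }
  exact hF5.false

lemma lower5 (h : Cfg S P N κ) (hS : S.card = 5) : 14 ≤ (Th S P N).card := by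
  obtain ⟨P', hsub, t, κ', ht, hD, hTh, hN⟩ := exists_nrm h
  have h1 := nrm5 hN hS
  rw [Th_sh, card_sh] at h1
  exact h1.trans (Finset.card_le_card hTh)

theorem lower (n : ℕ) (hn : 5 ≤ n) : ∀ (S : Finset ι) (P N : Finset (ι → ℤ)) (κ : ℤ),
    Cfg S P N κ → S.card = n → (n + 1).choose 2 - 1 ≤ (Th S P N).card := by
  induction n, hn using Nat.le_induction with
  | base => intro S P N κ h hS; exact lower5 h hS
  | succ n hn ih =>
    intro S P N κ h hS
    have h1 := avg_step h (by omega) ((n + 1).choose 2 - 1)
      (fun S' P' N' κ' hS' h' => ih S' P' N' κ' h' (by omega))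
    rw [hS] at h1
    set F := (Th S P N).card
    have e1 : (n + 1 + 1).choose 2 = (n + 2) * (n + 1) / 2 := by
      rw [Nat.choose_two_right]; rfl
    have e2 : (n + 1).choose 2 = (n + 1) * n / 2 := by
      rw [Nat.choose_two_right]; rfl
    have d1 : (n + 2) * (n + 1) / 2 * 2 = (n + 2) * (n + 1) :=
      Nat.div_mul_cancel (Nat.even_mul_succ_self (n + 1) |>.two_dvd |> fun h => by
        rwa [mul_comm] at h)
    have d2 : (n + 1) * n / 2 * 2 = (n + 1) * n :=
      Nat.div_mul_cancel (Nat.even_mul_succ_self n |>.two_dvd |> fun h => by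
        rwa [mul_comm] at h)
    rw [e1]
    rw [e2] at h1
    set A := (n + 2) * (n + 1) / 2
    set B := (n + 1) * n / 2
    have hB1 : 1 ≤ B := by nlinarith
    obtain ⟨B', hB'⟩ : ∃ B', B = B' + 1 := ⟨B - 1, by omega⟩
    rw [hB'] at h1 d2
    simp only [Nat.add_sub_cancel] at h1
    by_contra hcon
    push Not at hcon
    have hF : F + 2 ≤ A := by omega
    -- `(n+1) B' + 2F ≤ (n+1) F + (n+1)`
    nlinarith
end Pool.Agent.W739.SOS
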