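import Pool.Agent.W739.SOS.Tools

set_option autoImplicit false

namespace Pool.Agent.W739.SOS

variable {ι : Type*} [Fintype ι] [DecidableEq ι]
variable {S : Finset ι} {P N : Finset (ι → ℤ)} {κ : ℤ}

omit [Fintype ι] in
/-- `st x w = st y i`, `i ≠ w`: relations between `x` and `y` -/
lemma st_rel {x y : ι → ℤ} {w i : ι} (h : st x w = st y i) (hi : i ≠ w) :
    y w = x w + 1 ∧ (∀ k, k ≠ w → y k ≤ x k) := by
  constructor
  · have := congrFun h w
    rw [st_same, st_ne y (fun h => hi h.symm)] at this
    exact this.symm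
  · intro k hk
    have := congrFun h k
    rw [st_ne x hk] at this
    rw [this]
    exact le_st y i k

/-- If the terms of `Tt` inside a lower-closed region `R` (in the coordinates `≠ w`) with
`w`-degree of parity `p` and `≥ 1` are absent, then signs are forced. -/
lemma forced {w : ι} (hw : w ∈ S) (hdisj : ∀ x ∈ P, x ∉ N) (hD : up S N ⊆ up S P)
    (R : (ι → ℤ) → Prop) (hR : ∀ x y : ι → ℤ, R x → (∀ k, k ≠ w → y k ≤ x k) → R y)
    (odd : Bool)
    (hT : ∀ τ ∈ Tt S P N, R τ → 1 ≤ τ w → ¬ (if odd then Odd (τ w) else Even (τ w))) :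
    (∀ x ∈ N, R x → 0 ≤ x w → ¬ (if odd then Odd (x w) else Even (x w))) ∧
    (∀ x ∈ P, R x → 0 ≤ x w → ¬ (if odd then Even (x w) else Odd (x w))) := by
  classical
  by_contra hcon
  set Bad : Finset (ι → ℤ) :=
    (N.filter (fun x => R x ∧ 0 ≤ x w ∧ (if odd then Odd (x w) else Even (x w)))) ∪
    (P.filter (fun x => R x ∧ 0 ≤ x w ∧ (if odd then Even (x w) else Odd (x w)))) with hBad
  have hne : Bad.Nonempty := by
    by_contra hemp
    apply hcon
    rw [Finset.not_nonempty_iff_eq_empty] at hemp
    constructor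
    · intro x hx hRx h0 hpar
      have : x ∈ Bad := Finset.mem_union_left _ (Finset.mem_filter.2 ⟨hx, hRx, h0, hpar⟩)
      rw [hemp] at this; simp at this
    · intro x hx hRx h0 hpar
      have : x ∈ Bad := Finset.mem_union_right _ (Finset.mem_filter.2 ⟨hx, hRx, h0, hpar⟩)
      rw [hemp] at this; simp at this
  obtain ⟨x, hx, hmax⟩ := Finset.exists_max_image Bad (fun x => x w) hne
  have big : ∀ y ∈ Bad, ¬ (y w = x w + 1) := by
    intro y hy he
    have := hmax y hy
    omega
  rcases Finset.mem_union.1 hx with hx' | hx'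
  · obtain ⟨hxN, hRx, h0, hpar⟩ := Finset.mem_filter.1 hx'
    obtain ⟨ν, hν, i, hi, he⟩ := mem_up.1 (hD (st_mem_up hxN hw))
    have hiw : i ≠ w := by
      rintro rfl
      exact hdisj ν hν ((st_inj he) ▸ hxN)
    obtain ⟨h1, h2⟩ := st_rel he.symm hiw
    refine big ν (Finset.mem_union_right _ (Finset.mem_filter.2 ⟨hν, hR x ν hRx h2, by omega, ?_⟩)) h1
    rw [h1]
    cases odd
    · simp only [Bool.false_eq_true, if_false] at hpar ⊢
      exact hpar.add_one
    · simp only [if_true] at hpar ⊢
      exact hpar.add_one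
  · obtain ⟨hxP, hRx, h0, hpar⟩ := Finset.mem_filter.1 hx'
    have hRst : R (st x w) := hR x _ hRx (fun k hk => by rw [st_ne x hk])
    have hnT : st x w ∉ Tt S P N := by
      intro hmem
      refine hT _ hmem hRst (by rw [st_same]; omega) ?_
      rw [st_same]
      cases odd
      · simp only [Bool.false_eq_true, if_false] at hpar ⊢
        exact hpar.add_one
      · simp only [if_true] at hpar ⊢
        exact hpar.add_one
    have hu : st x w ∈ up S N := by
      by_contra hcon'
      exact hnT (mem_Tt.2 ⟨st_mem_up hxP hw, hcon'⟩)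
    obtain ⟨α, hα, i, hi, he⟩ := mem_up.1 hu
    have hiw : i ≠ w := by
      rintro rfl
      exact hdisj x hxP ((st_inj he) ▸ hα)
    obtain ⟨h1, h2⟩ := st_rel he.symm hiw
    refine big α (Finset.mem_union_left _ (Finset.mem_filter.2 ⟨hα, hR x α hRx h2, by omega, ?_⟩)) h1
    rw [h1]
    cases odd
    · simp only [Bool.false_eq_true, if_false] at hpar ⊢
      exact hpar.add_one
    · simp only [if_true] at hpar ⊢
      exact hpar.add_one

/-- Parity lemma: some term has positive even `w`-degree -/
lemma parity {w : ι} (hw : w ∈ S) (hdisj : ∀ x ∈ P, x ∉ N) (hD : up S N ⊆ up S P)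
    (h0 : ∃ x ∈ N, x w = 0) : ∃ τ ∈ Tt S P N, 2 ≤ τ w ∧ Even (τ w) := by
  by_contra hcon
  push Not at hcon
  obtain ⟨x, hx, hx0⟩ := h0
  have := (forced hw hdisj hD (fun _ => True) (fun _ _ _ _ => trivial) false (by
    intro τ hτ _ h1
    simp only [Bool.false_eq_true, if_false]
    intro hev
    refine absurd hev (hcon τ hτ ?_)
    obtain ⟨r, hr⟩ := hev
    omega)).1 x hx trivial (by omega)
  simp only [Bool.false_eq_true, if_false] at this
  apply this
  rw [hx0]; exact Even.zero

/-- Region lemma -/
lemma region {w j : ι} (hw : w ∈ S) (hj : j ∈ S) (hjw : j ≠ w) (hdisj : ∀ x ∈ P, x ∉ N)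
    (hD : up S N ⊆ up S P) {τ : ι → ℤ} (hτ : τ ∈ Tt S P N) (hev : Even (τ w)) (h2 : 2 ≤ τ w)
    (hT : ∀ σ ∈ Tt S P N, (∀ k ∈ S, k ≠ w → k ≠ j → σ k ≤ τ k) → 1 ≤ σ w → ¬ Odd (σ w)) :
    ∃ ν ∈ P, ν w = -1 ∧ ν j = τ j + τ w ∧ ∀ k, k ≠ w → k ≠ j → ν k = τ k := by
  set R : (ι → ℤ) → Prop := fun x => ∀ k ∈ S, k ≠ w → k ≠ j → x k ≤ τ k with hRdef
  have hR : ∀ x y : ι → ℤ, R x → (∀ k, k ≠ w → y k ≤ x k) → R y := by
    intro x y hx hxy k hk hkw hkj
    exact (hxy k hkw).trans (hx k hk hkw hkj)
  have hF := forced hw hdisj hD R hR true (by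
    intro σ hσ hRσ h1
    simp only [if_true]
    exact hT σ hσ hRσ h1)
  simp only [if_true] at hF
  obtain ⟨hFN, hFP⟩ := hF
  -- the chain
  let c : ℕ → (ι → ℤ) := fun i => τ - Pi.single w 1 + (i : ℤ) • (Pi.single j 1 - Pi.single w 1)
  have cw : ∀ i, c i w = τ w - 1 - i := by
    intro i
    simp only [c, Pi.add_apply, Pi.sub_apply, Pi.smul_apply, Pi.single_eq_same,
      Pi.single_eq_of_ne (fun h => hjw h.symm : w ≠ j), smul_eq_mul]
    ring
  have cj : ∀ i, c i j = τ j + i := by
    intro i
    simp only [c, Pi.add_apply, Pi.sub_apply, Pi.smul_apply, Pi.single_eq_same,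
      Pi.single_eq_of_ne hjw, smul_eq_mul]
    ring
  have ck : ∀ i k, k ≠ w → k ≠ j → c i k = τ k := by
    intro i k hkw hkj
    simp only [c, Pi.add_apply, Pi.sub_apply, Pi.smul_apply,
      Pi.single_eq_of_ne hkw, Pi.single_eq_of_ne hkj, smul_eq_mul]
    ring
  have cstep : ∀ i, st (c i) j = st (c (i + 1)) w := by
    intro i
    simp only [c, st]
    push_cast
    module
  have Rst : ∀ i, R (st (c i) j) := by
    intro i k hk hkw hkj
    rw [st_ne _ hkj, ck i k hkw hkj]
  have stw : ∀ i, st (c i) j w = τ w - 1 - i := by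
    intro i; rw [st_ne _ (fun h => hjw h.symm), cw]
  have main : ∀ i : ℕ, (i : ℤ) ≤ τ w → (Even i → c i ∈ P) ∧ (Odd i → c i ∈ N) := by
    intro i
    induction i with
    | zero =>
      intro _
      refine ⟨fun _ => ?_, fun h => by simp at h⟩
      obtain ⟨ν, hν, k, hk, he⟩ := mem_up.1 (mem_Tt.1 hτ).1
      by_cases hkw : k = w
      · subst hkw
        have : c 0 = ν := by
          simp only [c, ← he, st]; push_cast; module
        rw [this]; exact hν
      · exfalso
        have h3 : ν w = τ w := by rw [← he, st_ne ν (fun h => hkw h.symm)]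
        refine hFP ν hν ?_ (by omega) (h3 ▸ hev)
        intro l hl _ _
        rw [← he]; exact le_st ν k l
    | succ i ih =>
      intro hi
      push_cast at hi
      obtain ⟨ihP, ihN⟩ := ih (by omega)
      constructor
      · intro hpar
        have hio : Odd i := by
          rcases Nat.even_or_odd i with h | h
          · exfalso; exact (Nat.not_even_iff_odd.2 h.add_one) hpar
          · exact h
        have hciN := ihN hio
        obtain ⟨ν, hν, k, hk, he⟩ := mem_up.1 (hD (st_mem_up hciN hj))
        by_cases hkw : k = w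
        · subst hkw
          rw [cstep i] at he
          rw [← st_inj he]; exact hν
        · exfalso
          have h3 : ν w = τ w - 1 - i := by
            rw [← stw i, ← he, st_ne ν (fun h => hkw h.symm)]
          refine hFP ν hν ?_ (by omega) ?_
          · intro l hl hlw hlj
            refine le_trans (le_st ν k l) ?_
            rw [he]; exact Rst i l hl hlw hlj
          · rw [h3]
            obtain ⟨a, ha⟩ := hev
            obtain ⟨b, hb⟩ := hio
            exact ⟨a - b - 1, by omega⟩
      · intro hpar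
        have hie : Even i := by
          rcases Nat.even_or_odd i with h | h
          · exact h
          · exfalso; exact (Nat.not_even_iff_odd.2 hpar) h.add_one
        have hciP := ihP hie
        have hu : st (c i) j ∈ up S N := by
          by_contra hcon
          refine hT _ (mem_Tt.2 ⟨st_mem_up hciP hj, hcon⟩) (Rst i) ?_ ?_
          · rw [stw]
            obtain ⟨a, ha⟩ := hev
            obtain ⟨b, hb⟩ := hie
            omega
          · rw [stw]
            obtain ⟨a, ha⟩ := hev
            obtain ⟨b, hb⟩ := hie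
            exact ⟨a - b - 1, by omega⟩
        obtain ⟨α, hα, k, hk, he⟩ := mem_up.1 hu
        by_cases hkw : k = w
        · subst hkw
          rw [cstep i] at he
          rw [← st_inj he]; exact hα
        · exfalso
          have h3 : α w = τ w - 1 - i := by
            rw [← stw i, ← he, st_ne α (fun h => hkw h.symm)]
          refine hFN α hα ?_ (by omega) ?_
          · intro l hl hlw hlj
            refine le_trans (le_st α k l) ?_
            rw [he]; exact Rst i l hl hlw hlj
          · rw [h3]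
            obtain ⟨a, ha⟩ := hev
            obtain ⟨b, hb⟩ := hie
            exact ⟨a - b - 1, by omega⟩
  have hl : ((τ w).toNat : ℤ) = τ w := Int.toNat_of_nonneg (by omega)
  have hevn : Even (τ w).toNat := by
    obtain ⟨a, ha⟩ := hev
    exact ⟨a.toNat, by omega⟩
  have hP := (main (τ w).toNat (by omega)).1 hevn
  refine ⟨_, hP, ?_, ?_, ?_⟩
  · rw [cw]; omega
  · rw [cj]; omega
  · exact fun k hkw hkj => ck _ k hkw hkj

end Pool.Agent.W739.SOS
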