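import Pool.Agent.W739.SOS.Avg

set_option autoImplicit false

namespace Pool.Agent.W739.SOS

variable {ι : Type*} [Fintype ι] [DecidableEq ι]
variable {S : Finset ι} {P N : Finset (ι → ℤ)} {κ : ℤ}

omit [Fintype ι] in
lemma others3 (hS : S.card = 3) {w : ι} (hw : w ∈ S) :
    ∃ j k, j ∈ S ∧ k ∈ S ∧ j ≠ w ∧ k ≠ w ∧ j ≠ k ∧ ∀ m ∈ S, m = w ∨ m = j ∨ m = k := by
  have h2 : (S.erase w).card = 2 := by rw [Finset.card_erase_of_mem hw, hS]
  obtain ⟨j, k, hjk, he⟩ := Finset.card_eq_two.1 h2
  have hj : j ∈ S.erase w := by rw [he]; simp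
  have hk : k ∈ S.erase w := by rw [he]; simp
  rw [Finset.mem_erase] at hj hk
  refine ⟨j, k, hj.2, hk.2, hj.1, hk.1, hjk, ?_⟩
  intro m hm
  by_cases hmw : m = w
  · exact Or.inl hmw
  · right
    have : m ∈ S.erase w := Finset.mem_erase.2 ⟨hmw, hm⟩
    rw [he] at this
    simpa using this

/-- terms with `w`-degree `≥ 1` -/
def UU (S : Finset ι) (P N : Finset (ι → ℤ)) (w : ι) : Finset (ι → ℤ) :=
  (Th S P N).filter (fun τ => ¬ τ w ≤ 0)

lemma mem_UU {w : ι} {x : ι → ℤ} : x ∈ UU S P N w ↔ x ∈ Th S P N ∧ 1 ≤ x w := by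
  rw [UU, Finset.mem_filter]
  constructor
  · rintro ⟨h1, h2⟩; exact ⟨h1, by omega⟩
  · rintro ⟨h1, h2⟩; exact ⟨h1, by omega⟩

lemma card_split (w : ι) :
    ((Th S P N).filter (fun τ => τ w ≤ 0)).card + (UU S P N w).card = (Th S P N).card :=
  Finset.card_filter_add_card_filter_not _

/-- an uncovered element produces `|S|` terms -/
lemma UU_of_D {w : ι} {δ : ι → ℤ} (hδ : δ ∈ Dd S P N) (h1 : 1 ≤ δ w) :
    S.card ≤ (UU S P N w).card := by
  have hsub : S.image (fun i => st δ i) ⊆ UU S P N w := by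
    intro x hx
    obtain ⟨i, hi, rfl⟩ := Finset.mem_image.1 hx
    rw [mem_UU]
    refine ⟨mem_Th.2 (Or.inl (st_mem_up hδ hi)), ?_⟩
    have := le_st δ i w
    omega
  have := Finset.card_le_card hsub
  rwa [Finset.card_image_of_injective _ (fun i j h => st_inj' h)] at this

namespace Nrm

lemma D_pos (h : Nrm S P N κ) {δ : ι → ℤ} (hδ : δ ∈ Dd S P N) : ∃ w ∈ S, 1 ≤ δ w := by
  by_contra hcon
  push Not at hcon
  have h1 := h.sumD δ hδ
  have h2 : ∑ i ∈ S, δ i ≤ 0 := Finset.sum_nonpos (fun i hi => by have := hcon i hi; omega)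
  have := h.kappa_nonneg
  omega

/-- If every direction has fewer than `|S|` terms above level zero, nothing is uncovered. -/
lemma D_empty (h : Nrm S P N κ) (hU : ∀ w ∈ S, (UU S P N w).card < S.card) :
    Dd S P N = ∅ := by
  rw [Finset.eq_empty_iff_forall_notMem]
  intro δ hδ
  obtain ⟨w, hw, h1⟩ := h.D_pos hδ
  have := UU_of_D hδ h1
  have := hU w hw
  omega

lemma cover_of_D (hD : Dd S P N = ∅) : up S N ⊆ up S P := by
  intro x hx
  by_contra hcon
  have : x ∈ Dd S P N := mem_Dd.2 ⟨hx, hcon⟩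
  rw [hD] at this; simp at this

end Nrm

lemma Th_of_D (hD : Dd S P N = ∅) {x : ι → ℤ} (hx : x ∈ Th S P N) : x ∈ Tt S P N := by
  rcases mem_Th.1 hx with h | h
  · rw [hD, mem_up] at h; simp at h
  · exact h

lemma T_sub_Th {x : ι → ℤ} (hx : x ∈ Tt S P N) : x ∈ Th S P N := mem_Th.2 (Or.inr hx)

/-- no exports: pure terms are `(κ+1) e_w` -/
lemma Nrm.pure_eq (h : Nrm S P N κ) (hD : Dd S P N = ∅) (hP : ∀ ν ∈ P, ∀ i ∈ S, 0 ≤ ν i)
    {w : ι} (hw : w ∈ S) {τ : ι → ℤ} (hτ : τ ∈ Th S P N) (hp : Pure S w τ) :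
    τ = Pi.single w (κ + 1) := by
  rcases h.pure_cases hw hτ hp with ⟨a1, -⟩ | ⟨i, hi, hiw, ν, hν, b1, -⟩ | ⟨-, a2⟩
  · exact a1
  · have := hP ν hν i hi
    omega
  · rw [hD] at a2; simp at a2

/-- domination lemma -/
lemma Nrm.dominated (h : Nrm S P N κ) (hD : Dd S P N = ∅) {w : ι} (hw : w ∈ S)
    (hP : ∀ ν ∈ P, 0 ≤ ν w) (hU : (UU S P N w).card < S.card) {τ : ι → ℤ} (hτ : τ ∈ Tt S P N)
    (h2 : 2 ≤ τ w) (hev : Even (τ w)) :
    ∃ σ ∈ Tt S P N, Odd (σ w) ∧ 1 ≤ σ w ∧ ∀ k ∈ S, k ≠ w → σ k ≤ τ k := by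
  by_contra hcon
  push Not at hcon
  have hex : ∀ j ∈ S.erase w, ∃ σ ∈ Tt S P N, (∀ k ∈ S, k ≠ w → k ≠ j → σ k ≤ τ k) ∧
      1 ≤ σ w ∧ Odd (σ w) := by
    intro j hj
    rw [Finset.mem_erase] at hj
    by_contra hc
    push Not at hc
    obtain ⟨ν, hν, h3, -⟩ := region hw hj.2 hj.1 h.disj (Nrm.cover_of_D hD) hτ hev h2
      (fun σ hσ h4 h5 => by
        have := hc σ hσ h4 h5
        exact this)
    have := hP ν hν
    omega
  choose! s hs1 hs2 hs3 hs4 using hex
  have hinj : Set.InjOn s (S.erase w : Finset ι) := by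
    intro j hj k hk hjk
    by_contra hne
    obtain ⟨l, hl, hlw, hl2⟩ := hcon (s j) (hs1 j hj) (hs4 j hj) (hs3 j hj)
    by_cases hlj : l = j
    · subst hlj
      have := hs2 k hk l hl hlw hne
      rw [← hjk] at this
      omega
    · have := hs2 j hj l hl hlw hlj
      omega
  have hsub : insert τ ((S.erase w).image s) ⊆ UU S P N w := by
    intro x hx
    rcases Finset.mem_insert.1 hx with rfl | hx
    · exact mem_UU.2 ⟨T_sub_Th hτ, by omega⟩
    · obtain ⟨j, hj, rfl⟩ := Finset.mem_image.1 hx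
      exact mem_UU.2 ⟨T_sub_Th (hs1 j hj), hs3 j hj⟩
  have hnot : τ ∉ (S.erase w).image s := by
    intro hx
    obtain ⟨j, hj, hje⟩ := Finset.mem_image.1 hx
    have := hs4 j hj
    rw [hje] at this
    exact (Int.not_even_iff_odd.2 this) hev
  have h5 := Finset.card_le_card hsub
  rw [Finset.card_insert_of_notMem hnot, Finset.card_image_of_injOn hinj,
    Finset.card_erase_of_mem hw] at h5
  have : 0 < S.card := Finset.card_pos.2 ⟨w, hw⟩
  omega

lemma nrm3 (h : Nrm S P N κ) (hS : S.card = 3) : 5 ≤ (Th S P N).card := by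
  by_contra hF
  push Not at hF
  have hL : ∀ w ∈ S, 2 ≤ ((Th S P N).filter (fun τ => τ w ≤ 0)).card := by
    intro w hw
    refine le_trans ?_ (h.slice_card hw)
    exact lower2 (h.slice hw) (by rw [Finset.card_erase_of_mem hw, hS])
  have hsplit := fun w => card_split (S := S) (P := P) (N := N) w
  have hU2 : ∀ w ∈ S, (UU S P N w).card ≤ 2 := by
    intro w hw
    have := hL w hw
    have := hsplit w
    omega
  have hD : Dd S P N = ∅ := h.D_empty (fun w hw => by have := hU2 w hw; omega)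
  have hcov := Nrm.cover_of_D hD
  -- every direction has at least two terms above level 0
  have hU2' : ∀ w ∈ S, 2 ≤ (UU S P N w).card := by
    intro w hw
    by_contra hlt
    push Not at hlt
    obtain ⟨τ, hτ, h2, hev⟩ := parity hw h.disj hcov (h.touch w hw)
    obtain ⟨j, k, hj, hk, hjw, hkw, hjk, -⟩ := others3 hS hw
    have honly : ∀ σ ∈ Tt S P N, 1 ≤ σ w → σ = τ := by
      intro σ hσ h1
      have := Finset.card_le_one.1 (by omega : (UU S P N w).card ≤ 1)
      exact this σ (mem_UU.2 ⟨T_sub_Th hσ, h1⟩) τ (mem_UU.2 ⟨T_sub_Th hτ, by omega⟩)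
    have hno : ∀ σ ∈ Tt S P N, 1 ≤ σ w → ¬ Odd (σ w) := by
      intro σ hσ h1 hodd
      rw [honly σ hσ h1] at hodd
      exact (Int.not_even_iff_odd.2 hodd) hev
    obtain ⟨ν, hν, a1, a2, a3⟩ := region hw hj hjw h.disj hcov hτ hev h2
      (fun σ hσ _ h1 => hno σ hσ h1)
    obtain ⟨ν', hν', b1, b2, b3⟩ := region hw hk hkw h.disj hcov hτ hev h2
      (fun σ hσ _ h1 => hno σ hσ h1)
    have h0 : ∀ x ∈ N, 0 ≤ x w := fun x hx => h.nonneg x hx w hw
    have t1 := export_T h0 hν (by omega) hj hjw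
    have t2 := export_T h0 hν (by omega) hk hkw
    have t3 := export_T h0 hν' (by omega) hj hjw
    have t4 := export_T h0 hν' (by omega) hk hkw
    have b3' := b3 j hjw hjk
    have hwj : w ≠ j := fun h => hjw h.symm
    have hwk : w ≠ k := fun h => hkw h.symm
    have v1 : st ν j j = ν j + 1 := st_same _ _
    have v2 : st ν k j = ν j := st_ne _ hjk
    have v3 : st ν' j j = ν' j + 1 := st_same _ _
    have v4 : st ν' k j = ν' j := st_ne _ hjk
    have w1 : st ν j w = ν w := st_ne _ hwj
    have w2 : st ν k w = ν w := st_ne _ hwk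
    have w3 : st ν' j w = ν' w := st_ne _ hwj
    have w4 : st ν' k w = ν' w := st_ne _ hwk
    have hsub : ({τ, st ν j, st ν k, st ν' j, st ν' k} : Finset (ι → ℤ)) ⊆ Th S P N := by
      intro x hx
      simp only [Finset.mem_insert, Finset.mem_singleton] at hx
      rcases hx with rfl | rfl | rfl | rfl | rfl
      · exact T_sub_Th hτ
      · exact T_sub_Th t1
      · exact T_sub_Th t2
      · exact T_sub_Th t3
      · exact T_sub_Th t4
    have hcard : ({τ, st ν j, st ν k, st ν' j, st ν' k} : Finset (ι → ℤ)).card = 5 := by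
      rw [Finset.card_insert_of_notMem, Finset.card_insert_of_notMem,
        Finset.card_insert_of_notMem, Finset.card_pair]
      · intro he; have := congrFun he j; omega
      · simp only [Finset.mem_insert, Finset.mem_singleton]
        rintro (he | he)
        · have := congrFun he j; omega
        · have := congrFun he j; omega
      · simp only [Finset.mem_insert, Finset.mem_singleton]
        rintro (he | he | he)
        · have := congrFun he j; omega
        · have := congrFun he j; omega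
        · have := congrFun he j; omega
      · simp only [Finset.mem_insert, Finset.mem_singleton]
        rintro (he | he | he | he)
        · have := congrFun he w; omega
        · have := congrFun he w; omega
        · have := congrFun he w; omega
        · have := congrFun he w; omega
    have := Finset.card_le_card hsub
    omega
  have hUeq : ∀ w ∈ S, (UU S P N w).card = 2 := fun w hw => le_antisymm (hU2 w hw) (hU2' w hw)
  have hF4 : (Th S P N).card = 4 := by
    obtain ⟨w, hw⟩ : S.Nonempty := Finset.card_pos.1 (by omega)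
    have := hL w hw
    have := hsplit w
    have := hUeq w hw
    omega
  -- no exports
  have hP : ∀ ν ∈ P, ∀ i ∈ S, 0 ≤ ν i := by
    intro ν hν i hi
    by_contra hneg
    push Not at hneg
    have h1 := h.export_slice_D hν hi hneg
    have h2 := lower2' (h.slice hi) (by rw [Finset.card_erase_of_mem hi, hS]) ⟨_, h1⟩
    have h3 := h.slice_card hi
    have h4 := hsplit i
    have h5 := hUeq i hi
    omega
  -- corners
  have hcorner : ∀ w ∈ S, Pi.single w (κ + 1) ∈ Th S P N ∧ Odd (κ + 1) ∧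
      ∃ τ ∈ Th S P N, 2 ≤ τ w ∧ Even (τ w) := by
    intro w hw
    obtain ⟨τ, hτ, h2, hev⟩ := parity hw h.disj hcov (h.touch w hw)
    obtain ⟨σ, hσ, hodd, h1, hdom⟩ := h.dominated hD hw (fun ν hν => hP ν hν w hw)
      (by rw [hUeq w hw, hS]; omega) hτ h2 hev
    have hne : σ ≠ τ := by
      rintro rfl; exact (Int.not_even_iff_odd.2 hodd) hev
    have hpure : Pure S w σ := by
      intro k hk hkw
      by_contra hpos
      push Not at hpos
      have hτk := hdom k hk hkw
      -- both are in `UU k`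
      have e1 : ({σ, τ} : Finset (ι → ℤ)) = UU S P N w := by
        apply Finset.eq_of_subset_of_card_le
        · intro x hx
          simp only [Finset.mem_insert, Finset.mem_singleton] at hx
          rcases hx with rfl | rfl
          · exact mem_UU.2 ⟨T_sub_Th hσ, h1⟩
          · exact mem_UU.2 ⟨T_sub_Th hτ, by omega⟩
        · rw [hUeq w hw, Finset.card_pair hne]
      have e2 : ({σ, τ} : Finset (ι → ℤ)) = UU S P N k := by
        apply Finset.eq_of_subset_of_card_le
        · intro x hx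
          simp only [Finset.mem_insert, Finset.mem_singleton] at hx
          rcases hx with rfl | rfl
          · exact mem_UU.2 ⟨T_sub_Th hσ, by omega⟩
          · exact mem_UU.2 ⟨T_sub_Th hτ, by omega⟩
        · rw [hUeq k hk, Finset.card_pair hne]
      obtain ⟨j, l, hj, hl, hjw, hlw, hjl, hall⟩ := others3 hS hw
      -- the third direction
      obtain ⟨m, hm, hmw, hmk, hall'⟩ : ∃ m ∈ S, m ≠ w ∧ m ≠ k ∧ ∀ x ∈ S, x = w ∨ x = k ∨ x = m := by
        rcases hall k hk with rfl | rfl | rfl
        · exact absurd rfl hkw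
        · exact ⟨l, hl, hlw, fun h => hjl h.symm, hall⟩
        · refine ⟨j, hj, hjw, hjl, fun x hx => ?_⟩
          rcases hall x hx with h | h | h
          · exact Or.inl h
          · exact Or.inr (Or.inr h)
          · exact Or.inr (Or.inl h)
      have hrest : ((Th S P N) \ {σ, τ}).card = 2 := by
        rw [Finset.card_sdiff_of_subset, Finset.card_pair hne, hF4]
        intro x hx
        simp only [Finset.mem_insert, Finset.mem_singleton] at hx
        rcases hx with rfl | rfl
        · exact T_sub_Th hσ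
        · exact T_sub_Th hτ
      obtain ⟨x, y, hxy, hxyeq⟩ := Finset.card_eq_two.1 hrest
      have hx : x ∈ (Th S P N) \ {σ, τ} := by rw [hxyeq]; simp
      have hy : y ∈ (Th S P N) \ {σ, τ} := by rw [hxyeq]; simp
      have hpu : ∀ z ∈ (Th S P N) \ {σ, τ}, z ∈ Th S P N ∧ Pure S m z := by
        intro z hz
        rw [Finset.mem_sdiff] at hz
        refine ⟨hz.1, ?_⟩
        intro i hi him
        by_contra hzi
        push Not at hzi
        rcases hall' i hi with rfl | rfl | rfl
        · exact hz.2 (e1 ▸ mem_UU.2 ⟨hz.1, by omega⟩)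
        · exact hz.2 (e2 ▸ mem_UU.2 ⟨hz.1, by omega⟩)
        · exact him rfl
      exact hxy (h.pure_unique hm (hpu x hx).1 (hpu y hy).1 (hpu x hx).2 (hpu y hy).2)
    have hσeq := h.pure_eq hD hP hw (T_sub_Th hσ) hpure
    refine ⟨hσeq ▸ T_sub_Th hσ, ?_, τ, T_sub_Th hτ, h2, hev⟩
    rw [hσeq, Pi.single_eq_same] at hodd
    exact hodd
  obtain ⟨a, b, c, hab, hac, hbc, rfl⟩ := Finset.card_eq_three.1 hS
  obtain ⟨ca, hodd, τa, hτa, ha2, haev⟩ := hcorner a (by simp)
  obtain ⟨cb, -, τb, hτb, hb2, hbev⟩ := hcorner b (by simp)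
  obtain ⟨cc, -, τc, hτc, hc2, hcev⟩ := hcorner c (by simp)
  have hκ := h.kappa_nonneg
  set K : ℤ := κ + 1 with hK
  have hKpos : 1 ≤ K := by omega
  set X : Finset (ι → ℤ) := {Pi.single a K, Pi.single b K, Pi.single c K} with hX
  have hXc : X.card = 3 := by
    have hne : ∀ x y : ι, x ≠ y → (Pi.single x K : ι → ℤ) ≠ Pi.single y K := by
      intro x y hxy he
      have := congrFun he x
      rw [Pi.single_eq_same, Pi.single_eq_of_ne hxy] at this
      omega
    rw [hX, Finset.card_insert_of_notMem, Finset.card_pair (hne b c hbc)]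
    simp only [Finset.mem_insert, Finset.mem_singleton, not_or]
    exact ⟨hne a b hab, hne a c hac⟩
  have hXsub : X ⊆ Th {a, b, c} P N := by
    intro x hx
    simp only [hX, Finset.mem_insert, Finset.mem_singleton] at hx
    rcases hx with rfl | rfl | rfl
    · exact ca
    · exact cb
    · exact cc
  have hrest : ((Th {a, b, c} P N) \ X).card ≤ 1 := by
    rw [Finset.card_sdiff_of_subset hXsub, hXc, hF4]
  have hnot : ∀ τ : ι → ℤ, ∀ w : ι, 2 ≤ τ w → Even (τ w) → τ ∉ X := by
    intro τ w h2 hev hx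
    have : ∀ y, τ ≠ Pi.single y K := by
      rintro y rfl
      by_cases hyw : w = y
      · subst hyw
        rw [Pi.single_eq_same] at hev
        exact (Int.not_even_iff_odd.2 hodd) hev
      · rw [Pi.single_eq_of_ne hyw] at h2
        omega
    simp only [hX, Finset.mem_insert, Finset.mem_singleton] at hx
    rcases hx with hx | hx | hx
    · exact this a hx
    · exact this b hx
    · exact this c hx
  have hma := Finset.mem_sdiff.2 ⟨hτa, hnot τa a ha2 haev⟩
  have hmb := Finset.mem_sdiff.2 ⟨hτb, hnot τb b hb2 hbev⟩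
  have hmc := Finset.mem_sdiff.2 ⟨hτc, hnot τc c hc2 hcev⟩
  have eab := Finset.card_le_one.1 hrest _ hma _ hmb
  have eac := Finset.card_le_one.1 hrest _ hma _ hmc
  subst eab
  subst eac
  have hs := h.sumT τa (Th_of_D hD hτa)
  have : ∑ i ∈ ({a, b, c} : Finset ι), τa i = τa a + (τa b + τa c) := by
    rw [Finset.sum_insert (by simp [hab, hac]), Finset.sum_pair hbc]
  rw [this] at hs
  apply Int.not_even_iff_odd.2 hodd
  rw [hK, ← hs]
  exact haev.add (hbev.add hcev)

lemma lower3 (h : Cfg S P N κ) (hS : S.card = 3) : 5 ≤ (Th S P N).card := by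
  obtain ⟨P', hsub, t, κ', ht, hD, hTh, hN⟩ := exists_nrm h
  have h1 := nrm3 hN hS
  rw [Th_sh, card_sh] at h1
  exact h1.trans (Finset.card_le_card hTh)

lemma lower4 (h : Cfg S P N κ) (hS : S.card = 4) : 8 ≤ (Th S P N).card := by
  have := avg_step h (by omega) 5 (fun S' P' N' κ' hS' h' => lower3 h' (by omega))
  rw [hS] at this
  omega

end Pool.Agent.W739.SOS
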