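import Pool.Agent.W739.SOS.Basic

set_option autoImplicit false

namespace Pool.Agent.W739.SOS

variable {ι : Type*} [Fintype ι] [DecidableEq ι]
variable {S : Finset ι} {P N : Finset (ι → ℤ)} {κ : ℤ}

/-- two variables: at least two terms -/
lemma lower2 (h : Cfg S P N κ) (hS : S.card = 2) : 2 ≤ (Th S P N).card := by
  obtain ⟨a, b, hab, rfl⟩ := Finset.card_eq_two.1 hS
  obtain ⟨α, hα, hmα, τ, hτ, h1⟩ := h.top (w := a) (by simp)
  obtain ⟨β, hβ, hmβ, σ, hσ, h2⟩ := h.top (w := b) (by simp)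
  refine Finset.one_lt_card.2 ⟨τ, hτ, σ, hσ, ?_⟩
  rintro rfl
  have h3 := (h.sumTh τ hτ).2
  have h4 := h.sumN α hα
  rw [Finset.sum_pair hab] at h3 h4
  have h5 := hmβ α hα
  omega

lemma lower2' (h : Cfg S P N κ) (hS : S.card = 2) (hD : (Dd S P N).Nonempty) :
    3 ≤ (Th S P N).card := by
  obtain ⟨a, b, hab, rfl⟩ := Finset.card_eq_two.1 hS
  obtain ⟨α, hα, hmα, τ, hτ, h1⟩ := h.top (w := a) (by simp)
  obtain ⟨β, hβ, hmβ, σ, hσ, h2⟩ := h.top (w := b) (by simp)
  obtain ⟨δ, hδ⟩ := hD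
  have h4 := h.sumN α hα
  have h6 := h.sumD δ hδ
  rw [Finset.sum_pair hab] at h4 h6
  have h5 := hmβ α hα
  have hne : τ ≠ σ := by
    rintro rfl
    have h3 := (h.sumTh τ hτ).2
    rw [Finset.sum_pair hab] at h3
    omega
  have hda : δ a ≤ α a + 1 := by
    obtain ⟨y, hy, i, hi, he⟩ := mem_up.1 (mem_Dd.1 hδ).1
    have := st_le y i a
    have := hmα y hy
    rw [he] at *
    omega
  have hdb : δ b ≤ β b + 1 := by
    obtain ⟨y, hy, i, hi, he⟩ := mem_up.1 (mem_Dd.1 hδ).1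
    have := st_le y i b
    have := hmβ y hy
    rw [he] at *
    omega
  have hA : st δ a ∈ Th {a, b} P N := mem_Th.2 (Or.inl (st_mem_up hδ (by simp)))
  have hB : st δ b ∈ Th {a, b} P N := mem_Th.2 (Or.inl (st_mem_up hδ (by simp)))
  have hne2 : st δ a ≠ st δ b := fun he => hab (st_inj' he)
  by_contra hcon
  push Not at hcon
  have hcard : (Th {a, b} P N).card = 2 := by
    have : 1 < (Th {a, b} P N).card := Finset.one_lt_card.2 ⟨τ, hτ, σ, hσ, hne⟩
    omega
  have hEq : ({st δ a, st δ b} : Finset (ι → ℤ)) = Th {a, b} P N := by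
    apply Finset.eq_of_subset_of_card_le
    · intro x hx
      rcases Finset.mem_insert.1 hx with rfl | hx
      · exact hA
      · rw [Finset.mem_singleton.1 hx]; exact hB
    · rw [hcard, Finset.card_pair hne2]
  rw [← hEq] at hτ hσ
  simp only [Finset.mem_insert, Finset.mem_singleton] at hτ hσ
  have hab' : b ≠ a := fun h => hab h.symm
  have e1 : st δ a a = δ a + 1 := st_same _ _
  have e2 : st δ a b = δ b := st_ne _ hab'
  have e3 : st δ b b = δ b + 1 := st_same _ _
  have e4 : st δ b a = δ a := st_ne _ hab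
  rcases hτ with rfl | rfl
  · rcases hσ with rfl | rfl
    · exact hne rfl
    · omega
  · omega

/-- normalised configuration -/
structure Nrm (S : Finset ι) (P N : Finset (ι → ℤ)) (κ : ℤ) : Prop extends Cfg S P N κ where
  nonneg : ∀ x ∈ N, ∀ i ∈ S, 0 ≤ x i
  touch : ∀ i ∈ S, ∃ x ∈ N, x i = 0
  priv : ∀ ν ∈ P, ∃ i ∈ S, st ν i ∈ up S N ∧ ∀ ν' ∈ P, ∀ j ∈ S, st ν' j = st ν i → ν' = ν

lemma slice (h : Cfg S P N κ) {w : ι} (hw : w ∈ S) (h0 : ∀ x ∈ N, 0 ≤ x w)
    (h1 : ∃ x ∈ N, x w = 0) :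
    Cfg (S.erase w) (P.filter (fun x => x w = 0)) (N.filter (fun x => x w = 0)) κ where
  disj := fun x hx hx' => h.disj x (Finset.mem_filter.1 hx).1 (Finset.mem_filter.1 hx').1
  ne := by obtain ⟨x, hx, hx'⟩ := h1; exact ⟨x, Finset.mem_filter.2 ⟨hx, hx'⟩⟩
  outP := by
    intro x hx i hi
    rw [Finset.mem_filter] at hx
    by_cases hiw : i = w
    · subst hiw; exact hx.2
    · exact h.outP x hx.1 i (fun h' => hi (Finset.mem_erase.2 ⟨hiw, h'⟩))
  outN := by
    intro x hx i hi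
    rw [Finset.mem_filter] at hx
    by_cases hiw : i = w
    · subst hiw; exact hx.2
    · exact h.outN x hx.1 i (fun h' => hi (Finset.mem_erase.2 ⟨hiw, h'⟩))
  sumP := by
    intro x hx
    rw [Finset.mem_filter] at hx
    have := Finset.add_sum_erase S (fun i => x i) hw
    rw [hx.2, zero_add] at this
    rw [this]; exact h.sumP x hx.1
  sumN := by
    intro x hx
    rw [Finset.mem_filter] at hx
    have := Finset.add_sum_erase S (fun i => x i) hw
    rw [hx.2, zero_add] at this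
    rw [this]; exact h.sumN x hx.1

/-- membership of level-zero elements of `up S N` in the slice -/
lemma up_slice_N {w : ι} (h0 : ∀ x ∈ N, 0 ≤ x w) {x : ι → ℤ} (hx : x w = 0)
    (hxu : x ∈ up S N) : x ∈ up (S.erase w) (N.filter (fun x => x w = 0)) := by
  obtain ⟨y, hy, i, hi, rfl⟩ := mem_up.1 hxu
  have hiw : i ≠ w := by
    rintro rfl
    have := h0 y hy
    rw [st_same] at hx; omega
  rw [st_ne y (fun h => hiw h.symm)] at hx
  exact st_mem_up (Finset.mem_filter.2 ⟨hy, hx⟩) (Finset.mem_erase.2 ⟨hiw, hi⟩)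

lemma up_erase_sub {w : ι} {X : Finset (ι → ℤ)} :
    up (S.erase w) (X.filter (fun x => x w = 0)) ⊆ up S X := by
  intro x hx
  obtain ⟨y, hy, i, hi, rfl⟩ := mem_up.1 hx
  exact st_mem_up (Finset.mem_filter.1 hy).1 (Finset.mem_erase.1 hi).2

lemma up_erase_zero {w : ι} {X : Finset (ι → ℤ)} {x : ι → ℤ}
    (hx : x ∈ up (S.erase w) (X.filter (fun x => x w = 0))) : x w = 0 := by
  obtain ⟨y, hy, i, hi, rfl⟩ := mem_up.1 hx
  rw [st_ne y (fun h => (Finset.mem_erase.1 hi).1 h.symm)]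
  exact (Finset.mem_filter.1 hy).2

lemma slice_T {w : ι} (h0 : ∀ x ∈ N, 0 ≤ x w) {x : ι → ℤ}
    (hx : x ∈ Tt (S.erase w) (P.filter (fun x => x w = 0)) (N.filter (fun x => x w = 0))) :
    x ∈ Tt S P N := by
  rw [mem_Tt] at hx ⊢
  exact ⟨up_erase_sub hx.1, fun hu => hx.2 (up_slice_N h0 (up_erase_zero hx.1) hu)⟩

/-- exported elements produce terms -/
lemma export_T {w : ι} (h0 : ∀ x ∈ N, 0 ≤ x w) {ν : ι → ℤ} (hν : ν ∈ P) (hneg : ν w < 0)
    {j : ι} (hj : j ∈ S) (hjw : j ≠ w) : st ν j ∈ Tt S P N := by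
  rw [mem_Tt]
  refine ⟨st_mem_up hν hj, ?_⟩
  intro hu
  obtain ⟨y, hy, i, hi, he⟩ := mem_up.1 hu
  have := h0 y hy
  have h1 := le_st y i w
  rw [he, st_ne ν (fun h => hjw h.symm)] at h1
  omega

lemma slice_card {w : ι} (h0 : ∀ x ∈ N, 0 ≤ x w) :
    (Th (S.erase w) (P.filter (fun x => x w = 0)) (N.filter (fun x => x w = 0))).card ≤
      ((Th S P N).filter (fun τ => τ w ≤ 0)).card := by
  set P' := P.filter (fun x => x w = 0)
  set N' := N.filter (fun x => x w = 0)
  have key : ∀ x ∈ Th (S.erase w) P' N', x w = 0 ∧ (x ∈ Th S P N ∨ x - Pi.single w 1 ∈ Tt S P N) := by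
    intro x hx
    rcases mem_Th.1 hx with hx | hx
    · obtain ⟨δ, hδ, j, hj, rfl⟩ := mem_up.1 hx
      have hδ' := mem_Dd.1 hδ
      have hδ0 : δ w = 0 := up_erase_zero hδ'.1
      have hj' := Finset.mem_erase.1 hj
      refine ⟨by rw [st_ne δ (fun h => hj'.1 h.symm)]; exact hδ0, ?_⟩
      have hδN : δ ∈ up S N := up_erase_sub hδ'.1
      by_cases hδP : δ ∈ up S P
      · right
        obtain ⟨ν, hν, k, hk, rfl⟩ := mem_up.1 hδP
        by_cases hkw : k = w
        · subst hkw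
          have : st (st ν k) j - Pi.single k 1 = st ν j := by simp only [st]; abel
          rw [this]
          refine export_T h0 hν ?_ hj'.2 hj'.1
          rw [st_same] at hδ0; omega
        · exfalso
          rw [st_ne ν (fun h => hkw h.symm)] at hδ0
          exact hδ'.2 (st_mem_up (Finset.mem_filter.2 ⟨hν, hδ0⟩) (Finset.mem_erase.2 ⟨hkw, hk⟩))
      · left
        exact mem_Th.2 (Or.inl (st_mem_up (mem_Dd.2 ⟨hδN, hδP⟩) hj'.2))
    · exact ⟨up_erase_zero (mem_Tt.1 hx).1, Or.inl (mem_Th.2 (Or.inr (slice_T h0 hx)))⟩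
  classical
  refine Finset.card_le_card_of_injOn
    (fun x => if x ∈ Th S P N then x else x - Pi.single w 1) ?_ ?_
  · intro x hx
    obtain ⟨h1, h2⟩ := key x hx
    by_cases hm : x ∈ Th S P N
    · simp only [hm, if_true, Finset.coe_filter, Set.mem_ofPred_eq]
      exact ⟨trivial, h1.le⟩
    · simp only [hm, if_false, Finset.coe_filter, Set.mem_ofPred_eq]
      rcases h2 with h2 | h2
      · exact absurd h2 hm
      · refine ⟨mem_Th.2 (Or.inr h2), ?_⟩
        simp [h1]
  · intro x hx y hy hxy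
    obtain ⟨h1, -⟩ := key x hx
    obtain ⟨h2, -⟩ := key y hy
    simp only at hxy
    by_cases hm : x ∈ Th S P N <;> by_cases hm' : y ∈ Th S P N
    · simpa [hm, hm'] using hxy
    · simp only [hm, hm', if_true, if_false] at hxy
      have := congrFun hxy w
      simp [h1, h2] at this
    · simp only [hm, hm', if_true, if_false] at hxy
      have := congrFun hxy w
      simp [h1, h2] at this
    · simp only [hm, hm', if_false] at hxy
      simpa using hxy

namespace Nrm

lemma slice (h : Nrm S P N κ) {w : ι} (hw : w ∈ S) :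
    Cfg (S.erase w) (P.filter (fun x => x w = 0)) (N.filter (fun x => x w = 0)) κ :=
  SOS.slice h.toCfg hw (fun x hx => h.nonneg x hx w hw) (h.touch w hw)

lemma slice_card (h : Nrm S P N κ) {w : ι} (hw : w ∈ S) :
    (Th (S.erase w) (P.filter (fun x => x w = 0)) (N.filter (fun x => x w = 0))).card ≤
      ((Th S P N).filter (fun τ => τ w ≤ 0)).card :=
  SOS.slice_card (fun x hx => h.nonneg x hx w hw)

lemma kappa_nonneg (h : Nrm S P N κ) : 0 ≤ κ := by
  obtain ⟨x, hx⟩ := h.ne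
  rw [← h.sumN x hx]
  exact Finset.sum_nonneg (fun i hi => h.nonneg x hx i hi)

lemma up_nonneg (h : Nrm S P N κ) {x : ι → ℤ} (hx : x ∈ up S N) : ∀ i ∈ S, 0 ≤ x i := by
  intro i hi
  obtain ⟨y, hy, j, hj, rfl⟩ := mem_up.1 hx
  exact (h.nonneg y hy i hi).trans (le_st y j i)

/-- every `ν ∈ P` is `≥ -1`, with at most one coordinate `-1`, and then the private element is
obtained in that direction -/
lemma export_priv (h : Nrm S P N κ) {ν : ι → ℤ} (hν : ν ∈ P) {w : ι} (hw : w ∈ S) (hneg : ν w < 0) :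
    ν w = -1 ∧ (∀ k ∈ S, k ≠ w → 0 ≤ ν k) ∧ st ν w ∈ up S N ∧
      ∀ ν' ∈ P, ∀ j ∈ S, st ν' j = st ν w → ν' = ν := by
  obtain ⟨i, hi, hu, hp⟩ := h.priv ν hν
  have hiw : w = i := by
    by_contra hne
    have := h.up_nonneg hu w hw
    rw [st_ne ν hne] at this
    omega
  subst hiw
  have h1 := h.up_nonneg hu w hw
  rw [st_same] at h1
  refine ⟨by omega, ?_, hu, hp⟩
  intro k hk hkw
  have := h.up_nonneg hu k hk
  rwa [st_ne ν hkw] at this

/-- an export gives an uncovered element in the slice -/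
lemma export_slice_D (h : Nrm S P N κ) {ν : ι → ℤ} (hν : ν ∈ P) {w : ι} (hw : w ∈ S)
    (hneg : ν w < 0) :
    st ν w ∈ Dd (S.erase w) (P.filter (fun x => x w = 0)) (N.filter (fun x => x w = 0)) := by
  obtain ⟨h1, -, hu, hp⟩ := h.export_priv hν hw hneg
  rw [mem_Dd]
  refine ⟨up_slice_N (fun x hx => h.nonneg x hx w hw) (by rw [st_same, h1]; rfl) hu, ?_⟩
  intro hu'
  obtain ⟨ν', hν', j, hj, he⟩ := mem_up.1 hu'
  rw [Finset.mem_filter] at hν'
  have := hp ν' hν'.1 j (Finset.mem_erase.1 hj).2 he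
  subst this
  omega

/-- an uncovered element of level zero is uncovered in the slice -/
lemma D_slice_D (h : Nrm S P N κ) {δ : ι → ℤ} (hδ : δ ∈ Dd S P N) {w : ι} (hw : w ∈ S)
    (h0 : δ w = 0) :
    δ ∈ Dd (S.erase w) (P.filter (fun x => x w = 0)) (N.filter (fun x => x w = 0)) := by
  rw [mem_Dd] at hδ ⊢
  exact ⟨up_slice_N (fun x hx => h.nonneg x hx w hw) h0 hδ.1,
    fun hu => hδ.2 (up_erase_sub hu)⟩

end Nrm

/-- `τ` is pure in direction `w` -/
def Pure (S : Finset ι) (w : ι) (τ : ι → ℤ) : Prop := ∀ k ∈ S, k ≠ w → τ k ≤ 0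

instance (S : Finset ι) (w : ι) : DecidablePred (Pure S w) := fun τ => by
  unfold Pure; infer_instance

namespace Nrm

/-- description of pure terms; `x₀ = (κ+1) e_w` -/
lemma pure_cases (h : Nrm S P N κ) {w : ι} (hw : w ∈ S) {τ : ι → ℤ} (hτ : τ ∈ Th S P N)
    (hp : Pure S w τ) :
    (τ = Pi.single w (κ + 1) ∧ τ ∈ Tt S P N) ∨
    (∃ i ∈ S, i ≠ w ∧ ∃ ν ∈ P, ν i = -1 ∧ st ν i = Pi.single w (κ + 1) ∧
      Pi.single w (κ + 1) ∈ up S N ∧ (∀ ν' ∈ P, ∀ j ∈ S, st ν' j = st ν i → ν' = ν) ∧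
      τ = st ν w) ∨
    (τ = st (Pi.single w (κ + 1)) w ∧ Pi.single w (κ + 1) ∈ Dd S P N) := by
  have hκ := h.kappa_nonneg
  have hsum : ∀ x : ι → ℤ, (∀ k ∈ S, k ≠ w → x k = 0) → (∀ k ∉ S, x k = 0) →
      x = Pi.single w (∑ i ∈ S, x i) := by
    intro x hx hx'
    have h1 : ∑ i ∈ S, x i = x w := by
      rw [← Finset.add_sum_erase S _ hw]
      rw [Finset.sum_eq_zero (s := S.erase w)]
      · ring
      · intro i hi
        exact hx i (Finset.mem_erase.1 hi).2 (Finset.mem_erase.1 hi).1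
    funext k
    by_cases hk : k = w
    · subst hk; simp [h1]
    · rw [Pi.single_eq_of_ne hk]
      by_cases hkS : k ∈ S
      · exact hx k hkS hk
      · exact hx' k hkS
  have hpos : 1 ≤ τ w := by
    have h1 := (h.sumTh τ hτ).1
    rw [← Finset.add_sum_erase S _ hw] at h1
    have h2 : ∑ i ∈ S.erase w, τ i ≤ 0 := by
      apply Finset.sum_nonpos
      intro i hi
      exact hp i (Finset.mem_erase.1 hi).2 (Finset.mem_erase.1 hi).1
    omega
  rcases mem_Th.1 hτ with h1 | h1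
  · -- up D
    right; right
    obtain ⟨δ, hδ, j, hj, he⟩ := mem_up.1 h1
    have hδn := h.up_nonneg (mem_Dd.1 hδ).1
    have hjw : j = w := by
      by_contra hne
      have := hp j hj hne
      rw [← he, st_same] at this
      have := hδn j hj
      omega
    subst hjw
    have hδeq : δ = Pi.single j (κ + 1) := by
      rw [← h.sumD δ hδ]
      apply hsum
      · intro k hk hkj
        have h3 := hp k hk hkj
        rw [← he, st_ne δ hkj] at h3
        have := hδn k hk
        omega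
      · exact h.outD δ hδ
    rw [← he, hδeq]
    rw [hδeq] at hδ
    exact ⟨rfl, hδ⟩
  · obtain ⟨hu, hnu⟩ := mem_Tt.1 h1
    obtain ⟨ν, hν, j, hj, he⟩ := mem_up.1 hu
    by_cases hex : ∃ i ∈ S, ν i < 0
    · right; left
      obtain ⟨i, hi, hneg⟩ := hex
      obtain ⟨hi1, hi2, hi3, hi4⟩ := h.export_priv hν hi hneg
      have hji : j ≠ i := by
        rintro rfl
        exact hnu (he ▸ hi3)
      have hjw : j = w := by
        by_contra hne
        have h3 := hp j hj hne
        rw [← he, st_same] at h3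
        have := hi2 j hj hji
        omega
      subst hjw
      have hνeq : st ν i = Pi.single j (κ + 1) := by
        have h5 : ∑ k ∈ S, st ν i k = κ + 1 := by rw [sum_st hi, h.sumP ν hν]
        rw [← h5]
        apply hsum
        · intro k hk hkj
          by_cases hki : k = i
          · subst hki; rw [st_same]; omega
          · rw [st_ne ν hki]
            have h3 := hp k hk hkj
            rw [← he, st_ne ν hkj] at h3
            have := hi2 k hk hki
            omega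
        · intro k hk
          rw [st_ne ν (by rintro rfl; exact hk hi)]
          exact h.outP ν hν k hk
      exact ⟨i, hi, fun h => hji h.symm, ν, hν, hi1, hνeq, hνeq ▸ hi3, hi4, he.symm⟩
    · left
      push Not at hex
      refine ⟨?_, h1⟩
      rw [← h.sumT τ h1]
      apply hsum
      · intro k hk hkw
        have h3 := hp k hk hkw
        have h4 := hex k hk
        have h5 := le_st ν j k
        rw [he] at h5
        omega
      · exact h.outTh τ hτ

lemma pure_unique (h : Nrm S P N κ) {w : ι} (hw : w ∈ S) {τ τ' : ι → ℤ} (hτ : τ ∈ Th S P N)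
    (hτ' : τ' ∈ Th S P N) (hp : Pure S w τ) (hp' : Pure S w τ') : τ = τ' := by
  have c1 := h.pure_cases hw hτ hp
  have c2 := h.pure_cases hw hτ' hp'
  rcases c1 with ⟨a1, a2⟩ | ⟨i, hi, hiw, ν, hν, b1, b2, b3, b4, b5⟩ | ⟨a1, a2⟩ <;>
  rcases c2 with ⟨a1', a2'⟩ | ⟨i', hi', hiw', ν', hν', b1', b2', b3', b4', b5'⟩ | ⟨a1', a2'⟩
  · rw [a1, a1']
  · exfalso
    rw [a1, mem_Tt] at a2
    exact a2.2 b3'
  · exfalso
    rw [a1, mem_Tt] at a2
    rw [mem_Dd] at a2'
    exact a2.2 a2'.1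
  · exfalso
    rw [a1', mem_Tt] at a2'
    exact a2'.2 b3
  · have : ν' = ν := b4 ν' hν' i' hi' (by rw [b2', b2])
    rw [b5, b5', this]
  · exfalso
    rw [mem_Dd, ← b2] at a2'
    exact a2'.2 (st_mem_up hν hi)
  · exfalso
    rw [a1', mem_Tt] at a2'
    rw [mem_Dd] at a2
    exact a2'.2 a2.1
  · exfalso
    rw [mem_Dd, ← b2'] at a2
    exact a2.2 (st_mem_up hν' hi')
  · rw [a1, a1']

end Nrm

end Pool.Agent.W739.SOS
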